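import Mathlib

/-!
# The affine group `AGL_2(3)`
-/

namespace Pool.Agent.Work.MP_403fb3_al_helper9

open Subgroup

/-- Elements of `AGL_2(3)`: `(x, y) ↦ (a x + b y + u, c x + d y + v)`. -/
@[ext] structure AG where
  a : ZMod 3
  b : ZMod 3
  c : ZMod 3
  d : ZMod 3
  u : ZMod 3
  v : ZMod 3
  h : a * d - b * c ≠ 0

namespace AG

instance : Fact (Nat.Prime 3) := ⟨Nat.prime_three⟩

theorem det_mul (a b c d a' b' c' d' : ZMod 3) :
    (a * a' + b * c') * (c * b' + d * d') - (a * b' + b * d') * (c * a' + d * c') =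
      (a * d - b * c) * (a' * d' - b' * c') := by ring

theorem det_inv : ∀ a b c d : ZMod 3, a * d - b * c ≠ 0 →
    ((a * d - b * c) * d) * ((a * d - b * c) * a) -
      (-((a * d - b * c) * b)) * (-((a * d - b * c) * c)) ≠ 0 := by decide

instance : Mul AG := ⟨fun x y =>
  ⟨x.a * y.a + x.b * y.c, x.a * y.b + x.b * y.d, x.c * y.a + x.d * y.c, x.c * y.b + x.d * y.d,
    x.a * y.u + x.b * y.v + x.u, x.c * y.u + x.d * y.v + x.v, by
      rw [det_mul]; exact mul_ne_zero x.h y.h⟩⟩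

instance : One AG := ⟨⟨1, 0, 0, 1, 0, 0, by decide⟩⟩

/-- The determinant. -/
def det (x : AG) : ZMod 3 := x.a * x.d - x.b * x.c

instance : Inv AG := ⟨fun x =>
  ⟨x.det * x.d, -(x.det * x.b), -(x.det * x.c), x.det * x.a,
    -(x.det * x.d * x.u + -(x.det * x.b) * x.v), -(-(x.det * x.c) * x.u + x.det * x.a * x.v),
    det_inv _ _ _ _ x.h⟩⟩

theorem inv_aux : ∀ a b c d : ZMod 3, a * d - b * c ≠ 0 →
    (a * d - b * c) * d * a + -((a * d - b * c) * b) * c = 1 ∧
    (a * d - b * c) * d * b + -((a * d - b * c) * b) * d = 0 ∧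
    -((a * d - b * c) * c) * a + (a * d - b * c) * a * c = 0 ∧
    -((a * d - b * c) * c) * b + (a * d - b * c) * a * d = 1 := by decide

@[simp] theorem mul_a (x y : AG) : (x * y).a = x.a * y.a + x.b * y.c := rfl
@[simp] theorem mul_b (x y : AG) : (x * y).b = x.a * y.b + x.b * y.d := rfl
@[simp] theorem mul_c (x y : AG) : (x * y).c = x.c * y.a + x.d * y.c := rfl
@[simp] theorem mul_d (x y : AG) : (x * y).d = x.c * y.b + x.d * y.d := rfl
@[simp] theorem mul_u (x y : AG) : (x * y).u = x.a * y.u + x.b * y.v + x.u := rfl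
@[simp] theorem mul_v (x y : AG) : (x * y).v = x.c * y.u + x.d * y.v + x.v := rfl
@[simp] theorem one_a : (1 : AG).a = 1 := rfl
@[simp] theorem one_b : (1 : AG).b = 0 := rfl
@[simp] theorem one_c : (1 : AG).c = 0 := rfl
@[simp] theorem one_d : (1 : AG).d = 1 := rfl
@[simp] theorem one_u : (1 : AG).u = 0 := rfl
@[simp] theorem one_v : (1 : AG).v = 0 := rfl
theorem inv_a (x : AG) : (x⁻¹).a = (x.a * x.d - x.b * x.c) * x.d := rfl
theorem inv_b (x : AG) : (x⁻¹).b = -((x.a * x.d - x.b * x.c) * x.b) := rfl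
theorem inv_c (x : AG) : (x⁻¹).c = -((x.a * x.d - x.b * x.c) * x.c) := rfl
theorem inv_d (x : AG) : (x⁻¹).d = (x.a * x.d - x.b * x.c) * x.a := rfl
theorem inv_u (x : AG) : (x⁻¹).u = -((x⁻¹).a * x.u + (x⁻¹).b * x.v) := rfl
theorem inv_v (x : AG) : (x⁻¹).v = -((x⁻¹).c * x.u + (x⁻¹).d * x.v) := rfl

instance : Group AG where
  mul_assoc x y z := by
    ext <;> simp only [mul_a, mul_b, mul_c, mul_d, mul_u, mul_v] <;> ring
  one_mul x := by
    ext <;> simp
  mul_one x := by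
    ext <;> simp
  inv_mul_cancel x := by
    obtain ⟨h1, h2, h3, h4⟩ := inv_aux x.a x.b x.c x.d x.h
    ext
    · rw [mul_a, inv_a, inv_b, one_a, h1]
    · rw [mul_b, inv_a, inv_b, one_b, h2]
    · rw [mul_c, inv_c, inv_d, one_c, h3]
    · rw [mul_d, inv_c, inv_d, one_d, h4]
    · rw [mul_u, inv_u, one_u, add_neg_cancel]
    · rw [mul_v, inv_v, one_v, add_neg_cancel]

/-- Linear parts. -/
abbrev Lin4 : Type := ZMod 3 × ZMod 3 × ZMod 3 × ZMod 3

/-- The linear part. -/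
def lin (x : AG) : Lin4 := (x.a, x.b, x.c, x.d)

/-- product of linear parts -/
def lm (m n : Lin4) : Lin4 :=
  (m.1 * n.1 + m.2.1 * n.2.2.1, m.1 * n.2.1 + m.2.1 * n.2.2.2,
    m.2.2.1 * n.1 + m.2.2.2 * n.2.2.1, m.2.2.1 * n.2.1 + m.2.2.2 * n.2.2.2)

/-- determinant of a linear part -/
def ldet (m : Lin4) : ZMod 3 := m.1 * m.2.2.2 - m.2.1 * m.2.2.1

/-- inverse of a linear part -/
def li (m : Lin4) : Lin4 :=
  (ldet m * m.2.2.2, -(ldet m * m.2.1), -(ldet m * m.2.2.1), ldet m * m.1)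

theorem lin_mul (x y : AG) : (x * y).lin = lm x.lin y.lin := rfl
theorem lin_inv (x : AG) : (x⁻¹).lin = li x.lin := rfl

/-- commutator of linear parts -/
def lc (m n : Lin4) : Lin4 := lm (lm (lm m n) (li m)) (li n)

open scoped commutatorElement in
theorem lin_comm (x y : AG) : ⁅x, y⁆.lin = lc x.lin y.lin := rfl

/-- The subgroup of elements whose linear part satisfies a closed predicate. -/
def sub (P : Lin4 → Prop) (h1 : P (1, 0, 0, 1)) (hmul : ∀ m n, P m → P n → P (lm m n))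
    (hinv : ∀ m, P m → P (li m)) : Subgroup AG where
  carrier := {x | P x.lin}
  mul_mem' hx hy := hmul _ _ hx hy
  one_mem' := h1
  inv_mem' hx := hinv _ hx

abbrev P0 : Lin4 → Prop := fun m => ldet m ≠ 0
abbrev P1 : Lin4 → Prop := fun m => ldet m = 1
abbrev P2 : Lin4 → Prop := fun m => ldet m = 1 ∧ (m.1 + m.2.2.2 = 0 ∨ (m.2.1 = 0 ∧ m.2.2.1 = 0))
abbrev P3 : Lin4 → Prop := fun m => m.1 = m.2.2.2 ∧ m.1 ≠ 0 ∧ m.2.1 = 0 ∧ m.2.2.1 = 0
abbrev P4 : Lin4 → Prop := fun m => m.1 = 1 ∧ m.2.1 = 0 ∧ m.2.2.1 = 0 ∧ m.2.2.2 = 1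

def S1 : Subgroup AG := sub P1 (by decide) (by decide +kernel) (by decide +kernel)
def S2 : Subgroup AG := sub P2 (by decide) (by decide +kernel) (by decide +kernel)
def S3 : Subgroup AG := sub P3 (by decide) (by decide +kernel) (by decide +kernel)
def S4 : Subgroup AG := sub P4 (by decide) (by decide +kernel) (by decide +kernel)

theorem c1 : ∀ m n, P0 m → P0 n → P1 (lc m n) := by decide +kernel
theorem c2 : ∀ m n, P1 m → P1 n → P2 (lc m n) := by decide +kernel
theorem c3 : ∀ m n, P2 m → P2 n → P3 (lc m n) := by decide +kernel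
theorem c4 : ∀ m n, P3 m → P3 n → P4 (lc m n) := by decide +kernel

theorem mem_sub {P : Lin4 → Prop} {h1 hmul hinv} {x : AG} : x ∈ sub P h1 hmul hinv ↔ P x.lin :=
  Iff.rfl

open scoped commutatorElement in
theorem comm_mem {P Q : Lin4 → Prop} {h1 hmul hinv} (hc : ∀ m n, P m → P n → Q (lc m n))
    {x y : AG} (hx : P x.lin) (hy : P y.lin) : ⁅x, y⁆ ∈ sub Q h1 hmul hinv := by
  rw [mem_sub, lin_comm]
  exact hc _ _ hx hy

theorem D1 : derivedSeries AG 1 ≤ S1 := by
  rw [derivedSeries_one, commutator_def, Subgroup.commutator_le]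
  intro x _ y _
  exact comm_mem c1 x.h y.h

theorem D2 : derivedSeries AG 2 ≤ S2 := by
  have : derivedSeries AG 2 = ⁅derivedSeries AG 1, derivedSeries AG 1⁆ := rfl
  rw [this, Subgroup.commutator_le]
  intro x hx y hy
  exact comm_mem c2 (mem_sub.mp (D1 hx)) (mem_sub.mp (D1 hy))

theorem D3 : derivedSeries AG 3 ≤ S3 := by
  have : derivedSeries AG 3 = ⁅derivedSeries AG 2, derivedSeries AG 2⁆ := rfl
  rw [this, Subgroup.commutator_le]
  intro x hx y hy
  exact comm_mem c3 (mem_sub.mp (D2 hx)) (mem_sub.mp (D2 hy))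

theorem D4 : derivedSeries AG 4 ≤ S4 := by
  have : derivedSeries AG 4 = ⁅derivedSeries AG 3, derivedSeries AG 3⁆ := rfl
  rw [this, Subgroup.commutator_le]
  intro x hx y hy
  exact comm_mem c4 (mem_sub.mp (D3 hx)) (mem_sub.mp (D3 hy))

theorem D5 : derivedSeries AG 5 = ⊥ := by
  have : derivedSeries AG 5 = ⁅derivedSeries AG 4, derivedSeries AG 4⁆ := rfl
  rw [this, Subgroup.commutator_eq_bot_iff_le_centralizer]
  intro x hx
  rw [Subgroup.mem_centralizer_iff]
  intro y hy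
  obtain ⟨h1, h2, h3, h4⟩ := mem_sub.mp (D4 hx)
  obtain ⟨k1, k2, k3, k4⟩ := mem_sub.mp (D4 hy)
  simp only [lin] at h1 h2 h3 h4 k1 k2 k3 k4
  ext <;> simp [h1, h2, h3, h4, k1, k2, k3, k4, add_comm]

/-- The nine points. -/
abbrev Pt : Type := ZMod 3 × ZMod 3

/-- The action on the nine points. -/
def act (x : AG) (p : Pt) : Pt := (x.a * p.1 + x.b * p.2 + x.u, x.c * p.1 + x.d * p.2 + x.v)

theorem act_one (p : Pt) : act 1 p = p := by
  simp [act]

theorem act_mul (x y : AG) (p : Pt) : act (x * y) p = act x (act y p) := by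
  simp only [act, mul_a, mul_b, mul_c, mul_d, mul_u, mul_v, Prod.mk.injEq]
  constructor <;> ring

/-- The permutation representation. -/
def toPerm : AG →* Equiv.Perm Pt where
  toFun x := ⟨act x, act x⁻¹, fun p => by rw [← act_mul, inv_mul_cancel, act_one],
    fun p => by rw [← act_mul, mul_inv_cancel, act_one]⟩
  map_one' := by ext1 p; exact act_one p
  map_mul' x y := by ext1 p; exact act_mul x y p

end AG

end Pool.Agent.Work.MP_403fb3_al_helper9
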