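import Pool.Agent.Work.MP_403fb3_al_helper9.Nine

/-!
# The minimal degree of a soluble group of even permutations of given derived length
-/

namespace Pool.Agent.Work.MP_403fb3_al_helper9

open Subgroup MulAction Equiv Equiv.Perm

/-- `am d` is the least degree of a soluble group of even permutations of derived length
`d + 1`. -/
def am : ℕ → ℕ
  | 0 => 3
  | 1 => 4
  | 2 => 6
  | 3 => 8
  | 4 => 11
  | (d + 5) => fj (d + 6)

/-- The number of elements of a finite group of prime exponent. -/
theorem card_pow {V : Type} [AddCommGroup V] [Finite V] {p : ℕ} (hpp : p.Prime)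
    (hp : ∀ v : V, p • v = 0) : ∃ n, Nat.card V = p ^ n := by
  have : Fact p.Prime := ⟨hpp⟩
  have h1 : IsPGroup p (Multiplicative V) := fun g => ⟨1, by
    rw [pow_one]
    exact congrArg Multiplicative.ofAdd (hp g.toAdd)⟩
  obtain ⟨n, hn⟩ := IsPGroup.iff_card.mp h1
  exact ⟨n, hn⟩

/-- A soluble even transitive group on five points has derived length at most two. -/
theorem trans_five {G Y : Type} [Group G] [MulAction G Y] [Finite Y] [FaithfulSMul G Y]
    [IsPretransitive G Y] (hsolv : Group.IsSolvable G) (h5 : Nat.card Y = 5) :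
    derivedSeries G 2 = ⊥ := by
  by_contra hne
  obtain ⟨l, hl, h1, h2⟩ := exists_last hsolv hne
  have hprim : IsPreprimitive G Y := prim_of_prime (by rw [h5]; norm_num)
  have hY : Nonempty Y := (Nat.card_pos_iff.mp (by rw [h5]; norm_num)).1
  obtain ⟨y⟩ := hY
  obtain ⟨V, _, _, _, H, _, _, e, -, -, -, hj⟩ := prim_struct h1 h2 y
  have hcard : Nat.card V = 5 := (Nat.card_congr e).trans h5
  have h3 := prime_abelian (H := H) (V := V) (p := 5) (by norm_num) hcard
  have h4 := hj (l - 1) (by omega)
  apply h4
  rw [eq_bot_iff, ← h3]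
  exact derivedSeries_antitone _ (by omega)

/-- Even primitive soluble groups on nine or ten points. -/
theorem prim_nine {G Y : Type} [Group G] [MulAction G Y] [Finite Y] [FaithfulSMul G Y]
    [IsPreprimitive G Y] (hsolv : Group.IsSolvable G) (hev : EvenAct G Y)
    (h5 : Nat.card Y = 9 ∨ Nat.card Y = 10) : derivedSeries G 4 = ⊥ := by
  by_contra hne
  obtain ⟨l, hl, h1, h2⟩ := exists_last hsolv hne
  have hY : Nonempty Y := (Nat.card_pos_iff.mp (by omega)).1
  obtain ⟨y⟩ := hY
  obtain ⟨V, _, _, _, H, _, _, e, ⟨p, hpp, hp⟩, -, he, hj⟩ := prim_struct h1 h2 y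
  have hcard : Nat.card V = Nat.card Y := Nat.card_congr e
  obtain ⟨n, hn⟩ := card_pow hpp hp
  have hn0 : n ≠ 0 := by
    rintro rfl
    rw [pow_zero] at hn
    omega
  have hpd : p ∣ Nat.card Y := by rw [← hcard, hn]; exact dvd_pow_self p hn0
  rcases h5 with h5 | h5
  · rw [h5] at hpd
    have hp3 : p = 3 := by
      have h6 : p ∣ 3 ^ 2 := by simpa using hpd
      have h7 := hpp.dvd_of_dvd_pow h6
      exact (Nat.prime_dvd_prime_iff_eq hpp Nat.prime_three).mp h7
    subst hp3
    have hev' : EvenAct H V := evenAct_equiv H.subtype e he hev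
    have h3 := even_nine_lin hp (hcard.trans h5) hev'
    apply hj (l - 1) (by omega)
    rw [eq_bot_iff, ← h3]
    exact derivedSeries_antitone _ (by omega)
  · rw [h5] at hpd hcard
    rw [hcard] at hn
    have hpd' : p ∣ 2 * 5 := by simpa using hpd
    rcases (hpp.dvd_mul).mp hpd' with h | h
    · have hp2 := (Nat.prime_dvd_prime_iff_eq hpp Nat.prime_two).mp h
      subst hp2
      have hlt : n < 4 := by
        by_contra hge
        have := Nat.pow_le_pow_right (show 0 < 2 by norm_num) (show 4 ≤ n by omega)
        omega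
      interval_cases n <;> omega
    · have hp2 := (Nat.prime_dvd_prime_iff_eq hpp Nat.prime_five).mp h
      subst hp2
      have hlt : n < 2 := by
        by_contra hge
        have := Nat.pow_le_pow_right (show 0 < 5 by norm_num) (show 2 ≤ n by omega)
        omega
      interval_cases n <;> omega

/-- Imprimitive soluble groups on nine or ten points. -/
theorem imprim_nine {G Y : Type} [Group G] [MulAction G Y] [Finite Y] [FaithfulSMul G Y]
    [IsPretransitive G Y] (hnp : ¬ IsPreprimitive G Y) (hsolv : Group.IsSolvable G)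
    (h5 : Nat.card Y = 9 ∨ Nat.card Y = 10) : derivedSeries G 4 = ⊥ := by
  by_contra hne
  obtain ⟨g, hg⟩ := (Subgroup.ne_bot_iff_exists_ne_one).mp hne
  obtain ⟨y, hy⟩ : ∃ y : Y, (g : G) • y ≠ y := by
    by_contra hcon
    push Not at hcon
    apply hg
    apply Subtype.ext
    apply FaithfulSMul.eq_of_smul_eq_smul (α := Y)
    intro y
    rw [hcon y]
    exact (one_smul G y).symm
  obtain ⟨b, c, a, i, h⟩ := imprim_step hnp hsolv (pBound _) g.2 hy
  have f1 : fj 1 = 2 := rfl
  have f2 : fj 2 = 3 := rfl
  have f4 : fj 4 = 8 := rfl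
  have f5 : fj 5 = 9 := rfl
  rcases h with ⟨hbc, hb, hc, hai, hfa, hfi⟩ | ⟨hbc, hb, hf⟩
  · have hc5 : c ≤ 5 := by
      rcases h5 with h | h <;> rw [h] at hbc <;> nlinarith
    have hb5 : b ≤ 5 := by
      rcases h5 with h | h <;> rw [h] at hbc <;> nlinarith
    have ha3 : a ≤ 3 := by
      by_contra hlt
      have := fj_mono (show 4 ≤ a by omega)
      omega
    have hi2 : i ≤ 2 := by
      by_contra hlt
      have := fj_mono (show 4 ≤ i + 1 by omega)
      omega
    have key : ∀ b : Fin 6, ∀ c : Fin 6, ∀ a : Fin 4, ∀ i : Fin 3,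
        (b.val * c.val = 9 ∨ b.val * c.val = 10) → a.val + i.val = 4 →
        fj a.val ≤ c.val → ¬ fj (i.val + 1) ≤ b.val := by decide
    exact key ⟨b, by omega⟩ ⟨c, by omega⟩ ⟨a, by omega⟩ ⟨i, by omega⟩ (by rw [hbc]; exact h5)
      hai hfa hfi
  · change fj 5 ≤ c at hf
    have : 2 * 9 ≤ b * c := Nat.mul_le_mul hb (by omega)
    omega

theorem alt_low {G Y : Type} [Group G] [MulAction G Y] [Finite Y] (hsolv : Group.IsSolvable G)
    (hev : EvenAct G Y) {d : ℕ} {g : G} (hg : g ∈ derivedSeries G d) {y : Y} (hy : g • y ≠ y) :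
    am d ≤ Nat.card Y := by
  classical
  have hO := degree_bound hsolv hg (Y := orbit G y) (y := ⟨y, mem_orbit_self y⟩)
    (fun h => hy (congrArg Subtype.val h))
  have hOY : Nat.card (orbit G y) ≤ Nat.card Y := Nat.card_le_card_of_injective _ Subtype.val_injective
  let R := (MulAction.toPermHom G (orbit G y)).range
  have hsR : Group.IsSolvable R :=
    Group.isSolvable_of_surjective (MulAction.toPermHom G (orbit G y)).rangeRestrict_surjective
  have hgR : (MulAction.toPermHom G (orbit G y)).rangeRestrict g ∈ derivedSeries R d :=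
    map_derivedSeries_le_derivedSeries _ d (Subgroup.mem_map_of_mem _ hg)
  have hgR1 : (MulAction.toPermHom G (orbit G y)).rangeRestrict g ≠ 1 := by
    intro h0
    apply hy
    have h1 := congrArg (fun r : R => (r : Perm (orbit G y)) ⟨y, mem_orbit_self y⟩) h0
    exact congrArg Subtype.val h1
  have hRne : derivedSeries R d ≠ ⊥ := by
    intro h0
    rw [h0, Subgroup.mem_bot] at hgR
    exact hgR1 hgR
  have hRtr : IsPretransitive R (orbit G y) := by
    refine ⟨fun u v => ?_⟩
    obtain ⟨g', hg'⟩ := exists_smul_eq G u v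
    exact ⟨(MulAction.toPermHom G (orbit G y)).rangeRestrict g', hg'⟩
  rcases d with _ | _ | _ | _ | _ | d
  · -- nontrivial
    change 3 ≤ Nat.card Y
    by_contra hlt
    have hlt : Nat.card Y ≤ 2 := by omega
    have : Fintype Y := Fintype.ofFinite Y
    let e : Y ≃ Fin (Nat.card Y) := Finite.equivFin Y
    have key : ∀ n ≤ 2, ∀ σ : Perm (Fin n), sign σ = 1 → σ = 1 := by decide +kernel
    have h1 := key _ hlt (e.permCongr (MulAction.toPerm g)) (by rw [sign_permCongr]; exact hev _ _ g)
    apply hy
    have h2 : e.permCongr (MulAction.toPerm g) (e y) = e y := by rw [h1]; rfl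
    rw [permCongr_apply, e.symm_apply_apply] at h2
    exact e.injective h2
  · change 4 ≤ Nat.card Y
    by_contra hlt
    have hlt : Nat.card Y ≤ 3 := by omega
    have : Fintype Y := Fintype.ofFinite Y
    let e : Y ≃ Fin (Nat.card Y) := Finite.equivFin Y
    have key : ∀ n ≤ 3, ∀ σ τ : Perm (Fin n), sign σ = 1 → sign τ = 1 → σ * τ = τ * σ := by
      decide +kernel
    have hle : derivedSeries G 1 ≤ (MulAction.toPermHom G Y).ker := by
      rw [derivedSeries_one, _root_.commutator_def, Subgroup.commutator_le]
      intro u _ v _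
      rw [MonoidHom.mem_ker, map_commutatorElement, commutatorElement_eq_one_iff_mul_comm]
      have h1 := key _ hlt (e.permCongr (MulAction.toPerm u)) (e.permCongr (MulAction.toPerm v))
        (by rw [sign_permCongr]; exact hev _ _ u) (by rw [sign_permCongr]; exact hev _ _ v)
      have h2 : e.permCongrHom (MulAction.toPermHom G Y u * MulAction.toPermHom G Y v) =
        e.permCongrHom (MulAction.toPermHom G Y v * MulAction.toPermHom G Y u) := by
        rw [map_mul, map_mul]
        exact h1
      exact e.permCongrHom.injective h2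
    apply hy
    have h3 := hle hg
    rw [MonoidHom.mem_ker] at h3
    exact congrArg (fun σ : Perm Y => σ y) h3
  · change 6 ≤ Nat.card Y
    change 4 ≤ Nat.card (orbit G y) at hO
    by_contra hlt
    have hevO := evenAct_orbit hev y (by omega)
    rcases (show Nat.card (orbit G y) = 4 ∨ Nat.card (orbit G y) = 5 by omega) with h4 | h5
    · have := even_four hevO h4 hg ⟨y, mem_orbit_self y⟩
      exact hy (congrArg Subtype.val this)
    · exact hRne (trans_five (G := R) (Y := orbit G y) hsR h5)
  · exact degree_bound hsolv hg hy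
  · change 11 ≤ Nat.card Y
    change 9 ≤ Nat.card (orbit G y) at hO
    by_contra hlt
    have hevO := evenAct_range (evenAct_orbit hev y (by omega))
    by_cases hp : IsPreprimitive R (orbit G y)
    · exact hRne (prim_nine (G := R) (Y := orbit G y) hsR hevO (by omega))
    · exact hRne (imprim_nine (G := R) (Y := orbit G y) hp hsR (by omega))
  · exact degree_bound hsolv hg hy

end Pool.Agent.Work.MP_403fb3_al_helper9
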