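import Mathlib

/-!
# The minimal degree function

`fj d` is the least degree of a soluble permutation group of derived length at least `d`:
`1, 2, 3, 4, 8, 9, 16, 27, 36, 64, 81, 144, ...`, with `fj (d + 5) = 9 * fj d` for `d ≥ 5`.
-/

namespace Pool.Agent.Work.MP_403fb3_al_helper9

/-- The least degree of a soluble permutation group of derived length at least `d`. -/
def fj : ℕ → ℕ
  | 0 => 1
  | 1 => 2
  | 2 => 3
  | 3 => 4
  | 4 => 8
  | 5 => 9
  | 6 => 16
  | 7 => 27
  | 8 => 36
  | 9 => 64
  | (d + 10) => 9 * fj (d + 5)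

theorem fj_add_ten (d : ℕ) : fj (d + 10) = 9 * fj (d + 5) := rfl

theorem fj_pos (d : ℕ) : 0 < fj d := by
  induction d using Nat.strong_induction_on with
  | _ d ih =>
    rcases Nat.lt_or_ge d 10 with h | h
    · interval_cases d <;> decide
    · obtain ⟨k, rfl⟩ := Nat.exists_eq_add_of_le h
      have := ih (k + 5) (by omega)
      rw [Nat.add_comm 10 k, fj_add_ten]
      omega

theorem fj_mono_succ (d : ℕ) : fj d ≤ fj (d + 1) := by
  induction d using Nat.strong_induction_on with
  | _ d ih =>
    rcases Nat.lt_or_ge d 10 with h | h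
    · interval_cases d <;> decide
    · obtain ⟨k, rfl⟩ := Nat.exists_eq_add_of_le h
      have := ih (k + 5) (by omega)
      rw [Nat.add_comm 10 k, show k + 10 + 1 = (k + 1) + 10 from by ring, fj_add_ten, fj_add_ten,
        show k + 1 + 5 = k + 5 + 1 from by ring]
      omega

theorem fj_mono {a b : ℕ} (h : a ≤ b) : fj a ≤ fj b :=
  monotone_nat_of_le_succ fj_mono_succ h

/-- Submultiplicativity. -/
theorem fj_add_le (a b : ℕ) : fj (a + b) ≤ fj a * fj b := by
  suffices H : ∀ n a b : ℕ, a + b = n → fj (a + b) ≤ fj a * fj b from H _ a b rfl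
  intro n
  induction n using Nat.strong_induction_on with
  | _ n ih =>
    intro a b hab
    rcases Nat.lt_or_ge a 10 with ha | ha
    · rcases Nat.lt_or_ge b 10 with hb | hb
      · clear ih hab
        interval_cases a <;> interval_cases b <;> decide
      · obtain ⟨k, rfl⟩ := Nat.exists_eq_add_of_le hb
        have h1 := ih (a + (k + 5)) (by omega) a (k + 5) rfl
        rw [show a + (10 + k) = (a + k) + 10 from by ring, fj_add_ten,
          show 10 + k = k + 10 from by ring, fj_add_ten, show a + k + 5 = a + (k + 5) from by ring]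
        calc 9 * fj (a + (k + 5)) ≤ 9 * (fj a * fj (k + 5)) := Nat.mul_le_mul_left _ h1
          _ = fj a * (9 * fj (k + 5)) := by ring
    · obtain ⟨k, rfl⟩ := Nat.exists_eq_add_of_le ha
      have h1 := ih ((k + 5) + b) (by omega) (k + 5) b rfl
      rw [show 10 + k + b = (k + b) + 10 from by ring, fj_add_ten,
        show 10 + k = k + 10 from by ring, fj_add_ten, show k + b + 5 = (k + 5) + b from by ring]
      calc 9 * fj ((k + 5) + b) ≤ 9 * (fj (k + 5) * fj b) := Nat.mul_le_mul_left _ h1
        _ = 9 * fj (k + 5) * fj b := by ring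

theorem fj_succ_le (d : ℕ) : fj (d + 1) ≤ 2 * fj d := by
  have := fj_add_le d 1
  rw [show fj 1 = 2 from rfl] at this
  omega

theorem fj_add_two_le (d : ℕ) : fj (d + 2) ≤ 3 * fj d := by
  have := fj_add_le d 2
  rw [show fj 2 = 3 from rfl] at this
  omega

/-- If `3 ^ k` is larger than twice `fj d` then it is at least `fj (d + 2)`. -/
theorem fj_add_two_le_three_pow (d k : ℕ) (h : 2 * fj d + 1 ≤ 3 ^ k) : fj (d + 2) ≤ 3 ^ k := by
  induction d using Nat.strong_induction_on generalizing k with
  | _ d ih =>
    rcases Nat.lt_or_ge d 10 with hd | hd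
    · clear ih
      rcases Nat.lt_or_ge k 5 with hk | hk
      · revert h
        interval_cases d <;> interval_cases k <;> decide
      · have h1 : (3 : ℕ) ^ 5 ≤ 3 ^ k := Nat.pow_le_pow_right (by norm_num) hk
        have h2 : fj (d + 2) ≤ 3 ^ 5 := by
          interval_cases d <;> decide
        omega
    · obtain ⟨m, rfl⟩ := Nat.exists_eq_add_of_le hd
      rw [show 10 + m = m + 10 from by ring] at h ⊢
      rw [fj_add_ten] at h
      rw [show m + 10 + 2 = (m + 2) + 10 from by ring, fj_add_ten,
        show m + 2 + 5 = (m + 5) + 2 from by ring]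
      have hp := fj_pos (m + 5)
      have hk2 : 2 ≤ k := by
        by_contra hlt
        have : k ≤ 1 := by omega
        have h3 : (3 : ℕ) ^ k ≤ 3 ^ 1 := Nat.pow_le_pow_right (by norm_num) this
        omega
      obtain ⟨j, rfl⟩ := Nat.exists_eq_add_of_le hk2
      rw [pow_add] at h ⊢
      have h4 : 2 * fj (m + 5) + 1 ≤ 3 ^ j := by
        by_contra hlt
        have : 3 ^ j ≤ 2 * fj (m + 5) := by omega
        omega
      have h5 := ih (m + 5) (by omega) j h4
      calc 9 * fj (m + 5 + 2) ≤ 9 * 3 ^ j := Nat.mul_le_mul_left _ h5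
        _ = 3 ^ 2 * 3 ^ j := by norm_num

end Pool.Agent.Work.MP_403fb3_al_helper9
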