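import Pool.Agent.Work.MP_403fb3_al_helper9.Prim

/-!
# The degree of a soluble permutation group of given derived length
-/

namespace Pool.Agent.Work.MP_403fb3_al_helper9

open Subgroup MulAction

/-- Primitive case. -/
theorem prim_bound {G Y : Type} [Group G] [MulAction G Y] [FaithfulSMul G Y] [Finite Y]
    [IsPreprimitive G Y] (hsolv : Group.IsSolvable G) (P : PBound (Nat.card Y)) {d : ℕ}
    (hd : derivedSeries G d ≠ ⊥) : fj (d + 1) ≤ Nat.card Y := by
  obtain ⟨l, hl, h1, h2⟩ := exists_last hsolv hd
  obtain ⟨g, hg⟩ := (Subgroup.ne_bot_iff_exists_ne_one).mp h1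
  obtain ⟨y, hy⟩ : ∃ y : Y, (g : G) • y ≠ y := by
    by_contra hcon
    push Not at hcon
    apply hg
    apply Subtype.ext
    apply FaithfulSMul.eq_of_smul_eq_smul (α := Y)
    intro y
    rw [hcon y]
    exact (one_smul G y).symm
  obtain ⟨V, _, _, _, H, _, _, e, ⟨p, hpp, hp⟩, hirr, -, hj⟩ := prim_struct h1 h2 y
  have hcard : Nat.card V = Nat.card Y := Nat.card_congr e
  refine (fj_mono (show d + 1 ≤ l + 1 by omega)).trans ?_
  rcases l with _ | j
  · have : Nontrivial Y := ⟨⟨_, _, hy⟩⟩
    have h3 := Finite.one_lt_card (α := Y)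
    have : fj (0 + 1) = 2 := rfl
    omega
  · rw [← hcard]
    exact lin_bound hpp hp hirr inferInstance (hcard ▸ P) (hj j rfl)

theorem faithful_bound {G Y : Type} [Group G] [MulAction G Y] [FaithfulSMul G Y] [Finite Y]
    (hsolv : Group.IsSolvable G) (P : PBound (Nat.card Y)) {d : ℕ} {g : G}
    (hg : g ∈ derivedSeries G d) {y : Y} (hy : g • y ≠ y) : fj (d + 1) ≤ Nat.card Y := by
  classical
  by_cases hO : orbit G y = Set.univ
  · have htr : IsPretransitive G Y := (isPretransitive_iff_orbit_eq_univ y).mpr hO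
    have hd : derivedSeries G d ≠ ⊥ := by
      intro h0
      rw [h0, Subgroup.mem_bot] at hg
      rw [hg, one_smul] at hy
      exact hy rfl
    by_cases hp : IsPreprimitive G Y
    · exact prim_bound hsolv P hd
    · obtain ⟨b, c, a, i, h⟩ := imprim_step hp hsolv P hg hy
      rcases h with ⟨h1, -, -, h2, h3, h4⟩ | ⟨h1, h2, h3⟩
      · calc fj (d + 1) = fj (a + (i + 1)) := by rw [← h2]; rfl
          _ ≤ fj a * fj (i + 1) := fj_add_le _ _
          _ ≤ c * b := Nat.mul_le_mul h3 h4
          _ = Nat.card Y := by rw [mul_comm, h1]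
      · calc fj (d + 1) ≤ c := h3
          _ ≤ b * c := Nat.le_mul_of_pos_left _ (by omega)
          _ = Nat.card Y := h1
  · have hlt : (orbit G y).ncard < Nat.card Y := by
      rw [← Set.ncard_univ]
      exact Set.ncard_lt_ncard (Set.ssubset_univ_iff.mpr hO)
    have := P (orbit G y) G hsolv (by rw [Nat.card_coe_set_eq]; exact hlt) d g hg
      ⟨y, mem_orbit_self y⟩ (fun h => hy (congrArg Subtype.val h))
    rw [Nat.card_coe_set_eq] at this
    omega

theorem pBound (N : ℕ) : PBound N := by
  induction N with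
  | zero => intro Y _ G _ _ _ h; omega
  | succ N ih =>
    intro Y hY G hG hact hsolv hlt d g hg y hy
    have hP : PBound (Nat.card Y) := by
      intro Y' _ G' _ _ hs hlt'
      exact ih Y' G' hs (by omega)
    -- pass to the image
    let φ := MulAction.toPermHom G Y
    have hs : Group.IsSolvable φ.range := Group.isSolvable_of_surjective φ.rangeRestrict_surjective
    have hg' : φ.rangeRestrict g ∈ derivedSeries φ.range d :=
      map_derivedSeries_le_derivedSeries φ.rangeRestrict d (Subgroup.mem_map_of_mem _ hg)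
    exact faithful_bound (G := φ.range) (Y := Y) hs hP hg' (y := y) hy

/-- **The degree bound.** If an element of the `d`-th derived subgroup of a soluble group acts
nontrivially on a finite set then the set has at least `fj (d + 1)` points. -/
theorem degree_bound {G Y : Type} [Group G] [MulAction G Y] [Finite Y]
    (hsolv : Group.IsSolvable G) {d : ℕ} {g : G}
    (hg : g ∈ derivedSeries G d) {y : Y} (hy : g • y ≠ y) : fj (d + 1) ≤ Nat.card Y :=
  pBound (Nat.card Y + 1) Y G hsolv (Nat.lt_succ_self _) d g hg y hy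

/-- A soluble group acting faithfully with derived length more than `d` has degree at least
`fj (d + 1)`. -/
theorem faithful_degree_bound {G Y : Type} [Group G] [MulAction G Y] [FaithfulSMul G Y] [Finite Y]
    (hsolv : Group.IsSolvable G) {d : ℕ} (hd : derivedSeries G d ≠ ⊥) :
    fj (d + 1) ≤ Nat.card Y := by
  obtain ⟨g, hg⟩ := (Subgroup.ne_bot_iff_exists_ne_one).mp hd
  obtain ⟨y, hy⟩ : ∃ y : Y, (g : G) • y ≠ y := by
    by_contra hcon
    push Not at hcon
    apply hg
    apply Subtype.ext
    apply FaithfulSMul.eq_of_smul_eq_smul (α := Y)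
    intro y
    rw [hcon y]
    exact (one_smul G y).symm
  exact degree_bound hsolv g.2 hy

end Pool.Agent.Work.MP_403fb3_al_helper9
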