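import Pool.Agent.Work.MP_403fb3_al_helper9.Tops

/-!
# Two-generated permutation groups of prescribed derived length and their signs
-/

namespace Pool.Agent.Work.MP_403fb3_al_helper9

open Subgroup Equiv Equiv.Perm
open scoped commutatorElement

section emb

variable {D X : Type}

/-- The imprimitive action of the wreath product. -/
def wrEmb : Wr D (Perm X) →* Perm (D × X) where
  toFun w :=
    { toFun := fun p => (w.s p.1, w.f p.1 p.2)
      invFun := fun p => (w.s⁻¹ p.1, (w.f (w.s⁻¹ p.1))⁻¹ p.2)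
      left_inv := fun p => by simp
      right_inv := fun p => by simp }
  map_one' := by
    ext1 p; rfl
  map_mul' x y := by
    ext1 p; rfl

theorem wrEmb_injective [Nonempty X] : Function.Injective (wrEmb (D := D) (X := X)) := by
  rw [injective_iff_map_eq_one]
  intro w hw
  obtain ⟨x0⟩ := ‹Nonempty X›
  have h : ∀ p : D × X, (w.s p.1, w.f p.1 p.2) = p := fun p => by
    have := congrArg (fun σ : Perm (D × X) => σ p) hw
    exact this
  apply Wr.ext
  · funext d
    ext x
    exact (Prod.ext_iff.mp (h (d, x))).2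
  · ext d
    exact (Prod.ext_iff.mp (h (d, x0))).1

variable [Fintype D] [DecidableEq D] [Fintype X] [DecidableEq X]

theorem sign_wrEmb (w : Wr D (Perm X)) :
    sign (wrEmb w) = (∏ d, sign (w.f d)) * sign w.s ^ Fintype.card X := by
  have h : wrEmb w = (Equiv.prodCongrLeft (fun _ : X => w.s)) * (Equiv.prodCongrRight w.f) := by
    ext1 p
    rfl
  rw [h, Equiv.Perm.sign_mul, sign_prodCongrLeft, sign_prodCongrRight]
  rw [Finset.prod_const, Finset.card_univ, mul_comm]

end emb

/-- There is a pair of permutations of `n` points, the first of sign `ε`, the second even,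
generating a soluble group of derived length exactly `d + 1`. -/
def Good (n d : ℕ) (ε : ℤˣ) : Prop :=
  ∃ b1 b2 : Perm (Fin n), sign b1 = ε ∧ sign b2 = 1 ∧ GG b1 b2 d

theorem good_of {X : Type} [Fintype X] [DecidableEq X] {n d : ℕ} {ε : ℤˣ}
    (hn : Fintype.card X = n) (b1 b2 : Perm X) (h1 : sign b1 = ε) (h2 : sign b2 = 1)
    (h : GG b1 b2 d) : Good n d ε := by
  let e : X ≃ Fin n := Fintype.equivFinOfCardEq hn
  refine ⟨e.permCongr b1, e.permCongr b2, ?_, ?_, ?_⟩
  · rw [sign_permCongr, h1]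
  · rw [sign_permCongr, h2]
  · exact h.map e.permCongrHom.toMonoidHom e.permCongrHom.injective

theorem good_mono {n n' d : ℕ} {ε : ℤˣ} (hnn : n ≤ n') (h : Good n d ε) : Good n' d ε := by
  obtain ⟨b1, b2, h1, h2, h3⟩ := h
  let f : Fin n ≃ {i : Fin n' // i.val < n} :=
    { toFun := fun i => ⟨⟨i.val, by omega⟩, i.2⟩
      invFun := fun i => ⟨i.1.val, i.2⟩
      left_inv := fun i => rfl
      right_inv := fun i => rfl }
  refine ⟨extendDomainHom f b1, extendDomainHom f b2, ?_, ?_, ?_⟩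
  · rw [extendDomainHom_apply, sign_extendDomain, h1]
  · rw [extendDomainHom_apply, sign_extendDomain, h2]
  · exact h3.map _ (extendDomainHom_injective f)

theorem good_wr {D : Type} [Fintype D] [DecidableEq D] {m : ℕ} (td : TopData D m) {n d : ℕ}
    {ε ε' : ℤˣ} (h : Good n d ε) (hn : 0 < n)
    (he1 : ∀ b1 b2 : Perm (Fin n), sign b1 = ε → sign b2 = 1 →
      (∏ i, sign ((td.T1 b1 b2).f i)) * sign (td.T1 b1 b2).s ^ n = ε')
    (he2 : ∀ b1 b2 : Perm (Fin n), sign b1 = ε → sign b2 = 1 →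
      (∏ i, sign ((td.T2 b1 b2).f i)) * sign (td.T2 b1 b2).s ^ n = 1) :
    Good (Fintype.card D * n) (m + d) ε' := by
  obtain ⟨b1, b2, h1, h2, h3⟩ := h
  have : Nonempty (Fin n) := ⟨⟨0, hn⟩⟩
  refine good_of (X := D × Fin n) (by simp) (wrEmb (td.T1 b1 b2)) (wrEmb (td.T2 b1 b2)) ?_ ?_ ?_
  · rw [sign_wrEmb, Fintype.card_fin]; exact he1 b1 b2 h1 h2
  · rw [sign_wrEmb, Fintype.card_fin]; exact he2 b1 b2 h1 h2
  · exact (td.gg b1 b2 h3).map wrEmb wrEmb_injective

theorem sign_p1 : sign p1 = -1 := by decide +kernel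
theorem sign_p2 : sign p2 = -1 := by decide +kernel
theorem sign_q1 : sign q1 = -1 := by decide +kernel
theorem sign_q2 : sign q2 = 1 := by decide +kernel

theorem good_S4 {n d : ℕ} {ε : ℤˣ} (h : Good n d ε) (hn : 0 < n) (he : Even n) :
    Good (4 * n) (3 + d) 1 := by
  have := good_wr topS4 (ε' := 1) h hn ?_ ?_
  · rwa [Fintype.card_fin] at this
  · intro b1 b2 _ _
    simp [topS4, sign_p1, he.neg_one_pow]
  · intro b1 b2 h1 h2
    simp [topS4, sign_p2, he.neg_one_pow, Fin.prod_univ_succ, h1, h2]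

theorem good_E {n d : ℕ} {ε : ℤˣ} (h : Good n d ε) (hn : 0 < n) :
    Good (9 * n) (5 + d) ((-1) ^ n) := by
  have := good_wr topE (ε' := (-1) ^ n) h hn ?_ ?_
  · rwa [Fintype.card_fin] at this
  · intro b1 b2 h1 _
    simp [topE, sign_q1, Fin.prod_univ_succ, h1]
  · intro b1 b2 h1 h2
    simp [topE, sign_q2, Fin.prod_univ_succ, h2]

theorem good_O {n d : ℕ} {ε : ℤˣ} (h : Good n d ε) (hn : 0 < n) :
    Good (9 * n) (5 + d) (ε * (-1) ^ n) := by
  have := good_wr topO (ε' := ε * (-1) ^ n) h hn ?_ ?_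
  · rwa [Fintype.card_fin] at this
  · intro b1 b2 h1 _
    simp [topO, sign_q1, Fin.prod_univ_succ, h1]
  · intro b1 b2 h1 h2
    simp [topO, sign_q2, Fin.prod_univ_succ, h2]

theorem GG.of_bot {G : Type} [Group G] {a b : G} {d : ℕ} (h : derivedSeries G (d + 1) = ⊥)
    (w : F2) (hw : w ∈ derivedSeries F2 d) (hne : ev2 a b w ≠ 1) : GG a b d := by
  refine ⟨fun w hw => ?_, w, hw, hne⟩
  have h1 : ev2 a b w ∈ derivedSeries G (d + 1) :=
    map_derivedSeries_le_derivedSeries _ _ (Subgroup.mem_map_of_mem _ hw)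
  rwa [h, Subgroup.mem_bot] at h1

theorem derived_one_bot {G : Type} [Group G] (h : ∀ a b : G, a * b = b * a) :
    derivedSeries G 1 = ⊥ := by
  rw [derivedSeries_one, commutator_def, Subgroup.commutator_eq_bot_iff_le_centralizer]
  intro x _
  rw [Subgroup.mem_centralizer_iff]
  intro y _
  exact h _ _

theorem perm2_one : derivedSeries (Perm (Fin 2)) 1 = ⊥ := derived_one_bot (by decide)

theorem perm3_two : derivedSeries (Perm (Fin 3)) 2 = ⊥ := by
  have : derivedSeries (Equiv.Perm (Fin 3)) 2 =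
    ⁅derivedSeries (Equiv.Perm (Fin 3)) 1, derivedSeries (Equiv.Perm (Fin 3)) 1⁆ := rfl
  rw [this, Subgroup.commutator_eq_bot_iff_le_centralizer]
  intro x hx
  rw [Subgroup.mem_centralizer_iff]
  intro y hy
  have key : ∀ x y : Perm (Fin 3), sign x = 1 → sign y = 1 → y * x = x * y := by decide
  exact key x y (perm4_one hx) (perm4_one hy)

/-- Adding two points to correct the sign. -/
theorem good_twist {n d : ℕ} (h : Good n d (-1)) : Good (n + 2) d 1 := by
  obtain ⟨b1, b2, h1, h2, h3, w0, hw0, hne⟩ := h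
  let S : Perm (Fin n) × Perm (Fin 2) →* Perm (Fin n ⊕ Fin 2) := sumCongrHom (Fin n) (Fin 2)
  have hS : Function.Injective S := sumCongrHom_injective
  have hev : ∀ w, ev2 ((b1, swap 0 1) : Perm (Fin n) × Perm (Fin 2)) (b2, 1) w =
      (ev2 b1 b2 w, ev2 (swap 0 1) 1 w) := by
    intro w
    apply Prod.ext
    · exact ev2_comp (MonoidHom.fst _ _) ((b1, swap 0 1) : Perm (Fin n) × Perm (Fin 2)) (b2, 1) w
    · exact ev2_comp (MonoidHom.snd _ _) ((b1, swap 0 1) : Perm (Fin n) × Perm (Fin 2)) (b2, 1) w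
  have hGG : GG ((b1, swap 0 1) : Perm (Fin n) × Perm (Fin 2)) (b2, 1) d := by
    refine ⟨fun w hw => ?_, w0, hw0, fun h0 => ?_⟩
    · rw [hev, h3 w hw]
      have h4 : ev2 (swap 0 1) 1 w ∈ derivedSeries (Perm (Fin 2)) 1 :=
        map_derivedSeries_le_derivedSeries _ 1
          (Subgroup.mem_map_of_mem _ (derivedSeries_antitone _ (by omega) hw))
      rw [perm2_one, Subgroup.mem_bot] at h4
      rw [h4]
      rfl
    · rw [hev] at h0
      exact hne (congrArg Prod.fst h0)
  refine good_of (X := Fin n ⊕ Fin 2) (by simp) (S (b1, swap 0 1)) (S (b2, 1)) ?_ ?_ (hGG.map S hS)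
  · change sign (Equiv.sumCongr b1 (swap 0 1)) = 1
    rw [sign_sumCongr, h1, sign_swap (by decide)]
    rfl
  · change sign (Equiv.sumCongr b2 1) = 1
    rw [sign_sumCongr, h2, Equiv.Perm.sign_one, mul_one]

theorem good_2 : Good 2 0 (-1) :=
  ⟨swap 0 1, 1, by decide, by decide, GG.of_bot perm2_one x1 (mem_derived_zero _) (by
    rw [ev2_zero]; decide)⟩

/-- a three-cycle -/
def r3 : Perm (Fin 3) := ⟨![1, 2, 0], ![2, 0, 1], by decide, by decide⟩

theorem good_3 : Good 3 1 (-1) :=
  ⟨swap 0 1, r3, by decide, by decide +kernel, GG.of_bot perm3_two ⁅x1, x2⁆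
    (comm_mem_derived (mem_derived_zero _) (mem_derived_zero _)) (by
    rw [map_commutatorElement, ev2_zero, ev2_one]; decide +kernel)⟩

theorem good_3e : Good 3 0 1 := by
  have h : derivedSeries (alternatingGroup (Fin 3)) 1 = ⊥ := derived_one_bot (by decide +kernel)
  have h1 : r3 ∈ alternatingGroup (Fin 3) := mem_alternatingGroup.mpr (by decide +kernel)
  have h2 : GG (⟨r3, h1⟩ : alternatingGroup (Fin 3)) 1 0 := by
    refine GG.of_bot h x1 (mem_derived_zero _) ?_
    rw [ev2_zero]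
    intro h0
    exact absurd (congrArg Subtype.val h0) (by change r3 ≠ 1; decide +kernel)
  exact ⟨r3, 1, by decide +kernel, by decide, h2.map (alternatingGroup (Fin 3)).subtype
    (Subgroup.subtype_injective _)⟩

/-- a three-cycle -/
def r4 : Perm (Fin 4) := ⟨![1, 2, 0, 3], ![2, 0, 1, 3], by decide, by decide⟩
/-- a double transposition -/
def v4 : Perm (Fin 4) := ⟨![1, 0, 3, 2], ![1, 0, 3, 2], by decide, by decide⟩

theorem good_4e : Good 4 1 1 := by
  have h : derivedSeries (alternatingGroup (Fin 4)) 2 = ⊥ := by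
    rw [eq_bot_iff]
    intro g hg
    rw [Subgroup.mem_bot]
    apply Subtype.ext
    exact even4 (alternatingGroup (Fin 4)).subtype (fun g => mem_alternatingGroup.mp g.2) hg
  have h1 : r4 ∈ alternatingGroup (Fin 4) := mem_alternatingGroup.mpr (by decide +kernel)
  have h2 : v4 ∈ alternatingGroup (Fin 4) := mem_alternatingGroup.mpr (by decide +kernel)
  have h3 : GG (⟨r4, h1⟩ : alternatingGroup (Fin 4)) ⟨v4, h2⟩ 1 := by
    refine GG.of_bot h ⁅x1, x2⁆ (comm_mem_derived (mem_derived_zero _) (mem_derived_zero _)) ?_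
    rw [map_commutatorElement, ev2_zero, ev2_one]
    intro h0
    exact absurd (congrArg Subtype.val h0) (by change ⁅r4, v4⁆ ≠ 1; decide +kernel)
  exact ⟨r4, v4, by decide +kernel, by decide +kernel, h3.map (alternatingGroup (Fin 4)).subtype
    (Subgroup.subtype_injective _)⟩

theorem good_4 : Good 4 2 (-1) := by
  refine ⟨p1, r4, sign_p1, by decide +kernel, GG.of_bot perm4_three
    ⁅⁅x1, x2⁆, ⁅x1, x2⁻¹⁆⁆ (comm_mem_derived (comm_mem_derived (mem_derived_zero _)
    (mem_derived_zero _)) (comm_mem_derived (mem_derived_zero _) (mem_derived_zero _))) ?_⟩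
  simp only [map_commutatorElement, map_inv, ev2_zero, ev2_one]
  decide +kernel

end Pool.Agent.Work.MP_403fb3_al_helper9
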