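import Pool.Agent.Work.MP_403fb3_al_helper9.Emb
import Pool.Agent.Work.MP_403fb3_al_helper9.AltLow

/-!
# Existence of two-generated soluble groups of even permutations in every minimal degree
-/

namespace Pool.Agent.Work.MP_403fb3_al_helper9

open Subgroup Equiv Equiv.Perm
open scoped commutatorElement

/-- an explicit word -/
def w9 : F2 := ⁅⁅⁅⁅x2 * x1 * x2⁻¹, x2⁻¹ * x1 * x1⁆, ⁅x1 * x2⁻¹ * x1, x2 * x1⁻¹ * x2⁻¹⁆⁆,
  ⁅⁅x1 * x2⁻¹ * x1, x1 * x1 * x2⁻¹⁆, ⁅x2, x1⁻¹ * x2⁻¹ * x1⁆⁆⁆,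
  ⁅⁅⁅x1 * x2 * x1⁻¹, x1⁻¹ * x2⁻¹ * x2⁻¹⁆, ⁅x2⁻¹ * x1 * x1, x2 * x1⁻¹⁆⁆,
  ⁅⁅x2⁻¹ * x2⁻¹ * x1, x2⁻¹ * x1⁻¹ * x2⁆, ⁅x2 * x1⁻¹ * x1⁻¹, x1 * x2 * x2⁆⁆⁆⁆

theorem w9_mem : w9 ∈ derivedSeries F2 4 := by
  unfold w9
  repeat' first | exact mem_derived_zero _ | apply comm_mem_derived

/-- the same word in the permutation group -/
def w9f : Perm (Fin 9) := ⁅⁅⁅⁅q2 * q1 * q2⁻¹, q2⁻¹ * q1 * q1⁆, ⁅q1 * q2⁻¹ * q1, q2 * q1⁻¹ * q2⁻¹⁆⁆,
  ⁅⁅q1 * q2⁻¹ * q1, q1 * q1 * q2⁻¹⁆, ⁅q2, q1⁻¹ * q2⁻¹ * q1⁆⁆⁆,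
  ⁅⁅⁅q1 * q2 * q1⁻¹, q1⁻¹ * q2⁻¹ * q2⁻¹⁆, ⁅q2⁻¹ * q1 * q1, q2 * q1⁻¹⁆⁆,
  ⁅⁅q2⁻¹ * q2⁻¹ * q1, q2⁻¹ * q1⁻¹ * q2⁆, ⁅q2 * q1⁻¹ * q1⁻¹, q1 * q2 * q2⁆⁆⁆⁆

theorem w9_ev : ev2 q1 q2 w9 = w9f := by
  simp only [w9, w9f, map_commutatorElement, map_mul, map_inv, ev2_zero, ev2_one]

theorem w9f_ne : w9f ≠ 1 := by decide +kernel

theorem good_9 : Good 9 4 (-1) :=
  ⟨q1, q2, sign_q1, sign_q2, fun w hw => agl_hm w hw, w9, w9_mem, by
    rw [w9_ev]; exact w9f_ne⟩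

theorem good_6 : Good 6 2 1 := good_twist good_4

theorem good_8 : Good 8 3 1 := good_S4 good_2 (by norm_num) (by decide)

theorem good_11 : Good 11 4 1 := good_twist good_9

theorem good_16 : Good 16 5 1 := good_S4 good_4 (by norm_num) (by decide)

theorem good_27 : Good 27 6 1 := by
  have h : (-1 : ℤˣ) * (-1) ^ 3 = 1 := by decide
  have := good_O good_3 (by norm_num)
  rwa [h] at this

theorem good_27' : Good 27 6 (-1) := by
  have h : (-1 : ℤˣ) ^ 3 = -1 := by decide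
  have := good_E good_3 (by norm_num)
  rwa [h] at this

theorem good_36 : Good 36 7 1 := by
  have h : (-1 : ℤˣ) ^ 4 = 1 := by decide
  have := good_E good_4 (by norm_num)
  rwa [h] at this

theorem good_64 : Good 64 8 1 := good_S4 good_16 (by norm_num) (by decide)

theorem good_81 : Good 81 9 1 := by
  have h : (-1 : ℤˣ) * (-1) ^ 9 = 1 := by decide
  have := good_O good_9 (by norm_num)
  rwa [h] at this

theorem good_81' : Good 81 9 (-1) := by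
  have h : (-1 : ℤˣ) ^ 9 = -1 := by decide
  have := good_E good_9 (by norm_num)
  rwa [h] at this

theorem good_step {n d : ℕ} (hn : 0 < n) (h1 : Good n d 1) (h2 : Odd n → Good n d (-1)) :
    Good (9 * n) (d + 5) 1 ∧ (Odd (9 * n) → Good (9 * n) (d + 5) (-1)) := by
  rw [add_comm d 5]
  rcases Nat.even_or_odd n with he | ho
  · have h3 := good_E h1 hn
    rw [he.neg_one_pow] at h3
    refine ⟨h3, fun ho => ?_⟩
    exact absurd (he.mul_left 9) (Nat.not_even_iff_odd.mpr ho)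
  · have h3 := good_E h1 hn
    have h4 := good_O (h2 ho) hn
    rw [ho.neg_one_pow] at h3 h4
    exact ⟨by simpa using h4, fun _ => h3⟩

theorem good_large (d : ℕ) : Good (fj (d + 6)) (d + 5) 1 ∧
    (Odd (fj (d + 6)) → Good (fj (d + 6)) (d + 5) (-1)) := by
  induction d using Nat.strong_induction_on with
  | _ d ih =>
    rcases d with _ | _ | _ | _ | _ | d
    · exact ⟨good_16, fun h => absurd h (by decide)⟩
    · exact ⟨good_27, fun _ => good_27'⟩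
    · exact ⟨good_36, fun h => absurd h (by decide)⟩
    · exact ⟨good_64, fun h => absurd h (by decide)⟩
    · exact ⟨good_81, fun _ => good_81'⟩
    · have h := ih d (by omega)
      have h1 : fj (d + 1 + 1 + 1 + 1 + 1 + 6) = 9 * fj (d + 6) := fj_add_ten (d + 1)
      rw [h1]
      exact good_step (fj_pos _) h.1 h.2

theorem good_am (d : ℕ) : Good (am d) d 1 := by
  rcases d with _ | _ | _ | _ | _ | d
  · exact good_3e
  · exact good_4e
  · exact good_6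
  · exact good_8
  · exact good_11
  · exact (good_large d).1

/-- Two-generated soluble permutation groups of derived length `d + 1` in the least degree. -/
theorem good_sym (d : ℕ) : ∃ ε, Good (fj (d + 1)) d ε := by
  rcases d with _ | _ | _ | _ | _ | d
  · exact ⟨_, good_2⟩
  · exact ⟨_, good_3⟩
  · exact ⟨_, good_4⟩
  · exact ⟨_, good_8⟩
  · exact ⟨_, good_9⟩
  · exact ⟨_, (good_large d).1⟩

end Pool.Agent.Work.MP_403fb3_al_helper9
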