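import Pool.Agent.Work.MP_403fb3_al_helper9.Exist

/-!
# Alternating and symmetric groups
-/

namespace Pool.Agent.Work.MP_403fb3_al_helper9

open Subgroup Equiv Equiv.Perm

theorem GG.comap {G G' : Type} [Group G] [Group G'] {a b : G} {d : ℕ} (f : G →* G')
    (hf : Function.Injective f) (h : GG (f a) (f b) d) : GG a b d := by
  obtain ⟨hn, w, hw, hne⟩ := h
  refine ⟨fun w hw => ?_, w, hw, ?_⟩
  · apply (injective_iff_map_eq_one f).mp hf
    rw [ev2_comp, hn w hw]
  · intro h1
    apply hne
    rw [← ev2_comp, h1, map_one]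

/-- The subgroup generated by a good pair. -/
theorem GG.closure {G : Type} [Group G] {a b : G} {d : ℕ} (h : GG a b d) :
    derivedSeries (closure ({a, b} : Set G)) (d + 1) = ⊥ ∧
      ∀ m < d + 1, derivedSeries (closure ({a, b} : Set G)) m ≠ ⊥ := by
  set R := Subgroup.closure ({a, b} : Set G) with hR
  let a' : R := ⟨a, subset_closure (by simp)⟩
  let b' : R := ⟨b, subset_closure (by simp)⟩
  have hsub : ∀ w, ((ev2 a' b' w : R) : G) = ev2 a b w := fun w => ev2_comp R.subtype a' b' w
  have hsurj : Function.Surjective (ev2 a' b') := by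
    have hle : R ≤ (ev2 a b).range := by
      rw [hR, closure_le]
      rintro x (rfl | rfl)
      · exact ⟨FreeGroup.of 0, by simp⟩
      · exact ⟨FreeGroup.of 1, by simp⟩
    rintro ⟨x, hx⟩
    obtain ⟨w, rfl⟩ := hle hx
    exact ⟨w, Subtype.ext (hsub w)⟩
  have h' : GG a' b' d := GG.comap R.subtype (Subgroup.subtype_injective _) h
  constructor
  · rw [← map_derivedSeries_eq hsurj, eq_bot_iff]
    rintro _ ⟨w, hw, rfl⟩
    exact Subgroup.mem_bot.mpr (h'.1 w hw)
  · intro m hm h0
    obtain ⟨w, hw, hne⟩ := h'.2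
    apply hne
    have h1 : ev2 a' b' w ∈ derivedSeries R m :=
      map_derivedSeries_le_derivedSeries _ _ (Subgroup.mem_map_of_mem _
        (derivedSeries_antitone _ (by omega) hw))
    rw [h0, Subgroup.mem_bot] at h1
    exact h1

/-- A two-generated subgroup of the alternating group of derived length exactly `d + 1`. -/
theorem alt_exists {n d : ℕ} (h : am d ≤ n) : ∃ a b : alternatingGroup (Fin n), GG a b d := by
  obtain ⟨b1, b2, h1, h2, h3⟩ := good_mono h (good_am d)
  exact ⟨⟨b1, mem_alternatingGroup.mpr h1⟩, ⟨b2, mem_alternatingGroup.mpr h2⟩,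
    GG.comap (alternatingGroup (Fin n)).subtype (Subgroup.subtype_injective _) h3⟩

/-- A two-generated subgroup of the symmetric group of derived length exactly `d + 1`. -/
theorem sym_exists {n d : ℕ} (h : fj (d + 1) ≤ n) : ∃ a b : Perm (Fin n), GG a b d := by
  obtain ⟨ε, hε⟩ := good_sym d
  obtain ⟨b1, b2, -, -, h3⟩ := good_mono h hε
  exact ⟨b1, b2, h3⟩

theorem exists_moved {n : ℕ} {K : Type} [Group K] (f : K →* Perm (Fin n))
    (hf : Function.Injective f) {d : ℕ} (hd : derivedSeries K d ≠ ⊥) :
    ∃ g ∈ derivedSeries K d, ∃ y : Fin n, f g y ≠ y := by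
  obtain ⟨g, hg⟩ := (Subgroup.ne_bot_iff_exists_ne_one).mp hd
  refine ⟨g, g.2, ?_⟩
  by_contra hcon
  push Not at hcon
  apply hg
  apply Subtype.ext
  apply hf
  change f g = f 1
  rw [map_one]
  ext1 y
  exact hcon y

theorem alt_lower {n d : ℕ} (K : Subgroup (alternatingGroup (Fin n)))
    (h1 : derivedSeries K (d + 1) = ⊥) (h2 : derivedSeries K d ≠ ⊥) : am d ≤ n := by
  let f : K →* Perm (Fin n) := (alternatingGroup (Fin n)).subtype.comp K.subtype
  obtain ⟨g, hg, y, hy⟩ := exists_moved f
    ((Subgroup.subtype_injective _).comp (Subgroup.subtype_injective _)) h2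
  let _ : MulAction K (Fin n) := MulAction.compHom (Fin n) f
  have hsign : ∀ k : K, sign (f k) = 1 := fun k => mem_alternatingGroup.mp k.1.2
  have hev : EvenAct K (Fin n) := by
    intro hF hD k
    obtain rfl : hF = Fin.fintype n := Subsingleton.elim _ _
    obtain rfl : hD = instDecidableEqFin n := Subsingleton.elim _ _
    exact hsign k
  have h5 := alt_low (G := K) (Y := Fin n) ((Group.isSolvable_def K).mpr ⟨_, h1⟩) hev hg hy
  rwa [Nat.card_eq_fintype_card, Fintype.card_fin] at h5

theorem sym_lower {n d : ℕ} (K : Subgroup (Perm (Fin n)))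
    (h1 : derivedSeries K (d + 1) = ⊥) (h2 : derivedSeries K d ≠ ⊥) : fj (d + 1) ≤ n := by
  obtain ⟨g, hg, y, hy⟩ := exists_moved K.subtype (Subgroup.subtype_injective _) h2
  have h5 := degree_bound (G := K) (Y := Fin n) ((Group.isSolvable_def K).mpr ⟨_, h1⟩) hg hy
  rwa [Nat.card_eq_fintype_card, Fintype.card_fin] at h5

theorem closure_one_one (G : Type) [Group G] :
    derivedSeries (closure ({1, 1} : Set G)) 0 = ⊥ := by
  have h : Subsingleton (closure ({1, 1} : Set G)) := by
    have h1 : closure ({1, 1} : Set G) = ⊥ := by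
      rw [Set.pair_eq_singleton, closure_singleton_one]
    rw [h1]
    infer_instance
  exact Subsingleton.elim _ _

/-- A 2-generator subgroup of `G` gives the conclusion of the question. -/
theorem variety_of_pair {G : Type} [Group G] {d : ℕ} (x y : G)
    (h : derivedSeries (closure ({x, y} : Set G)) d = ⊥ ∧
      ∀ m < d, derivedSeries (closure ({x, y} : Set G)) m ≠ ⊥) :
    ∃ (H : Type) (_ : Group H),
      (∀ (k : ℕ) (w : FreeGroup (Fin k)),
          (∀ f : Fin k → G, FreeGroup.lift f w = 1) →
            ∀ f : Fin k → H, FreeGroup.lift f w = 1) ∧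
      (∃ a b : H, Subgroup.closure ({a, b} : Set H) = ⊤) ∧
      derivedSeries H d = ⊥ ∧ ∀ m < d, derivedSeries H m ≠ ⊥ := by
  refine ⟨closure ({x, y} : Set G), inferInstance, ?_, ?_, h⟩
  · intro k w hw f
    apply Subtype.ext
    have h3 : (closure ({x, y} : Set G)).subtype.comp (FreeGroup.lift f) =
        FreeGroup.lift (fun i => (f i : G)) := by
      refine FreeGroup.ext_hom _ _ ?_
      intro i
      simp
    have h4 := DFunLike.congr_fun h3 w
    rw [hw] at h4
    exact h4
  · refine ⟨⟨x, subset_closure (by simp)⟩, ⟨y, subset_closure (by simp)⟩, ?_⟩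
    have := Subgroup.closure_closure_coe_preimage (k := ({x, y} : Set G))
    convert this using 2
    ext z
    simp only [Set.mem_insert_iff, Set.mem_singleton_iff, Set.mem_preimage, Subtype.ext_iff]

end Pool.Agent.Work.MP_403fb3_al_helper9
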