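import Pool.Agent.Work.MP_403fb3_al_helper9.Arith

/-!
# Irreducible soluble linear groups: the orbit-counting bound
-/

namespace Pool.Agent.Work.MP_403fb3_al_helper9

open Subgroup

/-- The bound for actions on sets with fewer than `N` points. -/
def PBound (N : ℕ) : Prop :=
  ∀ (Y : Type) [Finite Y] (G : Type) [Group G] [MulAction G Y], Group.IsSolvable G →
    Nat.card Y < N → ∀ (d : ℕ) (g : G), g ∈ derivedSeries G d → ∀ y : Y, g • y ≠ y →
      fj (d + 1) ≤ Nat.card Y

section Core

variable {V : Type} [AddCommGroup V] {A : Type} [Group A] [DistribMulAction A V]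

/-- The additive subgroup generated by the `A`-orbit of `v`. -/
def spn (A : Type) [Group A] {V : Type} [AddCommGroup V] [DistribMulAction A V] (v : V) :
    AddSubgroup V :=
  AddSubgroup.closure (MulAction.orbit A v)

theorem self_mem_spn (v : V) : v ∈ spn A v :=
  AddSubgroup.subset_closure (MulAction.mem_orbit_self v)

theorem smul_mem_spn {v w : V} (hw : w ∈ spn A v) (a : A) : a • w ∈ spn A v := by
  unfold spn at hw ⊢
  induction hw using AddSubgroup.closure_induction with
  | mem x hx =>
    apply AddSubgroup.subset_closure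
    obtain ⟨b, rfl⟩ := hx
    exact ⟨a * b, by simp [mul_smul]⟩
  | zero => simp
  | add x y _ _ hx hy => rw [smul_add]; exact add_mem hx hy
  | neg x _ hx => rw [smul_neg]; exact neg_mem hx

theorem spn_le {v w : V} (hw : w ∈ spn A v) : spn A w ≤ spn A v := by
  rw [spn, AddSubgroup.closure_le]
  rintro _ ⟨a, rfl⟩
  exact smul_mem_spn hw a

variable [Finite V]

/-- In the semiregular case two vectors outside each other's span have the same multiplier. -/
theorem mult_eq
    (hsemi : ∀ (a : A) (v : V), v ≠ 0 → a • v = v → a = 1)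
    {v w : V} (hv : v ≠ 0) (hnot : w ∉ spn A v) {a a' a'' : A}
    (h : a'' • (v + w) = a • v + a' • w) : a = a' := by
  by_cases h1 : a' = a''
  · subst h1
    have h2 : a' • v = a • v := by
      rw [smul_add] at h
      exact add_right_cancel h
    have h3 : (a⁻¹ * a') • v = v := by
      rw [mul_smul, h2, inv_smul_smul]
    have h4 := hsemi _ _ hv h3
    exact (inv_mul_eq_one.mp h4)
  · exfalso
    -- the map `x ↦ a' x - a'' x` is injective
    let r : V →+ V := (DistribSMul.toAddMonoidHom V a') - (DistribSMul.toAddMonoidHom V a'')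
    have hr : ∀ x, r x = a' • x - a'' • x := fun x => rfl
    have hinj : Function.Injective r := by
      rw [injective_iff_map_eq_zero]
      intro x hx
      by_contra hx0
      rw [hr, sub_eq_zero] at hx
      have h3 : (a''⁻¹ * a') • x = x := by
        rw [mul_smul, hx, inv_smul_smul]
      have h4 := hsemi _ _ hx0 h3
      exact h1 (inv_mul_eq_one.mp h4).symm
    have hmem : ∀ x ∈ spn A v, r x ∈ spn A v := fun x hx => by
      rw [hr]; exact sub_mem (smul_mem_spn hx _) (smul_mem_spn hx _)
    let r' : spn A v → spn A v := fun x => ⟨r x, hmem x x.2⟩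
    have hinj' : Function.Injective r' := by
      intro x y hxy
      apply Subtype.ext
      apply hinj
      exact congrArg Subtype.val hxy
    have hsurj' : Function.Surjective r' := Finite.surjective_of_injective hinj'
    have hrw : r w ∈ spn A v := by
      have : r w = a'' • v - a • v := by
        rw [hr, sub_eq_sub_iff_add_eq_add, add_comm, ← h, smul_add]
      rw [this]
      exact sub_mem (smul_mem_spn (self_mem_spn v) _) (smul_mem_spn (self_mem_spn v) _)
    obtain ⟨x, hx⟩ := hsurj' ⟨r w, hrw⟩
    have : (x : V) = w := hinj (congrArg Subtype.val hx)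
    exact hnot (this ▸ x.2)

/-- If `V` is not `A`-irreducible then a map preserving all `A`-orbits is a constant. -/
theorem const_of_orbits
    (hsemi : ∀ (a : A) (v : V), v ≠ 0 → a • v = v → a = 1)
    {v0 : V} (hv0 : v0 ≠ 0) (hspn : spn A v0 ≠ ⊤)
    (f : V →+ V) (hf : ∀ v, v ≠ 0 → ∃ a : A, f v = a • v) :
    ∃ c : A, ∀ v, f v = c • v := by
  have key : ∀ v w : V, v ≠ 0 → w ≠ 0 → w ∉ spn A v → ∀ a a' : A, f v = a • v → f w = a' • w →
      a = a' := by
    intro v w hv hw hnot a a' ha ha'
    have hvw : v + w ≠ 0 := by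
      intro h
      apply hnot
      have : w = -v := by rw [eq_neg_iff_add_eq_zero, add_comm]; exact h
      rw [this]
      exact neg_mem (self_mem_spn v)
    obtain ⟨a'', ha''⟩ := hf _ hvw
    apply mult_eq hsemi hv hnot (a'' := a'')
    rw [← ha'', map_add, ha, ha']
  obtain ⟨w0, hw0⟩ : ∃ w0, w0 ∉ spn A v0 := by
    by_contra h
    push Not at h
    exact hspn ((AddSubgroup.eq_top_iff' _).mpr h)
  have hw00 : w0 ≠ 0 := by
    rintro rfl; exact hw0 (zero_mem _)
  obtain ⟨c, hc⟩ := hf v0 hv0
  obtain ⟨c', hc'⟩ := hf w0 hw00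
  have hcc : c = c' := key v0 w0 hv0 hw00 hw0 c c' hc hc'
  refine ⟨c, fun v => ?_⟩
  by_cases hv : v = 0
  · subst hv; simp
  obtain ⟨a, ha⟩ := hf v hv
  rw [ha]
  congr 1
  by_cases hmem : v ∈ spn A v0
  · have h1 : w0 ∉ spn A v := fun h => hw0 (spn_le hmem h)
    rw [key v w0 hv hw00 h1 a c' ha hc', hcc]
  · exact (key v0 v hv0 hv hmem c a hc ha).symm

end Core

end Pool.Agent.Work.MP_403fb3_al_helper9
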