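import Pool.Agent.Work.MP_403fb3_al_helper9.Lin

/-!
# The reducible semiregular case: counting `A`-orbits
-/

namespace Pool.Agent.Work.MP_403fb3_al_helper9

open Subgroup

section

variable {V : Type} [AddCommGroup V] {A : Type} [Group A] [DistribMulAction A V]
  {H : Type} [Group H] [DistribMulAction H V]

/-- The set of `A`-orbits of nonzero vectors. -/
abbrev OrbSet (A : Type) [Group A] (V : Type) [AddCommGroup V] [DistribMulAction A V] : Type :=
  {q : MulAction.orbitRel.Quotient A V // q ≠ Quotient.mk'' 0}

theorem orb_mk_eq {v w : V} :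
    (Quotient.mk'' v : MulAction.orbitRel.Quotient A V) = Quotient.mk'' w ↔ ∃ a : A, a • w = v := by
  rw [Quotient.eq'', MulAction.orbitRel_apply]
  rfl

theorem orb_mk_eq_zero {v : V} :
    (Quotient.mk'' v : MulAction.orbitRel.Quotient A V) = Quotient.mk'' 0 ↔ v = 0 := by
  rw [orb_mk_eq]
  constructor
  · rintro ⟨a, rfl⟩; simp
  · rintro rfl; exact ⟨1, by simp⟩

/-- The action of `H` on the quotient by `A`. -/
def quotSmul (hconj : ∀ (h : H) (a : A), ∃ a' : A, ∀ v : V, h • (a • v) = a' • (h • v)) (h : H) :
    MulAction.orbitRel.Quotient A V → MulAction.orbitRel.Quotient A V :=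
  Quotient.map' (fun v => h • v) (by
    intro v w hvw
    rw [MulAction.orbitRel_apply] at hvw ⊢
    obtain ⟨a, rfl⟩ := hvw
    obtain ⟨a', ha'⟩ := hconj h a
    exact ⟨a', (ha' w).symm⟩)

/-- The action of `H` on the set of orbits of nonzero vectors. -/
@[reducible] def orbAction
    (hconj : ∀ (h : H) (a : A), ∃ a' : A, ∀ v : V, h • (a • v) = a' • (h • v)) :
    MulAction H (OrbSet A V) where
  smul h q := ⟨quotSmul hconj h q.1, by
    obtain ⟨q, hq⟩ := q
    induction q using Quotient.inductionOn' with
    | h v =>
      intro h1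
      apply hq
      rw [orb_mk_eq_zero]
      have h2 : (Quotient.mk'' (h • v) : MulAction.orbitRel.Quotient A V) = Quotient.mk'' 0 := h1
      rw [orb_mk_eq_zero] at h2
      have := congrArg (fun x => h⁻¹ • x) h2
      simpa using this⟩
  one_smul q := by
    obtain ⟨q, hq⟩ := q
    induction q using Quotient.inductionOn' with
    | h v =>
      apply Subtype.ext
      change (Quotient.mk'' ((1 : H) • v) : MulAction.orbitRel.Quotient A V) = _
      rw [one_smul]
  mul_smul g h q := by
    obtain ⟨q, hq⟩ := q
    induction q using Quotient.inductionOn' with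
    | h v =>
      apply Subtype.ext
      change (Quotient.mk'' ((g * h) • v) : MulAction.orbitRel.Quotient A V) =
        Quotient.mk'' (g • (h • v))
      rw [mul_smul]

variable [Finite V]

/-- There are at most `(|V| - 1) / |A|` orbits of nonzero vectors. -/
theorem card_orbSet [Finite A] (hsemi : ∀ (a : A) (v : V), v ≠ 0 → a • v = v → a = 1) :
    Nat.card (OrbSet A V) * Nat.card A + 1 ≤ Nat.card V := by
  classical
  have hout : ∀ q : OrbSet A V, q.1.out ≠ (0 : V) := by
    intro q h0
    apply q.2
    rw [← Quotient.out_eq' q.1]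
    have : (Quotient.mk'' (q.1.out) : MulAction.orbitRel.Quotient A V) = Quotient.mk'' 0 := by
      rw [orb_mk_eq_zero]; exact h0
    exact this
  let φ : Option (OrbSet A V × A) → V := fun o => match o with
    | none => 0
    | some (q, a) => a • (q.1.out : V)
  have hφ : Function.Injective φ := by
    intro o o' hoo
    match o, o' with
    | none, none => rfl
    | none, some (q, a) =>
      exfalso
      have h1 : (0 : V) = a • (q.1.out : V) := hoo
      have := congrArg (fun x => a⁻¹ • x) h1
      simp only [smul_zero, inv_smul_smul] at this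
      exact hout q this.symm
    | some (q, a), none =>
      exfalso
      have h1 : a • (q.1.out : V) = 0 := hoo
      have := congrArg (fun x => a⁻¹ • x) h1
      simp only [smul_zero, inv_smul_smul] at this
      exact hout q this
    | some (q, a), some (q', a') =>
      have h1 : a • (q.1.out : V) = a' • (q'.1.out : V) := hoo
      have h2 : q = q' := by
        apply Subtype.ext
        rw [← Quotient.out_eq' q.1, ← Quotient.out_eq' q'.1]
        have : (Quotient.mk'' (q.1.out) : MulAction.orbitRel.Quotient A V) =
            Quotient.mk'' (q'.1.out) := by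
          rw [orb_mk_eq]
          exact ⟨a⁻¹ * a', by rw [mul_smul, ← h1, inv_smul_smul]⟩
        exact this
      subst h2
      have h3 : (a'⁻¹ * a) • (q.1.out : V) = q.1.out := by
        rw [mul_smul, h1, inv_smul_smul]
      have h4 := hsemi _ _ (hout q) h3
      rw [inv_mul_eq_one] at h4
      rw [h4]
  have hc := Nat.card_le_card_of_injective φ hφ
  rw [Finite.card_option, Nat.card_prod] at hc
  exact hc

variable [FaithfulSMul H V]

/-- Reducible semiregular case. -/
theorem orbit_bound [Finite A] (hcomm : ∀ a b : A, a * b = b * a)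
    (hconj : ∀ (h : H) (a : A), ∃ a' : A, ∀ v : V, h • (a • v) = a' • (h • v))
    (hsemi : ∀ (a : A) (v : V), v ≠ 0 → a • v = v → a = 1)
    (hsolv : Group.IsSolvable H) (P : PBound (Nat.card V)) {j : ℕ} (hj : derivedSeries H (j + 1) ≠ ⊥)
    {v0 : V} (hv0 : v0 ≠ 0) (hspn : spn A v0 ≠ ⊤) :
    fj (j + 1) * Nat.card A + 1 ≤ Nat.card V := by
  let _ := orbAction hconj
  -- some element of `derivedSeries H j` moves an orbit
  obtain ⟨g, hg, q, hq⟩ : ∃ g ∈ derivedSeries H j, ∃ q : OrbSet A V, g • q ≠ q := by
    by_contra hcon
    push Not at hcon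
    apply hj
    have hconst : ∀ g ∈ derivedSeries H j, ∃ c : A, ∀ v : V, g • v = c • v := by
      intro g hg
      have := const_of_orbits (A := A) hsemi hv0 hspn (DistribSMul.toAddMonoidHom V g) (by
        intro v hv
        have h1 := congrArg Subtype.val (hcon g hg ⟨Quotient.mk'' v, by
          rw [Ne, orb_mk_eq_zero]; exact hv⟩)
        have h2 : (Quotient.mk'' (g • v) : MulAction.orbitRel.Quotient A V) = Quotient.mk'' v := h1
        rw [orb_mk_eq] at h2
        obtain ⟨a, ha⟩ := h2
        exact ⟨a, ha.symm⟩)
      exact this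
    rw [derivedSeries_succ, Subgroup.commutator_eq_bot_iff_le_centralizer]
    intro g hg
    rw [Subgroup.mem_centralizer_iff]
    intro g' hg'
    obtain ⟨c, hc⟩ := hconst g hg
    obtain ⟨c', hc'⟩ := hconst g' hg'
    apply FaithfulSMul.eq_of_smul_eq_smul (α := V)
    intro v
    rw [mul_smul, mul_smul, hc v, hc' (c • v), hc' v, hc (c' • v), ← mul_smul, ← mul_smul, hcomm]
  have h1 := card_orbSet (V := V) (A := A) hsemi
  have hApos : 0 < Nat.card A := Nat.card_pos
  have hlt : Nat.card (OrbSet A V) < Nat.card V := by
    have : Nat.card (OrbSet A V) ≤ Nat.card (OrbSet A V) * Nat.card A :=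
      Nat.le_mul_of_pos_right _ hApos
    omega
  have h2 := P (OrbSet A V) H hsolv hlt j g hg q hq
  have h3 := Nat.mul_le_mul_right (Nat.card A) h2
  omega

end

end Pool.Agent.Work.MP_403fb3_al_helper9
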