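import Pool.Agent.Work.MP_403fb3_al_helper9.Lin2

/-!
# The non-semiregular case: vectors with maximal stabiliser
-/

namespace Pool.Agent.Work.MP_403fb3_al_helper9

open Subgroup

section

variable {V : Type} [AddCommGroup V] {A : Type} [Group A] [DistribMulAction A V]
  {H : Type} [Group H] [DistribMulAction H V]

/-- The stabiliser of `v` in `A` as a set. -/
def St (A : Type) [Group A] {V : Type} [AddCommGroup V] [DistribMulAction A V] (v : V) : Set A :=
  {a | a • v = v}

/-- Nonzero vectors whose stabiliser is maximal among the stabilisers of nonzero vectors. -/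
def MaxSt (A : Type) [Group A] (V : Type) [AddCommGroup V] [DistribMulAction A V] : Set V :=
  {v | v ≠ 0 ∧ ∀ w : V, w ≠ 0 → St A v ⊆ St A w → St A w ⊆ St A v}

theorem exists_maxSt [Finite A] {w : V} (hw : w ≠ 0) : ∃ y ∈ MaxSt A V, St A w ⊆ St A y := by
  classical
  obtain ⟨s, hs, hmax⟩ := Set.Finite.exists_le_maximal (s := {s : Set A | ∃ v : V, v ≠ 0 ∧ St A v = s})
    (Set.toFinite _) (a := St A w) ⟨w, hw, rfl⟩
  obtain ⟨⟨y, hy0, rfl⟩, hm⟩ := hmax
  refine ⟨y, ⟨hy0, ?_⟩, hs⟩
  intro x hx0 hsub
  exact hm ⟨x, hx0, rfl⟩ hsub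

theorem zero_of_two {y u x : V} (hy : y ∈ MaxSt A V) (hu : u ∈ MaxSt A V) (hne : St A y ≠ St A u)
    (h1 : St A y ⊆ St A x) (h2 : St A u ⊆ St A x) : x = 0 := by
  by_contra hx
  exact hne (((h1.antisymm (hy.2 x hx h1))).trans ((h2.antisymm (hu.2 x hx h2))).symm)

theorem add_notMem (hcomm : ∀ a b : A, a * b = b * a) {y u : V} (hy : y ∈ MaxSt A V)
    (hu : u ∈ MaxSt A V) (hne : St A y ≠ St A u) : y + u ≠ 0 ∧ y + u ∉ MaxSt A V := by
  have h0 : y + u ≠ 0 := by
    intro h
    apply hne
    have : y = -u := eq_neg_of_add_eq_zero_left h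
    rw [this]
    ext a
    simp only [St, Set.mem_ofPred_eq, smul_neg, neg_inj]
  refine ⟨h0, fun hmem => ?_⟩
  have hsub : ∀ a ∈ St A (y + u), a ∈ St A y ∧ a ∈ St A u := by
    intro a ha
    have ha' : a • (y + u) = y + u := ha
    rw [smul_add] at ha'
    have hx : a • y - y = -(a • u - u) := by
      rw [neg_sub, sub_eq_sub_iff_add_eq_add, ha', add_comm]
    have hzero : a • y - y = 0 := by
      apply zero_of_two hy hu hne
      · intro b hb
        have hb' : b • y = y := hb
        change b • (a • y - y) = a • y - y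
        rw [smul_sub, ← mul_smul, hcomm, mul_smul, hb']
      · rw [hx]
        intro b hb
        have hb' : b • u = u := hb
        change b • (-(a • u - u)) = -(a • u - u)
        rw [smul_neg, smul_sub, ← mul_smul, hcomm, mul_smul, hb']
    refine ⟨sub_eq_zero.mp hzero, ?_⟩
    rw [hzero] at hx
    exact sub_eq_zero.mp (neg_eq_zero.mp hx.symm)
  have h1 : St A y ⊆ St A (y + u) := hmem.2 y hy.1 (fun a ha => (hsub a ha).1)
  have h2 : St A y ⊆ St A u := fun a ha => (hsub a (h1 ha)).2
  exact hne (h2.antisymm (hy.2 u hu.1 h2))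

/-- The vectors with maximal stabiliser fill at most half of the space. -/
theorem card_maxSt [Finite V] (hcomm : ∀ a b : A, a * b = b * a) {u1 u2 : V}
    (h1 : u1 ∈ MaxSt A V) (h2 : u2 ∈ MaxSt A V) (hne : St A u1 ≠ St A u2) :
    2 * Nat.card (MaxSt A V) ≤ Nat.card V := by
  classical
  let φ : V → V := fun y => if y = u2 then 0 else if St A y = St A u1 then y + u2 else y + u1
  have hφ1 : ∀ y ∈ MaxSt A V, φ y ∉ MaxSt A V := by
    intro y hy
    simp only [φ]
    split_ifs with ha hb
    · intro h; exact h.1 rfl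
    · exact (add_notMem hcomm hy h2 (hb ▸ hne)).2
    · exact (add_notMem hcomm hy h1 hb).2
  have hφne : ∀ y ∈ MaxSt A V, y ≠ u2 → φ y ≠ 0 := by
    intro y hy hy2
    simp only [φ, if_neg hy2]
    split_ifs with hb
    · exact (add_notMem hcomm hy h2 (hb ▸ hne)).1
    · exact (add_notMem hcomm hy h1 hb).1
  have cross : ∀ y ∈ MaxSt A V, ∀ y' ∈ MaxSt A V, y' ≠ u2 → St A y = St A u1 →
      y + u2 ≠ y' + u1 := by
    intro y hy y' hy' hy'2 hb heq
    have hx : y' = (y - u1) + u2 := by
      have : y' = (y + u2) - u1 := by rw [heq]; abel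
      rw [this]; abel
    by_cases hx0 : y - u1 = 0
    · rw [hx0, zero_add] at hx
      exact hy'2 hx
    · have hs : St A u1 ⊆ St A (y - u1) := by
        intro a ha
        have ha1 : a • u1 = u1 := ha
        have ha2 : a • y = y := by
          have : a ∈ St A y := hb ▸ ha
          exact this
        change a • (y - u1) = y - u1
        rw [smul_sub, ha1, ha2]
      have hs' : St A (y - u1) = St A u1 := (h1.2 _ hx0 hs).antisymm hs
      have hmem : y - u1 ∈ MaxSt A V := by
        refine ⟨hx0, fun w hw hsub => ?_⟩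
        rw [hs'] at hsub ⊢
        exact h1.2 w hw hsub
      have := (add_notMem hcomm hmem h2 (hs' ▸ hne)).2
      rw [← hx] at this
      exact this hy'
  have hφ2 : Set.InjOn φ (MaxSt A V) := by
    intro y hy y' hy' heq
    by_cases hy2 : y = u2
    · by_cases hy'2 : y' = u2
      · rw [hy2, hy'2]
      · exfalso
        apply hφne y' hy' hy'2
        rw [← heq]
        simp [φ, hy2]
    · by_cases hy'2 : y' = u2
      · exfalso
        apply hφne y hy hy2
        rw [heq]
        simp [φ, hy'2]
      · simp only [φ, if_neg hy2, if_neg hy'2] at heq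
        by_cases hb : St A y = St A u1
        · by_cases hb' : St A y' = St A u1
          · rw [if_pos hb, if_pos hb'] at heq
            exact add_right_cancel heq
          · rw [if_pos hb, if_neg hb'] at heq
            exact absurd heq (cross y hy y' hy' hy'2 hb)
        · by_cases hb' : St A y' = St A u1
          · rw [if_neg hb, if_pos hb'] at heq
            exact absurd heq.symm (cross y' hy' y hy hy2 hb')
          · rw [if_neg hb, if_neg hb'] at heq
            exact add_right_cancel heq
  have hcard : (MaxSt A V).ncard ≤ (MaxSt A V)ᶜ.ncard := by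
    apply Set.ncard_le_ncard_of_injOn φ (fun y hy => hφ1 y hy) hφ2 (Set.toFinite _)
  have := Set.ncard_add_ncard_compl (MaxSt A V)
  rw [Nat.card_coe_set_eq]
  omega

variable [FaithfulSMul H V] [Finite V]

/-- Non-semiregular case. -/
theorem maxSt_bound [Finite A] [FaithfulSMul A V] (hcomm : ∀ a b : A, a * b = b * a)
    (hconj : ∀ (h : H) (a : A), ∃ a' : A, ∀ v : V, h • (a • v) = a' • (h • v))
    {a0 : A} (ha0 : a0 ≠ 1) {w0 : V} (hw0 : w0 ≠ 0) (hfix : a0 • w0 = w0)
    (hirr : ∀ W : AddSubgroup V, (∀ (h : H), ∀ w ∈ W, h • w ∈ W) → W = ⊥ ∨ W = ⊤)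
    (hsolv : Group.IsSolvable H) (P : PBound (Nat.card V)) {j : ℕ} (hj : derivedSeries H j ≠ ⊥) :
    2 * fj (j + 1) ≤ Nat.card V := by
  classical
  -- invariance
  have hinv : ∀ h : H, ∀ v ∈ MaxSt A V, h • v ∈ MaxSt A V := by
    have hst : ∀ (h : H) (v w : V), St A v ⊆ St A w → St A (h • v) ⊆ St A (h • w) := by
      intro h v w hvw a ha
      obtain ⟨a', ha'⟩ := hconj h⁻¹ a
      have hav : a • (h • v) = h • v := ha
      have h1 : a' • v = v := by
        have := ha' (h • v)
        rw [hav, inv_smul_smul] at this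
        exact this.symm
      have h2 : a' • w = w := hvw h1
      have h3 := ha' (h • w)
      rw [inv_smul_smul, h2] at h3
      change a • (h • w) = h • w
      rw [inv_smul_eq_iff] at h3
      exact h3
    intro h v hv
    refine ⟨fun h0 => hv.1 ((smul_eq_zero_iff_eq h).mp h0), fun w hw hsub => ?_⟩
    have h1 := hst h⁻¹ _ _ hsub
    rw [inv_smul_smul] at h1
    have hw' : h⁻¹ • w ≠ 0 := fun h0 => hw ((smul_eq_zero_iff_eq h⁻¹).mp h0)
    have h2 := hv.2 _ hw' h1
    have h3 := hst h _ _ h2
    rwa [smul_inv_smul] at h3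
  have hcl : AddSubgroup.closure (MaxSt A V) = ⊤ := by
    obtain ⟨y, hy, -⟩ := exists_maxSt (A := A) hw0
    rcases hirr (AddSubgroup.closure (MaxSt A V)) (by
      intro h w hw
      induction hw using AddSubgroup.closure_induction with
      | mem x hx => exact AddSubgroup.subset_closure (hinv h x hx)
      | zero => simp
      | add x y _ _ hx hy => rw [smul_add]; exact add_mem hx hy
      | neg x _ hx => rw [smul_neg]; exact neg_mem hx) with h | h
    · exfalso
      have : y ∈ AddSubgroup.closure (MaxSt A V) := AddSubgroup.subset_closure hy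
      rw [h, AddSubgroup.mem_bot] at this
      exact hy.1 this
    · exact h
  -- a map fixing all of `MaxSt` is trivial
  have hfaith : ∀ (f : V →+ V), (∀ y ∈ MaxSt A V, f y = y) → ∀ v, f v = v := by
    intro f hf v
    have hv : v ∈ AddSubgroup.closure (MaxSt A V) := hcl ▸ AddSubgroup.mem_top v
    induction hv using AddSubgroup.closure_induction with
    | mem x hx => exact hf x hx
    | zero => simp
    | add x y _ _ hx hy => rw [map_add, hx, hy]
    | neg x _ hx => rw [map_neg, hx]
  -- two different maximal stabilisers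
  obtain ⟨u1, h1, u2, h2, hne⟩ : ∃ u1 ∈ MaxSt A V, ∃ u2 ∈ MaxSt A V, St A u1 ≠ St A u2 := by
    by_contra hcon
    push Not at hcon
    obtain ⟨y, hy, hsub⟩ := exists_maxSt (A := A) hw0
    have ha : a0 ∈ St A y := hsub hfix
    apply ha0
    apply FaithfulSMul.eq_of_smul_eq_smul (α := V)
    intro v
    rw [one_smul]
    apply hfaith (DistribSMul.toAddMonoidHom V a0)
    intro z hz
    have : a0 ∈ St A z := by rw [← hcon y hy z hz]; exact ha
    exact this
  have hcard := card_maxSt hcomm h1 h2 hne
  have hpos : 0 < Nat.card (MaxSt A V) := by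
    have : Nonempty (MaxSt A V) := ⟨⟨u1, h1⟩⟩
    exact Nat.card_pos
  -- the action of `H` on `MaxSt`
  let _ : MulAction H (MaxSt A V) :=
    { smul := fun h y => ⟨h • (y : V), hinv h y y.2⟩
      one_smul := fun y => Subtype.ext (one_smul H (y : V))
      mul_smul := fun g h y => Subtype.ext (mul_smul g h (y : V)) }
  obtain ⟨g, hg, hg1⟩ := (Subgroup.ne_bot_iff_exists_ne_one).mp hj |>.elim
    (fun g hg => (⟨g.1, g.2, fun h => hg (Subtype.ext h)⟩ :
      ∃ g : H, g ∈ derivedSeries H j ∧ g ≠ 1))
  obtain ⟨y, hy⟩ : ∃ y : MaxSt A V, g • y ≠ y := by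
    by_contra hcon
    push Not at hcon
    apply hg1
    apply FaithfulSMul.eq_of_smul_eq_smul (α := V)
    intro v
    rw [one_smul]
    apply hfaith (DistribSMul.toAddMonoidHom V g)
    intro z hz
    exact congrArg Subtype.val (hcon ⟨z, hz⟩)
  have h5 := P (MaxSt A V) H hsolv (by omega) j g hg y hy
  omega

end

end Pool.Agent.Work.MP_403fb3_al_helper9
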