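import Pool.Agent.Work.MP_403fb3_al_helper9.Lin3

/-!
# The `A`-irreducible case, and the linear bound
-/

namespace Pool.Agent.Work.MP_403fb3_al_helper9

open Subgroup

section

variable {V : Type} [AddCommGroup V] {A : Type} [Group A] [DistribMulAction A V]

theorem eq_of_spn {v0 : V} (htop : spn A v0 = ⊤) (f g : V →+ V)
    (hf : ∀ (a : A) v, f (a • v) = a • f v) (hg : ∀ (a : A) v, g (a • v) = a • g v)
    (h0 : f v0 = g v0) : ∀ v, f v = g v := by
  intro v
  have hv : v ∈ spn A v0 := htop ▸ AddSubgroup.mem_top v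
  unfold spn at hv
  induction hv using AddSubgroup.closure_induction with
  | mem x hx =>
    obtain ⟨a, rfl⟩ := hx
    change f (a • v0) = g (a • v0)
    rw [hf, hg, h0]
  | zero => simp
  | add x y _ _ hx hy => rw [map_add, map_add, hx, hy]
  | neg x _ hx => rw [map_neg, map_neg, hx]

/-- Two additive maps commuting with an abelian irreducible group commute. -/
theorem central_comm (hcomm : ∀ a b : A, a * b = b * a) {v0 : V} (htop : spn A v0 = ⊤)
    (f g : V →+ V)
    (hf : ∀ (a : A) v, f (a • v) = a • f v) (hg : ∀ (a : A) v, g (a • v) = a • g v) (v : V) :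
    f (g v) = g (f v) := by
  have key : ∀ x ∈ spn A v0, ∃ r : V →+ V, r v0 = x ∧ (∀ (a : A) v, r (a • v) = a • r v) ∧
      ∀ k : V →+ V, (∀ (a : A) v, k (a • v) = a • k v) → ∀ v, k (r v) = r (k v) := by
    intro x hx
    unfold spn at hx
    induction hx using AddSubgroup.closure_induction with
    | mem x hx =>
      obtain ⟨b, rfl⟩ := hx
      refine ⟨DistribSMul.toAddMonoidHom V b, rfl, fun a v => ?_, fun k hk v => hk b v⟩
      change b • (a • v) = a • (b • v)
      rw [← mul_smul, ← mul_smul, hcomm]
    | zero => exact ⟨0, rfl, fun a v => by simp, fun k _ v => by simp⟩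
    | add x y _ _ hx hy =>
      obtain ⟨r, h1, h2, h3⟩ := hx
      obtain ⟨s, k1, k2, k3⟩ := hy
      refine ⟨r + s, by simp [h1, k1], fun a v => by simp [h2, k2], fun k hk v => ?_⟩
      simp only [AddMonoidHom.add_apply, map_add, h3 k hk, k3 k hk]
    | neg x _ hx =>
      obtain ⟨r, h1, h2, h3⟩ := hx
      refine ⟨-r, by simp [h1], fun a v => by simp [h2], fun k hk v => ?_⟩
      simp only [AddMonoidHom.neg_apply, map_neg, h3 k hk]
  obtain ⟨r, h1, h2, h3⟩ := key (f v0) (htop ▸ AddSubgroup.mem_top _)
  have hfr : ∀ v, f v = r v := eq_of_spn htop f r hf h2 h1.symm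
  rw [hfr, hfr, h3 g hg]

theorem irr_cyclic [Finite A] [FaithfulSMul A V] [Nontrivial V]
    (hcomm : ∀ a b : A, a * b = b * a) (htop : ∀ v : V, v ≠ 0 → spn A v = ⊤) : IsCyclic A := by
  classical
  obtain ⟨v0, hv0⟩ := exists_ne (0 : V)
  let K : Subring (AddMonoid.End V) :=
    Subring.centralizer (Set.range (DistribMulAction.toAddMonoidEnd A V))
  have hK : ∀ f : K, ∀ (a : A) v, (f : AddMonoid.End V) (a • v) = a • (f : AddMonoid.End V) v := by
    intro f a v
    have h1 := Subring.mem_centralizer_iff.mp f.2 _ ⟨a, rfl⟩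
    exact (DFunLike.congr_fun h1 v).symm
  have hKc : ∀ f g : K, f * g = g * f := by
    intro f g
    apply Subtype.ext
    apply DFunLike.ext
    intro v
    exact central_comm hcomm (htop v0 hv0) f.1 g.1 (hK f) (hK g) v
  let _ : CommRing K := { (inferInstance : Ring K) with mul_comm := hKc }
  have : Nontrivial K := by
    refine ⟨⟨0, 1, fun h => hv0 ?_⟩⟩
    have := DFunLike.congr_fun (congrArg Subtype.val h) v0
    exact this.symm
  have : NoZeroDivisors K := by
    refine ⟨fun {x y} hxy => ?_⟩
    by_contra hne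
    push Not at hne
    obtain ⟨hx, hy⟩ := hne
    apply hy
    have hxy' : ∀ v, (x : AddMonoid.End V) ((y : AddMonoid.End V) v) = 0 := by
      intro v
      exact DFunLike.congr_fun (congrArg Subtype.val hxy) v
    obtain ⟨v, hv⟩ : ∃ v, (x : AddMonoid.End V) v ≠ 0 := by
      by_contra hcon
      push Not at hcon
      apply hx
      apply Subtype.ext
      apply DFunLike.ext
      exact hcon
    apply Subtype.ext
    apply DFunLike.ext
    have hyx : ∀ w, (y : AddMonoid.End V) ((x : AddMonoid.End V) w) = 0 := by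
      intro w
      have h1 : (y : AddMonoid.End V) ((x : AddMonoid.End V) w) =
          (x : AddMonoid.End V) ((y : AddMonoid.End V) w) :=
        central_comm hcomm (htop v0 hv0) y.1 x.1 (hK y) (hK x) w
      rw [h1, hxy']
    have hxv : (x : AddMonoid.End V) v ≠ 0 := hv
    exact eq_of_spn (htop _ hxv) y.1 0 (hK y) (by intro a v; simp) (hyx v)
  have : IsDomain K := NoZeroDivisors.to_isDomain K
  let F : A →* K :=
    { toFun := fun a => ⟨DistribMulAction.toAddMonoidEnd A V a, by
        rw [Subring.mem_centralizer_iff]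
        rintro _ ⟨b, rfl⟩
        rw [← map_mul, ← map_mul, hcomm]⟩
      map_one' := Subtype.ext (map_one _)
      map_mul' := fun a b => Subtype.ext (map_mul _ a b) }
  apply isCyclic_of_injective_ringHom F
  intro a b hab
  apply FaithfulSMul.eq_of_smul_eq_smul (α := V)
  intro v
  exact DFunLike.congr_fun (congrArg Subtype.val hab) v

end

section

variable {V : Type} [AddCommGroup V] {H : Type} [Group H] [DistribMulAction H V]
  [FaithfulSMul H V]

/-- `A` an abelian group of automorphisms commuting with `H`, acting irreducibly: `H` abelian. -/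
theorem derived_one_of_central {A : Type} [Group A] [DistribMulAction A V]
    (hcomm : ∀ a b : A, a * b = b * a) (hcen : ∀ (h : H) (a : A) (v : V), h • a • v = a • h • v)
    {v0 : V} (htop : spn A v0 = ⊤) : derivedSeries H 1 = ⊥ := by
  rw [derivedSeries_succ, Subgroup.commutator_eq_bot_iff_le_centralizer]
  intro g _
  rw [Subgroup.mem_centralizer_iff]
  intro g' _
  apply FaithfulSMul.eq_of_smul_eq_smul (α := V)
  intro v
  rw [mul_smul, mul_smul]
  exact central_comm hcomm htop (DistribSMul.toAddMonoidHom V g') (DistribSMul.toAddMonoidHom V g)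
    (fun a v => hcen g' a v) (fun a v => hcen g a v) v

/-- An abelian normal subgroup acting irreducibly forces `H` to be metabelian. -/
theorem derived_two_of_irr [Nontrivial V] (A : Subgroup H) [A.Normal] [Finite A]
    (hcomm : ∀ a b : A, a * b = b * a) (htop : ∀ v : V, v ≠ 0 → spn A v = ⊤) :
    derivedSeries H 2 = ⊥ := by
  obtain ⟨v0, hv0⟩ := exists_ne (0 : V)
  have : IsCyclic A := irr_cyclic hcomm htop
  have hker : ∀ g ∈ derivedSeries H 1, ∀ a : A, g * a = a * g := by
    intro g hg a
    have h1 : (MulAut.conjNormal g : MulAut A) = 1 := by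
      have h2 : (derivedSeries H 1).map (MulAut.conjNormal (H := A)) ≤
          derivedSeries (MulAut A) 1 := map_derivedSeries_le_derivedSeries _ 1
      have h3 : derivedSeries (MulAut A) 1 = ⊥ := by
        rw [derivedSeries_succ, Subgroup.commutator_eq_bot_iff_le_centralizer]
        intro x _
        rw [Subgroup.mem_centralizer_iff]
        intro y _
        apply (IsCyclic.mulAutMulEquiv A).injective
        rw [map_mul, map_mul, mul_comm]
      have h4 : (MulAut.conjNormal g : MulAut A) ∈ derivedSeries (MulAut A) 1 :=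
        h2 (Subgroup.mem_map_of_mem _ hg)
      rw [h3] at h4
      exact Subgroup.mem_bot.mp h4
    have h5 := congrArg Subtype.val (DFunLike.congr_fun h1 a)
    rw [MulAut.conjNormal_apply] at h5
    have h6 : g * (a : H) * g⁻¹ = a := h5
    exact mul_inv_eq_iff_eq_mul.mp h6
  have h2 : derivedSeries H 2 = ⁅derivedSeries H 1, derivedSeries H 1⁆ := rfl
  rw [h2, Subgroup.commutator_eq_bot_iff_le_centralizer]
  intro g hg
  rw [Subgroup.mem_centralizer_iff]
  intro g' hg'
  apply FaithfulSMul.eq_of_smul_eq_smul (α := V)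
  intro v
  rw [mul_smul, mul_smul]
  have hA : ∀ g ∈ derivedSeries H 1, ∀ (a : A) (v : V), g • (a • v) = a • (g • v) := by
    intro g hg a v
    change g • ((a : H) • v) = (a : H) • (g • v)
    rw [← mul_smul, hker g hg a, mul_smul]
  exact central_comm hcomm (htop v0 hv0) (DistribSMul.toAddMonoidHom V g')
    (DistribSMul.toAddMonoidHom V g) (fun a v => hA g' hg' a v) (fun a v => hA g hg a v) v

end

end Pool.Agent.Work.MP_403fb3_al_helper9
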