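import Pool.Agent.Work.MP_403fb3_al_helper9.Lin4

/-!
# The linear bound
-/

namespace Pool.Agent.Work.MP_403fb3_al_helper9

open Subgroup

theorem finite_of_faithful (G X : Type) [Group G] [MulAction G X] [FaithfulSMul G X] [Finite X] :
    Finite G :=
  Finite.of_injective (fun (g : G) (x : X) => g • x) (fun _ _ hgh =>
    FaithfulSMul.eq_of_smul_eq_smul (α := X) (fun x => congrFun hgh x))

/-- A nontrivial soluble group has a last nontrivial derived subgroup. -/
theorem exists_last {G : Type} [Group G] (hsolv : Group.IsSolvable G) {j : ℕ}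
    (hj : derivedSeries G j ≠ ⊥) :
    ∃ m, j ≤ m ∧ derivedSeries G m ≠ ⊥ ∧ derivedSeries G (m + 1) = ⊥ := by
  classical
  obtain ⟨n, hn⟩ := (Group.isSolvable_def G).mp hsolv
  have hex : ∃ n, derivedSeries G n = ⊥ := ⟨n, hn⟩
  have h1 := Nat.find_spec hex
  have h2 : j < Nat.find hex := by
    by_contra hlt
    push Not at hlt
    apply hj
    exact le_bot_iff.mp (h1 ▸ derivedSeries_antitone G hlt)
  refine ⟨Nat.find hex - 1, by omega, Nat.find_min hex (by omega), ?_⟩
  rw [Nat.sub_add_cancel (by omega)]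
  exact h1

section

variable {V : Type} [AddCommGroup V] [Finite V] [Nontrivial V] {H : Type} [Group H]
  [DistribMulAction H V] [FaithfulSMul H V]

theorem card_semireg {A : Type} [Group A] [DistribMulAction A V] [Finite A]
    (hsemi : ∀ (a : A) (v : V), v ≠ 0 → a • v = v → a = 1) : Nat.card A + 1 ≤ Nat.card V := by
  have h1 := card_orbSet (V := V) (A := A) hsemi
  obtain ⟨v0, hv0⟩ := exists_ne (0 : V)
  have : Nonempty (OrbSet A V) := ⟨⟨Quotient.mk'' v0, by rw [Ne, orb_mk_eq_zero]; exact hv0⟩⟩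
  have h2 : 0 < Nat.card (OrbSet A V) := Nat.card_pos
  have h3 : Nat.card A ≤ Nat.card (OrbSet A V) * Nat.card A := Nat.le_mul_of_pos_left _ h2
  omega

/-- The bound through an abelian normal subgroup of order at least `3`. -/
theorem bound_of_normal (A : Subgroup H) [A.Normal] [Finite A]
    (hcomm : ∀ a b : A, a * b = b * a) (h3 : 3 ≤ Nat.card A)
    (hirr : ∀ W : AddSubgroup V, (∀ (h : H), ∀ w ∈ W, h • w ∈ W) → W = ⊥ ∨ W = ⊤)
    (hsolv : Group.IsSolvable H) (P : PBound (Nat.card V)) {j : ℕ} (hj : derivedSeries H j ≠ ⊥) :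
    fj (j + 2) ≤ Nat.card V := by
  have hconj : ∀ (h : H) (a : A), ∃ a' : A, ∀ v : V, h • (a • v) = a' • (h • v) := by
    intro h a
    refine ⟨⟨h * a * h⁻¹, Subgroup.Normal.conj_mem inferInstance _ a.2 h⟩, fun v => ?_⟩
    change h • ((a : H) • v) = (h * (a : H) * h⁻¹) • (h • v)
    rw [mul_smul, mul_smul, inv_smul_smul]
  have hfa : FaithfulSMul A V := by
    refine ⟨fun {a b} hab => ?_⟩
    apply Subtype.ext
    apply FaithfulSMul.eq_of_smul_eq_smul (α := V)
    exact hab
  by_cases hsemi : ∀ (a : A) (v : V), v ≠ 0 → a • v = v → a = 1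
  · have hV := card_semireg hsemi
    by_cases hR : ∃ v0 : V, v0 ≠ 0 ∧ spn A v0 ≠ ⊤
    · obtain ⟨v0, hv0, hspn⟩ := hR
      rcases j with _ | j
      · have : fj (0 + 2) = 3 := rfl
        omega
      · have h1 := orbit_bound (A := A) hcomm hconj hsemi hsolv P hj hv0 hspn
        have h2 := fj_add_two_le (j + 1)
        have h4 : fj (j + 1) * 3 ≤ fj (j + 1) * Nat.card A := Nat.mul_le_mul_left _ h3
        omega
    · push Not at hR
      have h2 := derived_two_of_irr A hcomm hR
      have hj1 : j < 2 := by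
        by_contra hlt
        push Not at hlt
        exact hj (le_bot_iff.mp (h2 ▸ derivedSeries_antitone H hlt))
      have h5 : fj (j + 2) ≤ fj 3 := fj_mono (by omega)
      have : fj 3 = 4 := rfl
      omega
  · push Not at hsemi
    obtain ⟨a0, w0, hw0, hfix, ha0⟩ := hsemi
    have h1 := maxSt_bound (A := A) hcomm hconj ha0 hw0 hfix hirr hsolv P hj
    have h2 : fj (j + 2) ≤ 2 * fj (j + 1) := fj_succ_le (j + 1)
    omega

theorem lin_bound_two (h2 : ∀ v : V, (2 : ℕ) • v = 0)
    (hirr : ∀ W : AddSubgroup V, (∀ (h : H), ∀ w ∈ W, h • w ∈ W) → W = ⊥ ∨ W = ⊤)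
    (hsolv : Group.IsSolvable H) (P : PBound (Nat.card V)) {j : ℕ} (hj : derivedSeries H j ≠ ⊥) :
    fj (j + 2) ≤ Nat.card V := by
  have hfin : Finite H := finite_of_faithful H V
  obtain ⟨m, -, hm1, hm2⟩ := exists_last hsolv hj
  have hcomm : ∀ a b : derivedSeries H m, a * b = b * a := by
    intro a b
    rw [derivedSeries_succ, Subgroup.commutator_eq_bot_iff_le_centralizer] at hm2
    exact Subtype.ext ((Subgroup.mem_centralizer_iff.mp (hm2 b.2)) a a.2)
  have hconj : ∀ (h : H) (a : derivedSeries H m), ∃ a' : derivedSeries H m,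
      ∀ v : V, h • (a • v) = a' • (h • v) := by
    intro h a
    refine ⟨⟨h * a * h⁻¹, Subgroup.Normal.conj_mem inferInstance _ a.2 h⟩, fun v => ?_⟩
    change h • ((a : H) • v) = (h * (a : H) * h⁻¹) • (h • v)
    rw [mul_smul, mul_smul, inv_smul_smul]
  have hfa : FaithfulSMul (derivedSeries H m) V := by
    refine ⟨fun {a b} hab => ?_⟩
    apply Subtype.ext
    apply FaithfulSMul.eq_of_smul_eq_smul (α := V)
    exact hab
  have hnt : Nontrivial (derivedSeries H m) := (Subgroup.nontrivial_iff_ne_bot _).mpr hm1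
  by_cases hsemi : ∀ (a : derivedSeries H m) (v : V), v ≠ 0 → a • v = v → a = 1
  · have h3 : 3 ≤ Nat.card (derivedSeries H m) := by
      have h1 : 1 < Nat.card (derivedSeries H m) := Finite.one_lt_card
      by_contra hlt
      have hc2 : Nat.card (derivedSeries H m) = 2 := by omega
      obtain ⟨a, ha⟩ := exists_ne (1 : derivedSeries H m)
      have haa : a * a = 1 := by
        have := pow_card_eq_one' (x := a)
        rw [hc2, pow_two] at this
        exact this
      obtain ⟨v0, hv0⟩ := exists_ne (0 : V)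
      have hsum : a • (v0 + a • v0) = v0 + a • v0 := by
        rw [smul_add, ← mul_smul, haa, one_smul, add_comm]
      by_cases h0 : v0 + a • v0 = 0
      · apply ha
        apply hsemi a v0 hv0
        have h4 : v0 + v0 = 0 := by
          have := h2 v0
          rwa [two_smul] at this
        have h5 : v0 + a • v0 = v0 + v0 := by rw [h0, h4]
        exact add_left_cancel h5
      · exact ha (hsemi a _ h0 hsum)
    exact bound_of_normal (derivedSeries H m) hcomm h3 hirr hsolv P hj
  · push Not at hsemi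
    obtain ⟨a0, w0, hw0, hfix, ha0⟩ := hsemi
    have h1 := maxSt_bound (A := derivedSeries H m) hcomm hconj ha0 hw0 hfix hirr hsolv P hj
    have h2 : fj (j + 2) ≤ 2 * fj (j + 1) := fj_succ_le (j + 1)
    omega

theorem lin_bound_odd {p : ℕ} [Fact p.Prime] (hp3 : 3 ≤ p) (hp : ∀ v : V, p • v = 0)
    (hsolv : Group.IsSolvable H) (P : PBound (Nat.card V)) {j : ℕ} (hj : derivedSeries H j ≠ ⊥) :
    fj (j + 2) ≤ Nat.card V := by
  let _ : Module (ZMod p) V := AddCommGroup.zmodModule hp
  have hcen : ∀ (h : H) (c : ZMod p) (v : V), h • (c • v) = c • (h • v) := by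
    intro h c v
    exact ZMod.map_smul (DistribSMul.toAddMonoidHom V h) c v
  have hcomm : ∀ a b : (ZMod p)ˣ, a * b = b * a := fun a b => mul_comm a b
  have hconj : ∀ (h : H) (a : (ZMod p)ˣ), ∃ a' : (ZMod p)ˣ, ∀ v : V, h • (a • v) = a' • (h • v) :=
    fun h a => ⟨a, fun v => hcen h a v⟩
  have hsemi : ∀ (a : (ZMod p)ˣ) (v : V), v ≠ 0 → a • v = v → a = 1 := by
    intro a v hv hav
    have h1 : ((a : ZMod p) - 1) • v = 0 := by
      rw [sub_smul, one_smul, sub_eq_zero]
      exact hav
    by_contra hne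
    have h2 : (a : ZMod p) - 1 ≠ 0 := fun h => hne (Units.ext (sub_eq_zero.mp h))
    apply hv
    rw [← inv_smul_smul₀ h2 v, h1, smul_zero]
  have hcardA : Nat.card (ZMod p)ˣ = p - 1 := by
    rw [Nat.card_eq_fintype_card, ZMod.card_units_eq_totient, Nat.totient_prime Fact.out]
  have hV := card_semireg hsemi
  rw [hcardA] at hV
  by_cases hR : ∃ v0 : V, v0 ≠ 0 ∧ spn (ZMod p)ˣ v0 ≠ ⊤
  · obtain ⟨v0, hv0, hspn⟩ := hR
    rcases j with _ | j
    · have : fj (0 + 2) = 3 := rfl
      omega
    · have h1 := orbit_bound (A := (ZMod p)ˣ) hcomm hconj hsemi hsolv P hj hv0 hspn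
      rw [hcardA] at h1
      rcases Nat.lt_or_ge p 4 with h4 | h4
      · have hp' : p = 3 := by omega
        subst hp'
        have hcard : Nat.card V = 3 ^ Module.finrank (ZMod 3) V := by
          rw [Module.natCard_eq_pow_finrank (K := ZMod 3), Nat.card_zmod]
        rw [hcard] at h1 ⊢
        apply fj_add_two_le_three_pow
        omega
      · have h2 := fj_add_two_le (j + 1)
        have h4 : fj (j + 1) * 3 ≤ fj (j + 1) * (p - 1) := Nat.mul_le_mul_left _ (by omega)
        omega
  · push Not at hR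
    obtain ⟨v0, hv0⟩ := exists_ne (0 : V)
    have h1 : derivedSeries H 1 = ⊥ :=
      derived_one_of_central (A := (ZMod p)ˣ) hcomm (fun h a v => hcen h a v) (hR v0 hv0)
    have hj1 : j < 1 := by
      by_contra hlt
      push Not at hlt
      exact hj (le_bot_iff.mp (h1 ▸ derivedSeries_antitone H hlt))
    have : j = 0 := by omega
    subst this
    have : fj (0 + 2) = 3 := rfl
    omega

/-- The linear bound. -/
theorem lin_bound {p : ℕ} (hpp : p.Prime) (hp : ∀ v : V, p • v = 0)
    (hirr : ∀ W : AddSubgroup V, (∀ (h : H), ∀ w ∈ W, h • w ∈ W) → W = ⊥ ∨ W = ⊤)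
    (hsolv : Group.IsSolvable H) (P : PBound (Nat.card V)) {j : ℕ} (hj : derivedSeries H j ≠ ⊥) :
    fj (j + 2) ≤ Nat.card V := by
  have : Fact p.Prime := ⟨hpp⟩
  rcases Nat.lt_or_ge p 3 with h | h
  · have : p = 2 := by have := hpp.two_le; omega
    subst this
    exact lin_bound_two hp hirr hsolv P hj
  · exact lin_bound_odd h hp hsolv P hj

end

end Pool.Agent.Work.MP_403fb3_al_helper9
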