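import Mathlib

/-!
# The symmetric group on four points
-/

namespace Pool.Agent.Work.MP_403fb3_al_helper9

open Subgroup Equiv.Perm

open scoped commutatorElement

/-- the Klein four group in `S_4` -/
def V4 : Subgroup (Equiv.Perm (Fin 4)) where
  carrier := {σ | (∀ i, σ (σ i) = i) ∧ (σ = 1 ∨ ∀ i, σ i ≠ i)}
  mul_mem' {a b} := by
    revert a b; decide +kernel
  one_mem' := by decide
  inv_mem' {a} := by
    revert a; decide +kernel

theorem comm_even : ∀ σ τ : Equiv.Perm (Fin 4), sign σ = 1 → sign τ = 1 →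
    ((∀ i, ⁅σ, τ⁆ (⁅σ, τ⁆ i) = i) ∧ (⁅σ, τ⁆ = 1 ∨ ∀ i, ⁅σ, τ⁆ i ≠ i)) := by
  decide +kernel

theorem V4_comm : ∀ σ τ : Equiv.Perm (Fin 4), ((∀ i, σ (σ i) = i) ∧ (σ = 1 ∨ ∀ i, σ i ≠ i)) →
    ((∀ i, τ (τ i) = i) ∧ (τ = 1 ∨ ∀ i, τ i ≠ i)) → τ * σ = σ * τ := by
  decide +kernel

theorem perm4_one {X : Type} [Fintype X] [DecidableEq X] {σ : Equiv.Perm X}
    (h : σ ∈ derivedSeries (Equiv.Perm X) 1) : sign σ = 1 := by
  have h1 : sign σ ∈ derivedSeries ℤˣ 1 :=
    map_derivedSeries_le_derivedSeries sign 1 (Subgroup.mem_map_of_mem _ h)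
  have h2 : derivedSeries ℤˣ 1 = ⊥ := by
    rw [derivedSeries_one, commutator_def, Subgroup.commutator_eq_bot_iff_le_centralizer]
    intro x _
    rw [Subgroup.mem_centralizer_iff]
    intro y _
    exact mul_comm _ _
  rw [h2, Subgroup.mem_bot] at h1
  exact h1

theorem perm4_two : derivedSeries (Equiv.Perm (Fin 4)) 2 ≤ V4 := by
  have : derivedSeries (Equiv.Perm (Fin 4)) 2 =
    ⁅derivedSeries (Equiv.Perm (Fin 4)) 1, derivedSeries (Equiv.Perm (Fin 4)) 1⁆ := rfl
  rw [this, Subgroup.commutator_le]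
  intro x hx y hy
  exact comm_even x y (perm4_one hx) (perm4_one hy)

theorem perm4_three : derivedSeries (Equiv.Perm (Fin 4)) 3 = ⊥ := by
  have : derivedSeries (Equiv.Perm (Fin 4)) 3 =
    ⁅derivedSeries (Equiv.Perm (Fin 4)) 2, derivedSeries (Equiv.Perm (Fin 4)) 2⁆ := rfl
  rw [this, Subgroup.commutator_eq_bot_iff_le_centralizer]
  intro x hx
  rw [Subgroup.mem_centralizer_iff]
  intro y hy
  exact V4_comm x y (perm4_two hx) (perm4_two hy)

/-- A subgroup of `Alt(4)` has derived length at most two. -/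
theorem even4 {G : Type} [Group G] (f : G →* Equiv.Perm (Fin 4)) (hf : ∀ g, sign (f g) = 1)
    {g : G} (hg : g ∈ derivedSeries G 2) : f g = 1 := by
  have h1 : ∀ g ∈ derivedSeries G 1, f g ∈ V4 := by
    have : (derivedSeries G 1) ≤ V4.comap f := by
      rw [derivedSeries_one, commutator_def, Subgroup.commutator_le]
      intro x _ y _
      rw [Subgroup.mem_comap, map_commutatorElement]
      exact comm_even _ _ (hf x) (hf y)
    exact this
  have h2 : derivedSeries G 2 ≤ f.ker := by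
    have : derivedSeries G 2 = ⁅derivedSeries G 1, derivedSeries G 1⁆ := rfl
    rw [this, Subgroup.commutator_le]
    intro x hx y hy
    rw [MonoidHom.mem_ker, map_commutatorElement, commutatorElement_eq_one_iff_mul_comm]
    exact (V4_comm _ _ (h1 _ hy) (h1 _ hx))
  exact h2 hg

end Pool.Agent.Work.MP_403fb3_al_helper9
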