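import Pool.Agent.Work.MP_403fb3_al_helper9.Bound
import Pool.Agent.Work.MP_403fb3_al_helper9.AG
import Pool.Agent.Work.MP_403fb3_al_helper9.S4

/-!
# Degrees of soluble groups of even permutations: the small cases
-/

namespace Pool.Agent.Work.MP_403fb3_al_helper9

open Subgroup MulAction Equiv Equiv.Perm

/-- All elements act as even permutations. -/
def EvenAct (G Y : Type) [Group G] [MulAction G Y] : Prop :=
  ∀ (_ : Fintype Y) (_ : DecidableEq Y) (g : G), sign (MulAction.toPerm g : Perm Y) = 1

theorem evenAct_orbit {G Y : Type} [Group G] [MulAction G Y] [Finite Y] (hev : EvenAct G Y) (y : Y)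
    (hc : Nat.card Y ≤ Nat.card (orbit G y) + 1) : EvenAct G (orbit G y) := by
  classical
  intro _ _ g
  have : Fintype Y := Fintype.ofFinite Y
  have hfix : ∀ x, (MulAction.toPerm g : Perm Y) x ≠ x → x ∈ orbit G y := by
    intro x hx
    by_contra hxo
    have hgx : g • x ∉ orbit G y := by
      intro h
      apply hxo
      rw [← inv_smul_smul g x]
      exact mem_orbit_of_mem_orbit g⁻¹ h
    have hcompl : (orbit G y)ᶜ.ncard ≤ 1 := by
      have h1 := Set.ncard_add_ncard_compl (orbit G y)
      rw [Nat.card_coe_set_eq] at hc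
      omega
    rw [Set.ncard_le_one_iff] at hcompl
    exact hx (hcompl hgx hxo)
  have h1 : ∀ x, (MulAction.toPerm g : Perm Y) x ∈ orbit G y ↔ x ∈ orbit G y := by
    intro x
    change g • x ∈ orbit G y ↔ x ∈ orbit G y
    refine ⟨fun h => ?_, fun h => mem_orbit_of_mem_orbit g h⟩
    rw [← inv_smul_smul g x]
    exact mem_orbit_of_mem_orbit g⁻¹ h
  have h2 := sign_subtypePerm (MulAction.toPerm g : Perm Y) h1 hfix
  rw [hev _ _ g] at h2
  rw [← h2]
  congr
  · exact Subsingleton.elim _ _
  · exact Subsingleton.elim _ _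

theorem evenAct_range {G Y : Type} [Group G] [MulAction G Y] (hev : EvenAct G Y) :
    EvenAct (MulAction.toPermHom G Y).range Y := by
  intro _ _ g
  obtain ⟨g', hg'⟩ := g.2
  have := hev inferInstance inferInstance g'
  rw [← this]
  congr 1
  ext y
  change (g : Perm Y) y = g' • y
  rw [← hg']
  rfl

theorem evenAct_equiv {G H Y V : Type} [Group G] [MulAction G Y] [Group H] [MulAction H V]
    (φ : H →* G) (e : V ≃ Y) (he : ∀ (h : H) (v : V), e (h • v) = φ h • e v) (hev : EvenAct G Y) :
    EvenAct H V := by
  classical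
  intro _ _ h
  have : Fintype Y := Fintype.ofEquiv V e
  rw [← sign_permCongr e, ← hev _ _ (φ h)]
  congr 1
  ext y
  change e (h • e.symm y) = φ h • y
  rw [he, e.apply_symm_apply]

/-- A group acting evenly on four points. -/
theorem even_four {G Y : Type} [Group G] [MulAction G Y] [Finite Y] (hev : EvenAct G Y)
    (h4 : Nat.card Y = 4) {g : G} (hg : g ∈ derivedSeries G 2) (y : Y) : g • y = y := by
  classical
  have : Fintype Y := Fintype.ofFinite Y
  let e : Y ≃ Fin 4 := Fintype.equivFinOfCardEq (by rw [← Nat.card_eq_fintype_card, h4])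
  let f : G →* Perm (Fin 4) := e.permCongrHom.toMonoidHom.comp (MulAction.toPermHom G Y)
  have hf : ∀ g, sign (f g) = 1 := by
    intro g
    change sign (e.permCongr (MulAction.toPerm g)) = 1
    rw [sign_permCongr]
    exact hev _ _ g
  have h1 := even4 f hf hg
  have h2 : e.permCongr (MulAction.toPerm g) (e y) = e y := by
    change f g (e y) = e y
    rw [h1]; rfl
  rw [permCongr_apply, e.symm_apply_apply] at h2
  exact e.injective h2

/-- A group acting faithfully by automorphisms on a group of prime order is abelian. -/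
theorem prime_abelian {H V : Type} [Group H] [AddCommGroup V] [DistribMulAction H V]
    [FaithfulSMul H V] [Finite V] {p : ℕ} (hp : p.Prime) (hV : Nat.card V = p) :
    derivedSeries H 1 = ⊥ := by
  have : Fact p.Prime := ⟨hp⟩
  have hcyc : IsAddCyclic V := isAddCyclic_of_prime_card hV
  obtain ⟨v0, hv0⟩ := hcyc.exists_generator
  have key : ∀ h : H, ∃ n : ℤ, ∀ v : V, h • v = n • v := by
    intro h
    obtain ⟨n, hn⟩ := AddSubgroup.mem_zmultiples_iff.mp (hv0 (h • v0))
    refine ⟨n, fun v => ?_⟩
    obtain ⟨m, rfl⟩ := AddSubgroup.mem_zmultiples_iff.mp (hv0 v)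
    rw [smul_comm n m v0, hn]
    exact (map_zsmul (DistribSMul.toAddMonoidHom V h) m v0)
  have hc : ∀ a b : H, a * b = b * a := by
    intro a b
    apply FaithfulSMul.eq_of_smul_eq_smul (α := V)
    intro v
    obtain ⟨m, hm⟩ := key a
    obtain ⟨n, hn⟩ := key b
    rw [mul_smul, mul_smul, hm, hn, hn, hm, smul_comm]
  rw [derivedSeries_one, commutator_def, Subgroup.commutator_eq_bot_iff_le_centralizer]
  intro x _
  rw [Subgroup.mem_centralizer_iff]
  intro y _
  exact hc _ _

/-- Transitive groups of prime degree are primitive. -/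
theorem prim_of_prime {G Y : Type} [Group G] [MulAction G Y] [Finite Y] [IsPretransitive G Y]
    (hp : (Nat.card Y).Prime) : IsPreprimitive G Y :=
  IsPreprimitive.of_prime_card hp

end Pool.Agent.Work.MP_403fb3_al_helper9
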