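import Pool.Agent.Work.MP_403fb3_al_helper9.Low

/-!
# Even linear groups on nine points
-/

namespace Pool.Agent.Work.MP_403fb3_al_helper9

open Subgroup MulAction Equiv Equiv.Perm

theorem sign_lin : ∀ (a b c d : ZMod 3) (h : a * d - b * c ≠ 0),
    sign (AG.toPerm ⟨a, b, c, d, 0, 0, h⟩) = 1 → a * d - b * c = 1 := by
  decide +kernel

theorem act_faithful {x y : AG} (h : ∀ p, AG.act x p = AG.act y p) : x = y := by
  have h0 := h (0, 0)
  have h1 := h (1, 0)
  have h2 := h (0, 1)
  simp only [AG.act, mul_zero, add_zero, zero_add, mul_one, Prod.mk.injEq] at h0 h1 h2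
  obtain ⟨hu, hv⟩ := h0
  rw [hu, hv] at h1 h2
  ext
  · exact add_right_cancel h1.1
  · exact add_right_cancel h2.1
  · exact add_right_cancel h1.2
  · exact add_right_cancel h2.2
  · exact hu
  · exact hv

/-- An even linear group on nine points has derived length at most three. -/
theorem even_nine_lin {H V : Type} [Group H] [AddCommGroup V] [DistribMulAction H V]
    [FaithfulSMul H V] [Finite V] (h3 : ∀ v : V, 3 • v = 0) (h9 : Nat.card V = 9)
    (hev : EvenAct H V) : derivedSeries H 3 = ⊥ := by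
  classical
  let _ : Module (ZMod 3) V := AddCommGroup.zmodModule h3
  have hfr : Module.finrank (ZMod 3) V = 2 := by
    have h1 := Module.natCard_eq_pow_finrank (K := ZMod 3) (V := V)
    rw [h9, Nat.card_eq_fintype_card, ZMod.card] at h1
    have h2 : (3 : ℕ) ^ 2 = 3 ^ Module.finrank (ZMod 3) V := by rw [← h1]; norm_num
    exact (Nat.pow_right_injective (show 2 ≤ 3 by norm_num) h2).symm
  let E : V ≃ₗ[ZMod 3] (ZMod 3 × ZMod 3) := LinearEquiv.ofFinrankEq V (ZMod 3 × ZMod 3) (by
    rw [hfr]; simp)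
  -- the linear map of an element
  let L : H → (ZMod 3 × ZMod 3) →ₗ[ZMod 3] (ZMod 3 × ZMod 3) := fun h =>
    E.toLinearMap ∘ₗ ((DistribSMul.toAddMonoidHom V h).toZModLinearMap 3) ∘ₗ E.symm.toLinearMap
  have hL : ∀ h v, L h (E v) = E (h • v) := by
    intro h v
    simp [L]
  have hL2 : ∀ h (p : ZMod 3 × ZMod 3), L h p =
      ((L h (1, 0)).1 * p.1 + (L h (0, 1)).1 * p.2, (L h (1, 0)).2 * p.1 + (L h (0, 1)).2 * p.2) := by
    intro h p
    have hp : p = p.1 • ((1 : ZMod 3), (0 : ZMod 3)) + p.2 • ((0 : ZMod 3), (1 : ZMod 3)) := by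
      ext <;> simp
    conv_lhs => rw [hp]
    rw [map_add, map_smul, map_smul]
    ext <;> simp [mul_comm]
  have hLinj : ∀ h, Function.Injective (L h) := by
    intro h p q hpq
    obtain ⟨v, rfl⟩ := E.surjective p
    obtain ⟨w, rfl⟩ := E.surjective q
    rw [hL, hL] at hpq
    have := E.injective hpq
    rw [(MulAction.injective h) this]
  have hdet : ∀ a b c d : ZMod 3, a * d - b * c = 0 →
      ∃ p : ZMod 3 × ZMod 3, p ≠ 0 ∧ (a * p.1 + b * p.2, c * p.1 + d * p.2) = 0 := by
    decide +kernel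
  have hM0 : ∀ h, (L h (1, 0)).1 * (L h (0, 1)).2 - (L h (0, 1)).1 * (L h (1, 0)).2 ≠ 0 := by
    intro h h0
    obtain ⟨p, hp1, hp2⟩ := hdet _ _ _ _ h0
    apply hp1
    apply hLinj h
    rw [map_zero, hL2]
    exact hp2
  let M0 : H → AG := fun h => ⟨(L h (1, 0)).1, (L h (0, 1)).1, (L h (1, 0)).2, (L h (0, 1)).2, 0, 0,
    hM0 h⟩
  have hact : ∀ h p, AG.act (M0 h) p = L h p := by
    intro h p
    rw [hL2]
    simp only [AG.act, M0, add_zero]
  let M : H →* AG :=
    { toFun := M0
      map_one' := by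
        apply act_faithful
        intro p
        rw [hact, AG.act_one]
        obtain ⟨v, rfl⟩ := E.surjective p
        rw [hL, one_smul]
      map_mul' := by
        intro g h
        apply act_faithful
        intro p
        rw [hact, AG.act_mul, hact, hact]
        obtain ⟨v, rfl⟩ := E.surjective p
        rw [hL, hL, hL, mul_smul] }
  have hMinj : ∀ h, M h = 1 → h = 1 := by
    intro h hh
    apply FaithfulSMul.eq_of_smul_eq_smul (α := V)
    intro v
    apply E.injective
    rw [one_smul, ← hL, ← hact]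
    change AG.act (M h) (E v) = E v
    rw [hh, AG.act_one]
  have hdet1 : ∀ h, AG.P1 (M h).lin := by
    intro h
    apply sign_lin _ _ _ _ (hM0 h)
    have : Fintype V := Fintype.ofFinite V
    rw [← hev _ _ h, ← sign_permCongr E.toEquiv]
    congr 1
    ext1 p
    change AG.act (M0 h) p = E (h • E.symm p)
    rw [hact, ← hL, E.apply_symm_apply]
  have D1 : derivedSeries H 1 ≤ AG.S2.comap M := by
    rw [derivedSeries_one, _root_.commutator_def, Subgroup.commutator_le]
    intro x _ y _
    rw [Subgroup.mem_comap, map_commutatorElement]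
    exact AG.comm_mem AG.c2 (hdet1 x) (hdet1 y)
  have D2 : derivedSeries H 2 ≤ AG.S3.comap M := by
    have : derivedSeries H 2 = ⁅derivedSeries H 1, derivedSeries H 1⁆ := rfl
    rw [this, Subgroup.commutator_le]
    intro x hx y hy
    rw [Subgroup.mem_comap, map_commutatorElement]
    exact AG.comm_mem AG.c3 (show AG.P2 (M x).lin from D1 hx) (show AG.P2 (M y).lin from D1 hy)
  have D3 : derivedSeries H 3 ≤ AG.S4.comap M := by
    have : derivedSeries H 3 = ⁅derivedSeries H 2, derivedSeries H 2⁆ := rfl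
    rw [this, Subgroup.commutator_le]
    intro x hx y hy
    rw [Subgroup.mem_comap, map_commutatorElement]
    exact AG.comm_mem AG.c4 (show AG.P3 (M x).lin from D2 hx) (show AG.P3 (M y).lin from D2 hy)
  rw [eq_bot_iff]
  intro x hx
  rw [Subgroup.mem_bot]
  apply hMinj
  have h5 : AG.P4 (M x).lin := D3 hx
  obtain ⟨h1, h2, h3, h4⟩ := h5
  ext
  · exact h1
  · exact h2
  · exact h3
  · exact h4
  · rfl
  · rfl

end Pool.Agent.Work.MP_403fb3_al_helper9
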