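import Pool.Agent.Work.MP_403fb3_al_helper9.Lin5

/-!
# Structure of soluble primitive groups, and the imprimitive step
-/

namespace Pool.Agent.Work.MP_403fb3_al_helper9

open Subgroup MulAction
open scoped Pointwise

/-- Soluble primitive permutation groups are affine. -/
theorem prim_struct {G Y : Type} [Group G] [MulAction G Y] [FaithfulSMul G Y] [Finite Y]
    [IsPreprimitive G Y] {l : ℕ} (h1 : derivedSeries G l ≠ ⊥)
    (h2 : derivedSeries G (l + 1) = ⊥) (y0 : Y) :
    ∃ (V : Type) (_ : AddCommGroup V) (_ : Finite V) (_ : Nontrivial V) (H : Subgroup G)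
      (_ : DistribMulAction H V) (_ : FaithfulSMul H V) (e : V ≃ Y),
      (∃ p : ℕ, p.Prime ∧ ∀ v : V, p • v = 0) ∧
      (∀ W : AddSubgroup V, (∀ (h : H), ∀ w ∈ W, h • w ∈ W) → W = ⊥ ∨ W = ⊤) ∧
      (∀ (h : H) (v : V), e (h • v) = (h : G) • e v) ∧
      (∀ j, l = j + 1 → derivedSeries H j ≠ ⊥) := by
  classical
  have hfin : Finite G := finite_of_faithful G Y
  set D := derivedSeries G l with hD
  have hcomm : ∀ a ∈ D, ∀ b ∈ D, a * b = b * a := by
    intro a ha b hb
    have h3 : ⁅D, D⁆ = ⊥ := h2
    rw [Subgroup.commutator_eq_bot_iff_le_centralizer] at h3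
    exact ((Subgroup.mem_centralizer_iff.mp (h3 hb)) a ha)
  -- normal subgroups are transitive
  have htrans : ∀ N : Subgroup G, N.Normal → N ≠ ⊥ → IsPretransitive N Y := by
    intro N hN hne
    apply IsQuasiPreprimitive.isPretransitive_of_normal
    intro hfix
    apply hne
    rw [eq_bot_iff]
    intro n hn
    rw [Subgroup.mem_bot]
    apply FaithfulSMul.eq_of_smul_eq_smul (α := Y)
    intro y
    have hy : y ∈ fixedPoints N Y := hfix ▸ Set.mem_univ y
    rw [one_smul]
    exact hy ⟨n, hn⟩
  have hDtrans := htrans D inferInstance h1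
  -- regularity
  have hreg : ∀ v ∈ D, ∀ y : Y, v • y = y → v = 1 := by
    intro v hv y hvy
    apply FaithfulSMul.eq_of_smul_eq_smul (α := Y)
    intro z
    obtain ⟨u, hu⟩ := hDtrans.exists_smul_eq y z
    have hu' : (u : G) • y = z := hu
    rw [one_smul, ← hu', ← mul_smul, hcomm v hv u u.2, mul_smul, hvy]
  -- exponent p
  have hnt : Nontrivial D := (Subgroup.nontrivial_iff_ne_bot _).mpr h1
  obtain ⟨p, hpp, hpd⟩ := Nat.exists_prime_and_dvd (n := Nat.card D)
    (by have := Finite.one_lt_card (α := D); omega)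
  have hexp : ∀ v ∈ D, v ^ p = 1 := by
    let E : Subgroup G :=
      { carrier := {g | g ∈ D ∧ g ^ p = 1}
        mul_mem' := by
          rintro a b ⟨ha, ha'⟩ ⟨hb, hb'⟩
          refine ⟨mul_mem ha hb, ?_⟩
          rw [(show Commute a b from hcomm a ha b hb).mul_pow, ha', hb', one_mul]
        one_mem' := ⟨one_mem _, one_pow _⟩
        inv_mem' := by
          rintro a ⟨ha, ha'⟩
          exact ⟨inv_mem ha, by rw [inv_pow, ha', inv_one]⟩ }
    have hEn : E.Normal := by
      refine ⟨fun n hn g => ⟨Subgroup.Normal.conj_mem inferInstance _ hn.1 g, ?_⟩⟩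
      rw [conj_pow, hn.2, mul_one, mul_inv_cancel]
    have hEne : E ≠ ⊥ := by
      have : Fact p.Prime := ⟨hpp⟩
      obtain ⟨x, hx⟩ := exists_prime_orderOf_dvd_card' (G := D) p hpd
      intro h0
      have hxE : (x : G) ∈ E := ⟨x.2, by
        have := pow_orderOf_eq_one x
        rw [hx] at this
        exact congrArg Subtype.val this⟩
      rw [h0, Subgroup.mem_bot] at hxE
      have hx1 : x = 1 := Subtype.ext hxE
      rw [hx1, orderOf_one] at hx
      exact hpp.one_lt.ne hx
    have hEt := htrans E hEn hEne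
    intro v hv
    obtain ⟨w, hw⟩ := hEt.exists_smul_eq y0 (v • y0)
    have hw' : (w : G) • y0 = v • y0 := hw
    have h3 : v⁻¹ * (w : G) = 1 := by
      apply hreg _ (mul_mem (inv_mem hv) w.2.1) y0
      rw [mul_smul, hw', inv_smul_smul]
    have h4 : v = w := by rw [inv_mul_eq_one] at h3; exact h3
    rw [h4]
    exact w.2.2
  -- the module
  let instC : CommGroup D :=
    { (inferInstance : Group D) with
      mul_comm := fun a b => Subtype.ext (hcomm a a.2 b b.2) }
  let V := Additive D
  let H := stabilizer G y0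
  let act : DistribMulAction H V :=
    { smul := fun h v => Additive.ofMul (⟨(h : G) * (v.toMul : D) * (h : G)⁻¹,
        Subgroup.Normal.conj_mem inferInstance _ (v.toMul : D).2 h⟩ : D)
      one_smul := by
        intro v
        apply Additive.toMul.injective
        apply Subtype.ext
        change (1 : G) * (v.toMul : D) * (1 : G)⁻¹ = (v.toMul : D)
        group
      mul_smul := by
        intro g h v
        apply Additive.toMul.injective
        apply Subtype.ext
        change ((g : G) * (h : G)) * (v.toMul : D) * ((g : G) * (h : G))⁻¹ =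
          (g : G) * ((h : G) * (v.toMul : D) * (h : G)⁻¹) * (g : G)⁻¹
        group
      smul_zero := by
        intro h
        apply Additive.toMul.injective
        apply Subtype.ext
        change (h : G) * (1 : G) * (h : G)⁻¹ = 1
        group
      smul_add := by
        intro h v w
        apply Additive.toMul.injective
        apply Subtype.ext
        change (h : G) * ((v.toMul : D) * (w.toMul : D) : G) * (h : G)⁻¹ =
          ((h : G) * (v.toMul : D) * (h : G)⁻¹) * ((h : G) * (w.toMul : D) * (h : G)⁻¹)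
        group }
  have hact : ∀ (h : H) (v : V), (((h • v).toMul : D) : G) = (h : G) * (v.toMul : D) * (h : G)⁻¹ :=
    fun h v => rfl
  have hstab : ∀ h : H, (h : G) • y0 = y0 := fun h => h.2
  -- the bijection
  let f : V → Y := fun v => ((v.toMul : D) : G) • y0
  have hf : Function.Bijective f := by
    constructor
    · intro v w hvw
      have h3 : ((v.toMul : D) : G)⁻¹ * ((w.toMul : D) : G) = 1 := by
        apply hreg _ (mul_mem (inv_mem (v.toMul : D).2) (w.toMul : D).2) y0
        have hvw' : ((v.toMul : D) : G) • y0 = ((w.toMul : D) : G) • y0 := hvw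
        rw [mul_smul, ← hvw', inv_smul_smul]
      rw [inv_mul_eq_one] at h3
      apply Additive.toMul.injective
      exact Subtype.ext h3
    · intro y
      obtain ⟨u, hu⟩ := hDtrans.exists_smul_eq y0 y
      exact ⟨Additive.ofMul u, hu⟩
  let e : V ≃ Y := Equiv.ofBijective f hf
  have heq : ∀ (h : H) (v : V), e (h • v) = (h : G) • e v := by
    intro h v
    change (((h • v).toMul : D) : G) • y0 = (h : G) • (((v.toMul : D) : G) • y0)
    have h3 : ((h : G)⁻¹) • y0 = y0 := by
      rw [inv_smul_eq_iff]; exact (hstab h).symm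
    rw [hact, mul_smul, mul_smul, h3]
  have hfaith : FaithfulSMul H V := by
    refine ⟨fun {g h} hgh => ?_⟩
    apply Subtype.ext
    apply FaithfulSMul.eq_of_smul_eq_smul (α := Y)
    intro y
    obtain ⟨v, rfl⟩ := e.surjective y
    rw [← heq, ← heq, hgh v]
  have hVnt : Nontrivial V := inferInstanceAs (Nontrivial D)
  have hVfin : Finite V := inferInstanceAs (Finite D)
  refine ⟨V, inferInstance, hVfin, hVnt, H, act, hfaith, e, ⟨p, hpp, ?_⟩, ?_, heq, ?_⟩
  · intro v
    apply Additive.toMul.injective
    apply Subtype.ext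
    exact hexp _ (v.toMul : D).2
  · intro W hW
    by_cases hWb : W = ⊥
    · exact Or.inl hWb
    right
    -- the subgroup of `G` corresponding to `W`
    let N : Subgroup G :=
      { carrier := {g | ∃ hg : g ∈ D, Additive.ofMul (⟨g, hg⟩ : D) ∈ W}
        mul_mem' := by
          rintro a b ⟨ha, ha'⟩ ⟨hb, hb'⟩
          exact ⟨mul_mem ha hb, W.add_mem ha' hb'⟩
        one_mem' := ⟨one_mem _, W.zero_mem⟩
        inv_mem' := by
          rintro a ⟨ha, ha'⟩
          exact ⟨inv_mem ha, W.neg_mem ha'⟩ }
    have hNn : N.Normal := by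
      refine ⟨fun n hn g => ?_⟩
      obtain ⟨hn1, hn2⟩ := hn
      obtain ⟨u, hu⟩ := hDtrans.exists_smul_eq y0 (g • y0)
      have hu' : (u : G) • y0 = g • y0 := hu
      have hh : (u : G)⁻¹ * g ∈ H := by
        change ((u : G)⁻¹ * g) • y0 = y0
        rw [mul_smul, ← hu', inv_smul_smul]
      have h3 := hW ⟨_, hh⟩ _ hn2
      have h4 : ((u : G)⁻¹ * g) * n * ((u : G)⁻¹ * g)⁻¹ = g * n * g⁻¹ := by
        have h5 : g * n * g⁻¹ ∈ D := Subgroup.Normal.conj_mem inferInstance _ hn1 g
        have h6 := hcomm _ h5 _ (inv_mem u.2)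
        calc ((u : G)⁻¹ * g) * n * ((u : G)⁻¹ * g)⁻¹
            = (u : G)⁻¹ * (g * n * g⁻¹) * (u : G) := by group
          _ = (g * n * g⁻¹ * (u : G)⁻¹) * (u : G) := by rw [h6]
          _ = g * n * g⁻¹ := by group
      have h5 : g * n * g⁻¹ ∈ D := Subgroup.Normal.conj_mem inferInstance _ hn1 g
      refine ⟨h5, ?_⟩
      convert h3 using 1
      apply Additive.toMul.injective
      apply Subtype.ext
      exact h4.symm
    have hNne : N ≠ ⊥ := by
      intro h0
      apply hWb
      rw [eq_bot_iff]
      intro w hw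
      have h3 : ((w.toMul : D) : G) ∈ N := ⟨(w.toMul : D).2, hw⟩
      rw [h0, Subgroup.mem_bot] at h3
      rw [AddSubgroup.mem_bot]
      apply Additive.toMul.injective
      exact Subtype.ext h3
    have hNt := htrans N hNn hNne
    rw [eq_top_iff]
    intro v _
    obtain ⟨w, hw⟩ := hNt.exists_smul_eq y0 (e v)
    obtain ⟨hw1, hw2⟩ := w.2
    have h3 : e (Additive.ofMul (⟨w.1, hw1⟩ : D)) = e v := hw
    rw [← e.injective h3]
    exact hw2
  · rintro j rfl hbot
    apply h1
    have hsurj : Function.Surjective ((QuotientGroup.mk' D).comp H.subtype) := by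
      intro q
      obtain ⟨g, rfl⟩ := QuotientGroup.mk'_surjective D q
      obtain ⟨u, hu⟩ := hDtrans.exists_smul_eq y0 (g • y0)
      have hu' : (u : G) • y0 = g • y0 := hu
      have hh : (u : G)⁻¹ * g ∈ H := by
        change ((u : G)⁻¹ * g) • y0 = y0
        rw [mul_smul, ← hu', inv_smul_smul]
      refine ⟨⟨_, hh⟩, ?_⟩
      change QuotientGroup.mk' D ((u : G)⁻¹ * g) = QuotientGroup.mk' D g
      rw [map_mul, map_inv]
      have : QuotientGroup.mk' D (u : G) = 1 := (QuotientGroup.eq_one_iff _).mpr u.2
      rw [this, inv_one, one_mul]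
    have h3 : derivedSeries (G ⧸ D) j = ⊥ := by
      rw [← map_derivedSeries_eq hsurj j, hbot, Subgroup.map_bot]
    have h4 : derivedSeries G j ≤ D := by
      intro g hg
      have h5 : QuotientGroup.mk' D g ∈ derivedSeries (G ⧸ D) j :=
        map_derivedSeries_le_derivedSeries (QuotientGroup.mk' D) j (Subgroup.mem_map_of_mem _ hg)
      rw [h3, Subgroup.mem_bot] at h5
      exact (QuotientGroup.eq_one_iff _).mp h5
    rw [hD, eq_bot_iff]
    calc derivedSeries G (j + 1) = ⁅derivedSeries G j, derivedSeries G j⁆ := rfl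
      _ ≤ ⁅D, D⁆ := Subgroup.commutator_mono h4 h4
      _ = ⊥ := h2

/-- Derived series of a subgroup containing a term of the derived series. -/
theorem derived_le_map {G : Type} [Group G] (N : Subgroup G) {a : ℕ} (h : derivedSeries G a ≤ N)
    (i : ℕ) : derivedSeries G (a + i) ≤ (derivedSeries N i).map N.subtype := by
  induction i with
  | zero =>
    rw [derivedSeries_zero, ← MonoidHom.range_eq_map, Subgroup.range_subtype]
    exact h
  | succ i ih =>
    calc derivedSeries G (a + (i + 1)) = ⁅derivedSeries G (a + i), derivedSeries G (a + i)⁆ := rfl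
      _ ≤ ⁅(derivedSeries N i).map N.subtype, (derivedSeries N i).map N.subtype⁆ :=
        Subgroup.commutator_mono ih ih
      _ = (derivedSeries N (i + 1)).map N.subtype := (Subgroup.map_commutator _ _ _).symm

/-- The imprimitive step. -/
theorem imprim_step {G Y : Type} [Group G] [MulAction G Y] [Finite Y] [IsPretransitive G Y]
    (hnp : ¬ IsPreprimitive G Y) (hsolv : Group.IsSolvable G) (P : PBound (Nat.card Y)) {d : ℕ}
    {g : G} (hg : g ∈ derivedSeries G d) {y : Y} (hy : g • y ≠ y) :
    ∃ b c a i : ℕ, b * c = Nat.card Y ∧ 2 ≤ b ∧ 2 ≤ c ∧ a + i = d ∧ fj a ≤ c ∧ fj (i + 1) ≤ b ∨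
      (b * c = Nat.card Y ∧ 2 ≤ b ∧ fj (d + 1) ≤ c) := by
  classical
  obtain ⟨B, hB, hBt⟩ : ∃ B : Set Y, IsBlock G B ∧ ¬ IsTrivialBlock B := by
    by_contra hcon
    push Not at hcon
    exact hnp ⟨fun {B} hB => hcon B hB⟩
  rw [IsTrivialBlock, not_or] at hBt
  obtain ⟨hBs, hBu⟩ := hBt
  rw [Set.not_subsingleton_iff] at hBs
  have hBne : B.Nonempty := hBs.nonempty
  have hmul := hB.ncard_block_mul_ncard_orbit_eq hBne
  have hb2 : 2 ≤ B.ncard := (Set.one_lt_ncard_iff_nontrivial).mpr hBs
  have hblt : B.ncard < Nat.card Y := by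
    rw [← Set.ncard_univ]
    exact Set.ncard_lt_ncard (Set.ssubset_univ_iff.mpr hBu)
  have hc2 : 2 ≤ (orbit G B).ncard := by
    by_contra hlt
    have : (orbit G B).ncard ≤ 1 := by omega
    have : B.ncard * (orbit G B).ncard ≤ B.ncard * 1 := Nat.mul_le_mul_left _ this
    omega
  have hclt : (orbit G B).ncard < Nat.card Y := by
    have : 2 * (orbit G B).ncard ≤ B.ncard * (orbit G B).ncard := Nat.mul_le_mul_right _ hb2
    omega
  have hcardO : Nat.card (orbit G B) = (orbit G B).ncard := Nat.card_coe_set_eq _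
  have hfinO : Finite (orbit G B) := inferInstance
  let K : ℕ → Prop := fun j => ∀ g ∈ derivedSeries G j, ∀ b : orbit G B, g • b = b
  by_cases hKd : K d
  · have hex : ∃ j, K j := ⟨d, hKd⟩
    have hle : Nat.find hex ≤ d := Nat.find_min' hex hKd
    obtain ⟨i, hi⟩ := Nat.exists_eq_add_of_le hle
    refine ⟨B.ncard, (orbit G B).ncard, Nat.find hex, i, Or.inl ⟨hmul, hb2, hc2, hi.symm, ?_, ?_⟩⟩
    · rcases hf : Nat.find hex with _ | a
      · have : fj 0 = 1 := rfl
        omega
      · have hna : ¬ K a := Nat.find_min hex (by omega)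
        simp only [K] at hna
        push Not at hna
        obtain ⟨g', hg', b, hb⟩ := hna
        have := P (orbit G B) G hsolv (by omega) a g' hg' b hb
        rw [hcardO] at this
        exact this
    · -- the kernel
      have hKf : K (Nat.find hex) := Nat.find_spec hex
      let N : Subgroup G := (MulAction.toPermHom G (orbit G B)).ker
      have hN : ∀ n ∈ N, ∀ b : orbit G B, n • b = b := by
        intro n hn b
        have := MonoidHom.mem_ker.mp hn
        exact congrFun (congrArg DFunLike.coe this) b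
      have hDN : derivedSeries G (Nat.find hex) ≤ N := by
        intro g' hg'
        rw [MonoidHom.mem_ker]
        ext b
        rw [show (MulAction.toPermHom G (orbit G B)) g' b = g' • b from rfl, hKf g' hg' b]
        rfl
      have hgN := derived_le_map N hDN i
      rw [hi] at hg
      obtain ⟨n, hn, hng⟩ := hgN hg
      have hng' : (n : G) = g := hng
      -- the block containing y
      obtain ⟨b0, hb0⟩ := hBne
      obtain ⟨g1, hg1⟩ := exists_smul_eq G b0 y
      have hyB : y ∈ g1 • B := ⟨b0, hb0, hg1⟩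
      have hinv : ∀ (n : N) (x : Y), x ∈ g1 • B → (n : G) • x ∈ g1 • B := by
        intro n x hx
        have h3 := hN n n.2 ⟨g1 • B, ⟨g1, rfl⟩⟩
        have h4 : (n : G) • (g1 • B) = g1 • B := congrArg Subtype.val h3
        rw [← h4]
        exact Set.smul_mem_smul_set hx
      let _ : MulAction N (g1 • B : Set Y) :=
        { smul := fun n x => ⟨(n : G) • (x : Y), hinv n x x.2⟩
          one_smul := fun x => Subtype.ext (one_smul G (x : Y))
          mul_smul := fun m n x => Subtype.ext (mul_smul (m : G) (n : G) (x : Y)) }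
      have hcB : Nat.card (g1 • B : Set Y) = B.ncard := by
        rw [Nat.card_coe_set_eq, Set.ncard_smul_set]
      have := P (g1 • B : Set Y) N inferInstance (by omega) i n hn ⟨y, hyB⟩ (by
        intro h3
        apply hy
        rw [← hng']
        exact congrArg Subtype.val h3)
      rw [hcB] at this
      exact this
  · simp only [K] at hKd
    push Not at hKd
    obtain ⟨g', hg', b, hb⟩ := hKd
    have := P (orbit G B) G hsolv (by omega) d g' hg' b hb
    rw [hcardO] at this
    exact ⟨B.ncard, (orbit G B).ncard, 0, 0, Or.inr ⟨hmul, hb2, this⟩⟩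

end Pool.Agent.Work.MP_403fb3_al_helper9
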