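import Pool.Agent.Work.MP_403fb3_al_helper9.Wr

/-!
# Two-generated subgroups of wreath products
-/

namespace Pool.Agent.Work.MP_403fb3_al_helper9

open Subgroup

/-- The free group of rank two. -/
abbrev F2 : Type := FreeGroup (Fin 2)

/-- The homomorphism determined by a pair. -/
abbrev ev2 {G : Type} [Group G] (a b : G) : F2 →* G := FreeGroup.lift ![a, b]

@[simp] theorem ev2_zero {G : Type} [Group G] (a b : G) : ev2 a b (FreeGroup.of 0) = a := by
  simp [ev2]

@[simp] theorem ev2_one {G : Type} [Group G] (a b : G) : ev2 a b (FreeGroup.of 1) = b := by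
  simp [ev2]

theorem ev2_comp {G G' : Type} [Group G] [Group G'] (h : G →* G') (a b : G) (w : F2) :
    h (ev2 a b w) = ev2 (h a) (h b) w := by
  have : h.comp (ev2 a b) = ev2 (h a) (h b) := by
    apply FreeGroup.ext_hom
    intro i
    fin_cases i <;> simp [ev2]
  exact DFunLike.congr_fun this w

/-- `a, b` generate a soluble group of derived length exactly `d + 1`. -/
def GG {G : Type} [Group G] (a b : G) (d : ℕ) : Prop :=
  (∀ w ∈ derivedSeries F2 (d + 1), ev2 a b w = 1) ∧ ∃ w ∈ derivedSeries F2 d, ev2 a b w ≠ 1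

theorem GG.map {G G' : Type} [Group G] [Group G'] {a b : G} {d : ℕ} (h : GG a b d) (f : G →* G')
    (hf : Function.Injective f) : GG (f a) (f b) d := by
  obtain ⟨hn, w, hw, hne⟩ := h
  refine ⟨fun w hw => ?_, w, hw, ?_⟩
  · rw [← ev2_comp, hn w hw, map_one]
  · rw [← ev2_comp]
    intro h1
    exact hne ((injective_iff_map_eq_one f).mp hf _ h1)

/-- Derived series of a subgroup containing a term of the derived series. -/
theorem derived_le_map' {G : Type} [Group G] (N : Subgroup G) {a : ℕ} (h : derivedSeries G a ≤ N)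
    (i : ℕ) : derivedSeries G (a + i) ≤ (derivedSeries N i).map N.subtype := by
  induction i with
  | zero =>
    rw [derivedSeries_zero, ← MonoidHom.range_eq_map, Subgroup.range_subtype]
    exact h
  | succ i ih =>
    calc derivedSeries G (a + (i + 1)) = ⁅derivedSeries G (a + i), derivedSeries G (a + i)⁆ := rfl
      _ ≤ ⁅(derivedSeries N i).map N.subtype, (derivedSeries N i).map N.subtype⁆ :=
        Subgroup.commutator_mono ih ih
      _ = (derivedSeries N (i + 1)).map N.subtype := (Subgroup.map_commutator _ _ _).symm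

theorem map_le_derived {G : Type} [Group G] (a i : ℕ) :
    (derivedSeries (derivedSeries G a) i).map (derivedSeries G a).subtype ≤
      derivedSeries G (a + i) := by
  induction i with
  | zero =>
    rw [derivedSeries_zero, ← MonoidHom.range_eq_map, Subgroup.range_subtype]
    exact le_refl _
  | succ i ih =>
    calc (derivedSeries (derivedSeries G a) (i + 1)).map (derivedSeries G a).subtype
        = ⁅(derivedSeries (derivedSeries G a) i).map (derivedSeries G a).subtype,
            (derivedSeries (derivedSeries G a) i).map (derivedSeries G a).subtype⁆ :=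
          Subgroup.map_commutator _ _ _
      _ ≤ ⁅derivedSeries G (a + i), derivedSeries G (a + i)⁆ := Subgroup.commutator_mono ih ih
      _ = derivedSeries G (a + (i + 1)) := rfl

section core

variable {F D B : Type} [Group F] [Group B]

/-- Evaluation at a point on a subgroup acting trivially on `D`. -/
def evAt (Φ : F →* Wr D B) (N : Subgroup F) (hN : ∀ w ∈ N, (Φ w).s = 1) (d : D) : N →* B where
  toFun w := (Φ w).f d
  map_one' := by simp
  map_mul' w w' := by
    have h1 := hN w' w'.2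
    simp [h1]

theorem normal_sup_commutator {B : Type} [Group B] (hB : Group.IsSolvable B) (N : Subgroup B)
    [hN : N.Normal] (h : ∀ b : B, ∃ n ∈ N, n * b⁻¹ ∈ commutator B) : N = ⊤ := by
  by_contra hne
  have hnt : Nontrivial (B ⧸ N) := by
    by_contra hs
    rw [not_nontrivial_iff_subsingleton] at hs
    exact hne (QuotientGroup.subgroup_eq_top_of_subsingleton N hs)
  have h1 := Group.IsSolvable.commutator_lt_top_of_nontrivial (G := B ⧸ N)
  apply h1.ne
  rw [eq_top_iff]
  intro q _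
  obtain ⟨b, rfl⟩ := QuotientGroup.mk'_surjective N q
  obtain ⟨n, hn, hc⟩ := h b
  have h2 : QuotientGroup.mk' N (n * b⁻¹) ∈ commutator (B ⧸ N) := by
    have h3 : (derivedSeries B 1).map (QuotientGroup.mk' N) ≤ derivedSeries (B ⧸ N) 1 :=
      map_derivedSeries_le_derivedSeries _ 1
    exact h3 (Subgroup.mem_map_of_mem _ hc)
  rw [map_mul, map_inv, (QuotientGroup.eq_one_iff n).mpr hn |> fun h => (show
    QuotientGroup.mk' N n = 1 from h), one_mul] at h2
  exact inv_mem_iff.mp h2

theorem top_core (Φ : F →* Wr D B) (d0 : D) (m : ℕ)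
    (hm : ∀ w ∈ derivedSeries F m, (Φ w).s = 1)
    (h1 : ∀ b : B, ∃ k : F, (Φ k).s d0 = d0 ∧ (Φ k).f d0 = b)
    (h2 : ∀ b : B, ∃ w ∈ derivedSeries F m, (Φ w).f d0 * b⁻¹ ∈ commutator B)
    (hB : Group.IsSolvable B) {j : ℕ} (hj : derivedSeries B j ≠ ⊥) :
    ∃ w ∈ derivedSeries F (m + j), Φ w ≠ 1 := by
  let e := evAt Φ (derivedSeries F m) hm d0
  have he : ∀ w : derivedSeries F m, e w = (Φ w).f d0 := fun w => rfl
  have hnormal : e.range.Normal := by
    refine ⟨fun n hn b => ?_⟩
    obtain ⟨w, rfl⟩ := hn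
    obtain ⟨k, hk1, hk2⟩ := h1 b
    have hk3 : (Φ k).s⁻¹ d0 = d0 := by
      rw [Equiv.Perm.inv_eq_iff_eq]; exact hk1.symm
    refine ⟨⟨k * w * k⁻¹, Subgroup.Normal.conj_mem inferInstance _ w.2 k⟩, ?_⟩
    rw [he, he]
    simp only [map_mul, map_inv, Wr.mul_f, Wr.inv_s, Wr.inv_f, hk3, hm w w.2, hk2,
      Equiv.Perm.coe_one, id_eq]
  have hsurj : Function.Surjective e := by
    rw [← MonoidHom.range_eq_top]
    apply normal_sup_commutator hB
    intro b
    obtain ⟨w, hw, hc⟩ := h2 b
    exact ⟨(Φ w).f d0, ⟨⟨w, hw⟩, rfl⟩, hc⟩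
  have hmap := map_derivedSeries_eq hsurj j
  obtain ⟨b, hb⟩ := (Subgroup.ne_bot_iff_exists_ne_one).mp hj
  have hb' : (b : B) ∈ (derivedSeries (derivedSeries F m) j).map e := by rw [hmap]; exact b.2
  obtain ⟨w, hw, hwb⟩ := hb'
  refine ⟨w, map_le_derived m j (Subgroup.mem_map_of_mem _ hw), fun h0 => ?_⟩
  apply hb
  apply Subtype.ext
  rw [← hwb, he, h0]
  rfl

theorem top_solv (Φ : F →* Wr D B) (m : ℕ) (hm : ∀ w ∈ derivedSeries F m, (Φ w).s = 1)
    {n : ℕ} (hn : derivedSeries B n = ⊥) : ∀ w ∈ derivedSeries F (m + n), Φ w = 1 := by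
  intro w hw
  obtain ⟨x, hx, rfl⟩ := derived_le_map' (derivedSeries F m) le_rfl n hw
  apply Wr.ext
  · funext d
    have h1 : evAt Φ (derivedSeries F m) hm d x ∈ derivedSeries B n :=
      map_derivedSeries_le_derivedSeries _ n (Subgroup.mem_map_of_mem _ hx)
    rw [hn, Subgroup.mem_bot] at h1
    exact h1
  · exact hm x x.2

end core

/-- Some element of the `m`-th derived subgroup has label `z` at `d`. -/
def HasWord {D B : Type} [Group B] (A A' : Wr D B) (m : ℕ) (d : D) (z : B) : Prop :=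
  ∃ w ∈ derivedSeries F2 m, (ev2 A A' w).f d = z

/-- The data of a top group. -/
structure TopData (D : Type) (m : ℕ) where
  /-- first generator -/
  T1 : ∀ {B : Type} [Group B], B → B → Wr D B
  /-- second generator -/
  T2 : ∀ {B : Type} [Group B], B → B → Wr D B
  nat1 : ∀ {B C : Type} [Group B] [Group C] (h : B →* C) (b1 b2 : B),
    Wr.map h (T1 b1 b2) = T1 (h b1) (h b2)
  nat2 : ∀ {B C : Type} [Group B] [Group C] (h : B →* C) (b1 b2 : B),
    Wr.map h (T2 b1 b2) = T2 (h b1) (h b2)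
  /-- the first permutation -/
  a1 : Equiv.Perm D
  /-- the second permutation -/
  a2 : Equiv.Perm D
  s1 : ∀ {B : Type} [Group B] (b1 b2 : B), (T1 b1 b2).s = a1
  s2 : ∀ {B : Type} [Group B] (b1 b2 : B), (T2 b1 b2).s = a2
  hm : ∀ w ∈ derivedSeries F2 m, ev2 a1 a2 w = 1
  /-- the base point -/
  d0 : D
  k1 : F2
  k2 : F2
  hk1 : ∀ {B : Type} [Group B] (b1 b2 : B), (ev2 (T1 b1 b2) (T2 b1 b2) k1).s d0 = d0 ∧
    (ev2 (T1 b1 b2) (T2 b1 b2) k1).f d0 = b1
  hk2 : ∀ {B : Type} [Group B] (b1 b2 : B), (ev2 (T1 b1 b2) (T2 b1 b2) k2).s d0 = d0 ∧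
    (ev2 (T1 b1 b2) (T2 b1 b2) k2).f d0 = b2
  hz1 : HasWord (T1 (B := ZZ) (Multiplicative.ofAdd 1, 1) (1, Multiplicative.ofAdd 1))
    (T2 (Multiplicative.ofAdd 1, 1) (1, Multiplicative.ofAdd 1)) m d0 (Multiplicative.ofAdd 1, 1)
  hz2 : HasWord (T1 (B := ZZ) (Multiplicative.ofAdd 1, 1) (1, Multiplicative.ofAdd 1))
    (T2 (Multiplicative.ofAdd 1, 1) (1, Multiplicative.ofAdd 1)) m d0 (1, Multiplicative.ofAdd 1)

/-- A homomorphism from `ZZ` with given values on the basis. -/
def zzHom {C : Type} [CommGroup C] (c1 c2 : C) : ZZ →* C :=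
  MonoidHom.coprod (zpowersHom C c1) (zpowersHom C c2)

theorem zzHom_one {C : Type} [CommGroup C] (c1 c2 : C) :
    zzHom c1 c2 (Multiplicative.ofAdd 1, 1) = c1 := by
  simp [zzHom]

theorem zzHom_two {C : Type} [CommGroup C] (c1 c2 : C) :
    zzHom c1 c2 (1, Multiplicative.ofAdd 1) = c2 := by
  simp [zzHom]

variable {D : Type} {m : ℕ}

theorem TopData.solv_and_series (td : TopData D m) {B : Type} [Group B] (b1 b2 : B)
    (hgen : Function.Surjective (ev2 b1 b2)) {j : ℕ} (hj' : derivedSeries B (j + 1) = ⊥)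
    (hj : derivedSeries B j ≠ ⊥) : GG (td.T1 b1 b2) (td.T2 b1 b2) (m + j) := by
  have hB : Group.IsSolvable B := (Group.isSolvable_def B).mpr ⟨_, hj'⟩
  set Φ : F2 →* Wr D B := ev2 (td.T1 b1 b2) (td.T2 b1 b2) with hΦ
  have hs : ∀ w, (Φ w).s = ev2 td.a1 td.a2 w := by
    intro w
    have := ev2_comp (Wr.toPerm (D := D) (B := B)) (td.T1 b1 b2) (td.T2 b1 b2) w
    change (Φ w).s = ev2 (td.T1 b1 b2).s (td.T2 b1 b2).s w at this
    rw [this, td.s1, td.s2]
  have hm : ∀ w ∈ derivedSeries F2 m, (Φ w).s = 1 := fun w hw => by rw [hs, td.hm w hw]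
  refine ⟨top_solv Φ m hm hj', top_core Φ td.d0 m hm ?_ ?_ hB hj⟩
  · -- the holonomy group is everything
    intro b
    obtain ⟨w, rfl⟩ := hgen b
    let K : Subgroup F2 :=
      { carrier := {k | (Φ k).s td.d0 = td.d0}
        mul_mem' := by
          intro a b ha hb
          change (Φ (a * b)).s td.d0 = td.d0
          rw [map_mul, Wr.mul_s, Equiv.Perm.mul_apply, hb, ha]
        one_mem' := by
          change (Φ 1).s td.d0 = td.d0
          rw [map_one]; rfl
        inv_mem' := by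
          intro a ha
          change (Φ a⁻¹).s td.d0 = td.d0
          rw [map_inv, Wr.inv_s, Equiv.Perm.inv_eq_iff_eq]
          exact Eq.symm ha }
    let e : K →* B :=
      { toFun := fun k => (Φ k).f td.d0
        map_one' := by simp
        map_mul' := by
          intro x y
          have hy : (Φ y).s td.d0 = td.d0 := y.2
          simp [hy] }
    have hk : ev2 b1 b2 w ∈ e.range := by
      have h1 : b1 ∈ e.range := ⟨⟨td.k1, (td.hk1 b1 b2).1⟩, (td.hk1 b1 b2).2⟩
      have h2 : b2 ∈ e.range := ⟨⟨td.k2, (td.hk2 b1 b2).1⟩, (td.hk2 b1 b2).2⟩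
      have : ev2 b1 b2 = (e.range.subtype).comp (ev2 (⟨b1, h1⟩ : e.range) ⟨b2, h2⟩) := by
        apply FreeGroup.ext_hom
        intro i
        fin_cases i <;> simp [ev2]
      rw [this]
      exact Subtype.prop _
    obtain ⟨k, hk⟩ := hk
    exact ⟨k, k.2, hk⟩
  · -- surjectivity modulo the commutator subgroup
    intro b
    let q : B →* Abelianization B := Abelianization.of
    have hq : ∀ w : F2, q ((Φ w).f td.d0) = zzHom (q b1) (q b2)
        ((ev2 (td.T1 (B := ZZ) (Multiplicative.ofAdd 1, 1) (1, Multiplicative.ofAdd 1))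
          (td.T2 (Multiplicative.ofAdd 1, 1) (1, Multiplicative.ofAdd 1)) w).f td.d0) := by
      intro w
      have h1 := ev2_comp (Wr.map (D := D) q) (td.T1 b1 b2) (td.T2 b1 b2) w
      have h2 := ev2_comp (Wr.map (D := D) (zzHom (q b1) (q b2)))
        (td.T1 (B := ZZ) (Multiplicative.ofAdd 1, 1) (1, Multiplicative.ofAdd 1))
          (td.T2 (Multiplicative.ofAdd 1, 1) (1, Multiplicative.ofAdd 1)) w
      rw [td.nat1, td.nat2] at h1 h2
      rw [zzHom_one, zzHom_two] at h2
      have h3 := h1.trans h2.symm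
      exact congrFun (congrArg Wr.f h3) td.d0
    have hmem : ∀ w : F2, ∃ v ∈ derivedSeries F2 m, q ((Φ v).f td.d0) = q (ev2 b1 b2 w) := by
      have hcl : ∀ w : F2, ∃ v : derivedSeries F2 m,
          (q.comp (evAt Φ (derivedSeries F2 m) hm td.d0)) v = q (ev2 b1 b2 w) := by
        intro w
        have h1 : q b1 ∈ (q.comp (evAt Φ (derivedSeries F2 m) hm td.d0)).range := by
          obtain ⟨w1, hw1, hz1⟩ := td.hz1
          refine ⟨⟨w1, hw1⟩, ?_⟩
          change q ((Φ w1).f td.d0) = q b1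
          rw [hq, hz1, zzHom_one]
        have h2 : q b2 ∈ (q.comp (evAt Φ (derivedSeries F2 m) hm td.d0)).range := by
          obtain ⟨w2, hw2, hz2⟩ := td.hz2
          refine ⟨⟨w2, hw2⟩, ?_⟩
          change q ((Φ w2).f td.d0) = q b2
          rw [hq, hz2, zzHom_two]
        set R := (q.comp (evAt Φ (derivedSeries F2 m) hm td.d0)).range with hR
        have h3 : q (ev2 b1 b2 w) ∈ R := by
          have : q (ev2 b1 b2 w) = ((R.subtype).comp (ev2 (⟨q b1, h1⟩ : R) ⟨q b2, h2⟩)) w := by
            rw [ev2_comp]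
            rw [MonoidHom.comp_apply, ev2_comp]
            rfl
          rw [this]
          exact Subtype.prop _
        obtain ⟨v, hv⟩ := h3
        exact ⟨v, hv⟩
      intro w
      obtain ⟨v, hv⟩ := hcl w
      exact ⟨v, v.2, hv⟩
    obtain ⟨w, rfl⟩ := hgen b
    obtain ⟨v, hv, hv2⟩ := hmem w
    refine ⟨v, hv, ?_⟩
    rw [← Abelianization.ker_of, MonoidHom.mem_ker, map_mul, map_inv]
    exact mul_inv_eq_one.mpr hv2

/-- The top construction in an arbitrary ambient group. -/
theorem TopData.gg (td : TopData D m) {G : Type} [Group G] (b1 b2 : G) {j : ℕ}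
    (h : GG b1 b2 j) : GG (td.T1 b1 b2) (td.T2 b1 b2) (m + j) := by
  obtain ⟨hn, w, hw, hne⟩ := h
  set R := (ev2 b1 b2).range with hR
  let c1 : R := ⟨b1, ⟨FreeGroup.of 0, by simp⟩⟩
  let c2 : R := ⟨b2, ⟨FreeGroup.of 1, by simp⟩⟩
  have hsub : ∀ w, ((ev2 c1 c2 w : R) : G) = ev2 b1 b2 w := fun w =>
    ev2_comp R.subtype c1 c2 w
  have hsurj : Function.Surjective (ev2 c1 c2) := by
    rintro ⟨_, w, rfl⟩
    exact ⟨w, Subtype.ext (hsub w)⟩
  have hsol : derivedSeries R (j + 1) = ⊥ := by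
    rw [← map_derivedSeries_eq hsurj (j + 1), eq_bot_iff]
    rintro _ ⟨w, hw, rfl⟩
    rw [Subgroup.mem_bot]
    apply Subtype.ext
    rw [hsub, hn w hw]
    rfl
  have hj : derivedSeries R j ≠ ⊥ := by
    intro h0
    apply hne
    have : ev2 c1 c2 w ∈ derivedSeries R j := by
      rw [← map_derivedSeries_eq hsurj j]
      exact Subgroup.mem_map_of_mem _ hw
    rw [h0, Subgroup.mem_bot] at this
    rw [← hsub, this]
    rfl
  have h1 := td.solv_and_series c1 c2 hsurj hsol hj
  have h2 := h1.map (Wr.map (D := D) R.subtype) (by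
    intro x y hxy
    apply Wr.ext
    · funext d
      have := congrFun (congrArg Wr.f hxy) d
      exact Subtype.ext this
    · exact congrArg (fun z : Wr D G => z.s) hxy)
  rw [td.nat1, td.nat2] at h2
  exact h2

end Pool.Agent.Work.MP_403fb3_al_helper9
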