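import Pool.Agent.Work.MP_403fb3_al_helper9.Top
import Pool.Agent.Work.MP_403fb3_al_helper9.AG
import Pool.Agent.Work.MP_403fb3_al_helper9.S4

/-!
# The top groups `S_4` and `AGL_2(3)` with explicit words
-/

namespace Pool.Agent.Work.MP_403fb3_al_helper9

open Subgroup
open scoped commutatorElement

/-- first free generator -/
abbrev x1 : F2 := FreeGroup.of 0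
/-- second free generator -/
abbrev x2 : F2 := FreeGroup.of 1

theorem comm_mem_derived {F : Type} [Group F] {n : ℕ} {u v : F} (hu : u ∈ derivedSeries F n)
    (hv : v ∈ derivedSeries F n) : ⁅u, v⁆ ∈ derivedSeries F (n + 1) :=
  Subgroup.commutator_mem_commutator hu hv

theorem mem_derived_zero {F : Type} [Group F] (u : F) : u ∈ derivedSeries F 0 := Subgroup.mem_top u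

/-- an explicit word -/
def u41 : F2 := ⁅⁅⁅x2 * x1⁻¹ * x2⁻¹, x1⁻¹ * x2⁻¹ * x1⁆, ⁅x1⁻¹ * x2 * x1⁻¹, x1 * x1 * x2⁆⁆, ⁅⁅x1 * x1 * x2, x2⁻¹ * x1 * x2⁻¹⁆, ⁅x1⁻¹ * x2, x1 * x1 * x2⁻¹⁆⁆⁆

/-- the same word in a group -/
def u41f {G : Type} [Group G] (y1 y2 : G) : G := ⁅⁅⁅y2 * y1⁻¹ * y2⁻¹, y1⁻¹ * y2⁻¹ * y1⁆, ⁅y1⁻¹ * y2 * y1⁻¹, y1 * y1 * y2⁆⁆, ⁅⁅y1 * y1 * y2, y2⁻¹ * y1 * y2⁻¹⁆, ⁅y1⁻¹ * y2, y1 * y1 * y2⁻¹⁆⁆⁆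

theorem u41_ev {G : Type} [Group G] (y1 y2 : G) : ev2 y1 y2 u41 = u41f y1 y2 := by
  simp only [u41, u41f, map_commutatorElement, map_mul, map_inv, ev2_zero, ev2_one]

theorem u41_mem : u41 ∈ derivedSeries F2 3 := by
  unfold u41
  repeat' first | exact mem_derived_zero _ | apply comm_mem_derived

/-- an explicit word -/
def u42 : F2 := ⁅⁅⁅x2 * x1⁻¹ * x2⁻¹, x1⁻¹ * x2⁻¹ * x1⁆, ⁅x1⁻¹ * x2 * x1⁻¹, x1 * x1 * x2⁆⁆, ⁅⁅x1 * x1 * x2⁻¹, x1 * x2 * x1⁆, ⁅x2 * x1⁻¹ * x2⁻¹, x1⁻¹ * x2 * x1⁆⁆⁆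

/-- the same word in a group -/
def u42f {G : Type} [Group G] (y1 y2 : G) : G := ⁅⁅⁅y2 * y1⁻¹ * y2⁻¹, y1⁻¹ * y2⁻¹ * y1⁆, ⁅y1⁻¹ * y2 * y1⁻¹, y1 * y1 * y2⁆⁆, ⁅⁅y1 * y1 * y2⁻¹, y1 * y2 * y1⁆, ⁅y2 * y1⁻¹ * y2⁻¹, y1⁻¹ * y2 * y1⁆⁆⁆

theorem u42_ev {G : Type} [Group G] (y1 y2 : G) : ev2 y1 y2 u42 = u42f y1 y2 := by
  simp only [u42, u42f, map_commutatorElement, map_mul, map_inv, ev2_zero, ev2_one]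

theorem u42_mem : u42 ∈ derivedSeries F2 3 := by
  unfold u42
  repeat' first | exact mem_derived_zero _ | apply comm_mem_derived

/-- an explicit word -/
def uE1 : F2 := ⁅⁅⁅⁅⁅x2 * x1 * x2⁻¹, x2⁻¹ * x1 * x1⁆, ⁅x1 * x2⁻¹ * x1, x2 * x1⁻¹ * x2⁻¹⁆⁆, ⁅⁅x1 * x2⁻¹ * x1, x1 * x1 * x2⁻¹⁆, ⁅x2, x1⁻¹ * x2⁻¹ * x1⁆⁆⁆, ⁅⁅⁅x1 * x2 * x1⁻¹, x1⁻¹ * x2⁻¹ * x2⁻¹⁆, ⁅x2⁻¹ * x1 * x1, x2 * x1⁻¹⁆⁆, ⁅⁅x2⁻¹ * x2⁻¹ * x1, x2⁻¹ * x1⁻¹ * x2⁆, ⁅x2 * x1⁻¹ * x1⁻¹, x1 * x2 * x2⁆⁆⁆⁆, ⁅⁅⁅⁅x2 * x1 * x2⁻¹, x1⁻¹ * x1⁻¹ * x2⁆, ⁅x1⁻¹ * x2⁻¹ * x2⁻¹, x1 * x2⁻¹ * x1⁆⁆, ⁅⁅x1 * x2⁻¹ * x2⁻¹, x1 * x1 * x2⁻¹⁆, ⁅x2 * x1 * x1, x2 * x1⁻¹⁆⁆⁆, ⁅⁅⁅x2 * x1⁻¹ * x2, x2 * x1⁻¹⁆, ⁅x2 * x1, x2 * x1 * x2⁆⁆, ⁅⁅x1 * x2, x1 * x2 * x1⁻¹⁆, ⁅x2 * x2, x1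 * x2⁻¹ * x1⁆⁆⁆⁆⁆

/-- the same word in a group -/
def uE1f {G : Type} [Group G] (y1 y2 : G) : G := ⁅⁅⁅⁅⁅y2 * y1 * y2⁻¹, y2⁻¹ * y1 * y1⁆, ⁅y1 * y2⁻¹ * y1, y2 * y1⁻¹ * y2⁻¹⁆⁆, ⁅⁅y1 * y2⁻¹ * y1, y1 * y1 * y2⁻¹⁆, ⁅y2, y1⁻¹ * y2⁻¹ * y1⁆⁆⁆, ⁅⁅⁅y1 * y2 * y1⁻¹, y1⁻¹ * y2⁻¹ * y2⁻¹⁆, ⁅y2⁻¹ * y1 * y1, y2 * y1⁻¹⁆⁆, ⁅⁅y2⁻¹ * y2⁻¹ * y1, y2⁻¹ * y1⁻¹ * y2⁆, ⁅y2 * y1⁻¹ * y1⁻¹, y1 * y2 * y2⁆⁆⁆⁆, ⁅⁅⁅⁅y2 * y1 * y2⁻¹, y1⁻¹ * y1⁻¹ * y2⁆, ⁅y1⁻¹ * y2⁻¹ * y2⁻¹, y1 * y2⁻¹ * y1⁆⁆, ⁅⁅y1 * y2⁻¹ * y2⁻¹, y1 * y1 * y2⁻¹⁆, ⁅y2 * y1 * y1, y2 * y1⁻¹⁆⁆⁆, ⁅⁅⁅y2 * y1⁻¹ * y2, y2 * y1⁻¹⁆, ⁅y2 * y1, y2 * y1 * y2⁆⁆, ⁅⁅y1 * y2, y1 * y2 * y1⁻¹⁆, ⁅y2 * y2, y1 * y2⁻¹ * y1⁆⁆⁆⁆⁆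

theorem uE1_ev {G : Type} [Group G] (y1 y2 : G) : ev2 y1 y2 uE1 = uE1f y1 y2 := by
  simp only [uE1, uE1f, map_commutatorElement, map_mul, map_inv, ev2_zero, ev2_one]

theorem uE1_mem : uE1 ∈ derivedSeries F2 5 := by
  unfold uE1
  repeat' first | exact mem_derived_zero _ | apply comm_mem_derived

/-- an explicit word -/
def uE2 : F2 := ⁅⁅⁅⁅⁅x2 * x1 * x2⁻¹, x2⁻¹ * x1 * x1⁆, ⁅x1 * x2⁻¹ * x1, x2 * x1⁻¹ * x2⁻¹⁆⁆, ⁅⁅x1 * x2⁻¹ * x1, x1 * x1 * x2⁻¹⁆, ⁅x2, x1⁻¹ * x2⁻¹ * x1⁆⁆⁆, ⁅⁅⁅x1 * x2 * x1⁻¹, x1⁻¹ * x2⁻¹ * x2⁻¹⁆, ⁅x2⁻¹ * x1 * x1, x2 * x1⁻¹⁆⁆, ⁅⁅x2⁻¹ * x2⁻¹ * x1, x2⁻¹ * x1⁻¹ * x2⁆, ⁅x2 * x1⁻¹ * x1⁻¹, x1 * x2 * x2⁆⁆⁆⁆, ⁅⁅⁅⁅x1 * x2 * x2, x1⁆, ⁅x2⁻¹ * x2⁻¹ * x1, x2⁻¹ * x2⁻¹ * x1⁻¹⁆⁆, ⁅⁅x1 * x2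 * x1, x2⁻¹ * x1⁻¹ * x2⁆, ⁅x1⁻¹ * x2⁻¹ * x1, x2⁻¹ * x1 * x1⁆⁆⁆, ⁅⁅⁅x1⁻¹ * x1⁻¹ * x2⁻¹, x2 * x2 * x1⁆, ⁅x2 * x2 * x1⁻¹, x2⁻¹ * x1 * x1⁆⁆, ⁅⁅x1 * x2, x2 * x1⁆, ⁅x1 * x2⁻¹ * x1, x2 * x1⁻¹ * x2⁻¹⁆⁆⁆⁆⁆

/-- the same word in a group -/
def uE2f {G : Type} [Group G] (y1 y2 : G) : G := ⁅⁅⁅⁅⁅y2 * y1 * y2⁻¹, y2⁻¹ * y1 * y1⁆, ⁅y1 * y2⁻¹ * y1, y2 * y1⁻¹ * y2⁻¹⁆⁆, ⁅⁅y1 * y2⁻¹ * y1, y1 * y1 * y2⁻¹⁆, ⁅y2, y1⁻¹ * y2⁻¹ * y1⁆⁆⁆, ⁅⁅⁅y1 * y2 * y1⁻¹, y1⁻¹ * y2⁻¹ * y2⁻¹⁆, ⁅y2⁻¹ * y1 * y1, y2 * y1⁻¹⁆⁆, ⁅⁅y2⁻¹ * y2⁻¹ * y1, y2⁻¹ * y1⁻¹ * y2⁆, ⁅y2 * y1⁻¹ * y1⁻¹, y1 * y2 * y2⁆⁆⁆⁆, ⁅⁅⁅⁅y1 * y2 * y2, y1⁆, ⁅y2⁻¹ * y2⁻¹ * y1, y2⁻¹ * y2⁻¹ * y1⁻¹⁆⁆, ⁅⁅y1 * y2 * y1, y2⁻¹ * y1⁻¹ * y2⁆, ⁅y1⁻¹ * y2⁻¹ * y1, y2⁻¹ * y1 * y1⁆⁆⁆,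 ⁅⁅⁅y1⁻¹ * y1⁻¹ * y2⁻¹, y2 * y2 * y1⁆, ⁅y2 * y2 * y1⁻¹, y2⁻¹ * y1 * y1⁆⁆, ⁅⁅y1 * y2, y2 * y1⁆, ⁅y1 * y2⁻¹ * y1, y2 * y1⁻¹ * y2⁻¹⁆⁆⁆⁆⁆

theorem uE2_ev {G : Type} [Group G] (y1 y2 : G) : ev2 y1 y2 uE2 = uE2f y1 y2 := by
  simp only [uE2, uE2f, map_commutatorElement, map_mul, map_inv, ev2_zero, ev2_one]

theorem uE2_mem : uE2 ∈ derivedSeries F2 5 := by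
  unfold uE2
  repeat' first | exact mem_derived_zero _ | apply comm_mem_derived

/-- an explicit word -/
def uO1 : F2 := ⁅⁅⁅⁅⁅x2 * x1⁻¹, x1⁻¹ * x1⁻¹ * x1⁻¹⁆, ⁅x1⁻¹ * x2⁻¹ * x1⁻¹, x2 * x1⁻¹ * x2⁆⁆, ⁅⁅x2⁻¹ * x2⁻¹ * x1⁻¹, x2 * x1 * x1⁆, ⁅x1 * x2 * x1, x2⁻¹ * x1 * x2⁻¹⁆⁆⁆, ⁅⁅⁅x1 * x2⁻¹ * x1, x2⁻¹ * x2⁻¹ * x1⁻¹⁆, ⁅x1⁻¹ * x2, x1⁻¹ * x2 * x2⁆⁆, ⁅⁅x1 * x1 * x2, x1 * x2⁻¹ * x2⁻¹⁆, ⁅x1 * x2⁻¹ * x1⁻¹, x2⁻¹⁆⁆⁆⁆, ⁅⁅⁅⁅x2 * x1 * x1, x1 * x2⁻¹ * x1⁻¹⁆, ⁅x2 * x2 * x1, x1 * x1 * x2⁆⁆, ⁅⁅x1⁻¹ * x1⁻¹ * x2, x2 * x2 * x1⁻¹⁆, ⁅x1⁻¹ * x1⁻¹ * x2⁻¹, x1 * x2 * x2⁆⁆⁆, ⁅⁅⁅x1 * x1 * x1, x1 * x2⁻¹ * x1⁆, ⁅x1 * x1 * x2⁻¹, x2⁻¹ * x1⁻¹ * x2⁆⁆, ⁅⁅x1⁻¹ * x2⁻¹ * x1⁻¹, x1⁻¹ * x2 * x1⁻¹⁆, ⁅x1 * x2⁻¹ * x1, x1 * x2⁻¹ * x1⁻¹⁆⁆⁆⁆⁆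

/-- the same word in a group -/
def uO1f {G : Type} [Group G] (y1 y2 : G) : G := ⁅⁅⁅⁅⁅y2 * y1⁻¹, y1⁻¹ * y1⁻¹ * y1⁻¹⁆, ⁅y1⁻¹ * y2⁻¹ * y1⁻¹, y2 * y1⁻¹ * y2⁆⁆, ⁅⁅y2⁻¹ * y2⁻¹ * y1⁻¹, y2 * y1 * y1⁆, ⁅y1 * y2 * y1, y2⁻¹ * y1 * y2⁻¹⁆⁆⁆, ⁅⁅⁅y1 * y2⁻¹ * y1, y2⁻¹ * y2⁻¹ * y1⁻¹⁆, ⁅y1⁻¹ * y2, y1⁻¹ * y2 * y2⁆⁆, ⁅⁅y1 * y1 * y2, y1 * y2⁻¹ * y2⁻¹⁆, ⁅y1 * y2⁻¹ * y1⁻¹, y2⁻¹⁆⁆⁆⁆, ⁅⁅⁅⁅y2 * y1 * y1, y1 * y2⁻¹ * y1⁻¹⁆, ⁅y2 * y2 * y1, y1 * y1 * y2⁆⁆, ⁅⁅y1⁻¹ * y1⁻¹ * y2, y2 * y2 * y1⁻¹⁆, ⁅y1⁻¹ * y1⁻¹ * y2⁻¹, y1 * y2 * y2⁆⁆⁆, ⁅⁅⁅y1 * y1 * y1, y1 * y2⁻¹ * y1⁆, ⁅y1 * y1 * y2⁻¹, y2⁻¹ * y1⁻¹ * y2⁆⁆, ⁅⁅y1⁻¹ * y2⁻¹ * y1⁻¹, y1⁻¹ * y2 * y1⁻¹⁆, ⁅y1 * y2⁻¹ * y1, y1 * y2⁻¹ * y1⁻¹⁆⁆⁆⁆⁆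

theorem uO1_ev {G : Type} [Group G] (y1 y2 : G) : ev2 y1 y2 uO1 = uO1f y1 y2 := by
  simp only [uO1, uO1f, map_commutatorElement, map_mul, map_inv, ev2_zero, ev2_one]

theorem uO1_mem : uO1 ∈ derivedSeries F2 5 := by
  unfold uO1
  repeat' first | exact mem_derived_zero _ | apply comm_mem_derived

/-- an explicit word -/
def uO2 : F2 := ⁅⁅⁅⁅⁅x2 * x1⁻¹, x1⁻¹ * x1⁻¹ * x1⁻¹⁆, ⁅x1⁻¹ * x2⁻¹ * x1⁻¹, x2 * x1⁻¹ * x2⁆⁆, ⁅⁅x2⁻¹ * x2⁻¹ * x1⁻¹, x2 * x1 * x1⁆, ⁅x1 * x2 * x1, x2⁻¹ * x1 * x2⁻¹⁆⁆⁆, ⁅⁅⁅x1 * x2⁻¹ * x1, x2⁻¹ * x2⁻¹ * x1⁻¹⁆, ⁅x1⁻¹ * x2, x1⁻¹ * x2 * x2⁆⁆, ⁅⁅x1 * x1 * x2, x1 * x2⁻¹ * x2⁻¹⁆, ⁅x1 * x2⁻¹ * x1⁻¹, x2⁻¹⁆⁆⁆⁆, ⁅⁅⁅⁅x1 * x2, x1⁻¹ * x2⁻¹⁆, ⁅x2 * x1⁻¹ * x2, x1⁻¹ * x2 * x2⁆⁆, ⁅⁅x1⁻¹ *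 x2 * x2, x1 * x1 * x2⁻¹⁆, ⁅x2⁻¹ * x2⁻¹ * x1⁻¹, x1⁻¹ * x1⁻¹ * x2⁻¹⁆⁆⁆, ⁅⁅⁅x1 * x1, x1 * x1 * x2⁆, ⁅x1 * x2, x1 * x1 * x2⁻¹⁆⁆, ⁅⁅x1 * x2⁻¹ * x1, x1 * x1 * x2⁻¹⁆, ⁅x1⁻¹ * x2⁻¹ * x1⁻¹, x2⁻¹ * x2⁻¹ * x1⁻¹⁆⁆⁆⁆⁆

/-- the same word in a group -/
def uO2f {G : Type} [Group G] (y1 y2 : G) : G := ⁅⁅⁅⁅⁅y2 * y1⁻¹, y1⁻¹ * y1⁻¹ * y1⁻¹⁆, ⁅y1⁻¹ * y2⁻¹ * y1⁻¹, y2 * y1⁻¹ * y2⁆⁆, ⁅⁅y2⁻¹ * y2⁻¹ * y1⁻¹, y2 * y1 * y1⁆, ⁅y1 * y2 * y1, y2⁻¹ * y1 * y2⁻¹⁆⁆⁆, ⁅⁅⁅y1 * y2⁻¹ * y1, y2⁻¹ * y2⁻¹ * y1⁻¹⁆, ⁅y1⁻¹ * y2, y1⁻¹ * y2 * y2⁆⁆, ⁅⁅y1 * y1 * y2, y1 * y2⁻¹ * y2⁻¹⁆, ⁅y1 * y2⁻¹ * y1⁻¹, y2⁻¹⁆⁆⁆⁆, ⁅⁅⁅⁅y1 * y2, y1⁻¹ * y2⁻¹⁆, ⁅y2 * y1⁻¹ * y2, y1⁻¹ * y2 * y2⁆⁆, ⁅⁅y1⁻¹ * y2 * y2, y1 * y1 * y2⁻¹⁆, ⁅y2⁻¹ * y2⁻¹ * y1⁻¹, y1⁻¹ *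 y1⁻¹ * y2⁻¹⁆⁆⁆, ⁅⁅⁅y1 * y1, y1 * y1 * y2⁆, ⁅y1 * y2, y1 * y1 * y2⁻¹⁆⁆, ⁅⁅y1 * y2⁻¹ * y1, y1 * y1 * y2⁻¹⁆, ⁅y1⁻¹ * y2⁻¹ * y1⁻¹, y2⁻¹ * y2⁻¹ * y1⁻¹⁆⁆⁆⁆⁆

theorem uO2_ev {G : Type} [Group G] (y1 y2 : G) : ev2 y1 y2 uO2 = uO2f y1 y2 := by
  simp only [uO2, uO2f, map_commutatorElement, map_mul, map_inv, ev2_zero, ev2_one]

theorem uO2_mem : uO2 ∈ derivedSeries F2 5 := by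
  unfold uO2
  repeat' first | exact mem_derived_zero _ | apply comm_mem_derived

/-- the 4-cycle -/
def p1 : Equiv.Perm (Fin 4) := ⟨![1, 2, 3, 0], ![3, 0, 1, 2], by decide, by decide⟩
/-- a transposition -/
def p2 : Equiv.Perm (Fin 4) := ⟨![1, 0, 2, 3], ![1, 0, 2, 3], by decide, by decide⟩

/-- first generator, universal holonomy -/
def t41 : Wr (Fin 4) ZZ := ⟨fun _ => 1, p1⟩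
/-- second generator, universal holonomy -/
def t42 : Wr (Fin 4) ZZ :=
  ⟨![(Multiplicative.ofAdd 1, 1), 1, (1, Multiplicative.ofAdd 1), (Multiplicative.ofAdd 1, 1)⁻¹],
    p2⟩

theorem z41 : (u41f t41 t42).f 0 = (Multiplicative.ofAdd 1, 1) := by decide +kernel
theorem z42 : (u42f t41 t42).f 0 = (1, Multiplicative.ofAdd 1) := by decide +kernel

theorem y41 : HasWord t41 t42 3 0 (Multiplicative.ofAdd 1, 1) :=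
  ⟨u41, u41_mem, by rw [u41_ev]; exact z41⟩
theorem y42 : HasWord t41 t42 3 0 (1, Multiplicative.ofAdd 1) :=
  ⟨u42, u42_mem, by rw [u42_ev]; exact z42⟩

/-- The top group `S_4`. -/
def topS4 : TopData (Fin 4) 3 where
  T1 := fun _ _ => ⟨fun _ => 1, p1⟩
  T2 := fun b1 b2 => ⟨![b1, 1, b2, b1⁻¹], p2⟩
  nat1 h b1 b2 := by
    ext d
    · simp
    · rfl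
  nat2 h b1 b2 := by
    apply Wr.ext
    · funext d
      fin_cases d <;> simp
    · rfl
  a1 := p1
  a2 := p2
  s1 _ _ := rfl
  s2 _ _ := rfl
  hm w hw := by
    have h : ev2 p1 p2 w ∈ derivedSeries (Equiv.Perm (Fin 4)) 3 :=
      map_derivedSeries_le_derivedSeries _ 3 (Subgroup.mem_map_of_mem _ hw)
    rw [perm4_three, Subgroup.mem_bot] at h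
    exact h
  d0 := 0
  k1 := x1⁻¹ * x2
  k2 := x1⁻¹ * x1⁻¹ * x2 * x1 * x1
  hk1 b1 b2 := by
    simp only [map_mul, map_inv, ev2_zero, ev2_one]
    constructor
    · rfl
    · simp only [Wr.mul_f, Wr.inv_f]
      change (1 : _)⁻¹ * b1 = b1
      simp
  hk2 b1 b2 := by
    simp only [map_mul, map_inv, ev2_zero, ev2_one]
    constructor
    · rfl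
    · simp only [Wr.mul_f, Wr.inv_f]
      change (1 : _)⁻¹ * (1 : _)⁻¹ * b2 * 1 * 1 = b2
      simp
  hz1 := y41
  hz2 := y42

/-- a linear map of determinant `-1` -/
def g1 : AG := ⟨2, 1, 2, 2, 0, 0, by decide⟩
/-- an affine map of determinant `1` -/
def g2 : AG := ⟨1, 0, 2, 1, 1, 1, by decide⟩

/-- numbering of the nine points -/
def e9 : AG.Pt ≃ Fin 9 where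
  toFun p := ⟨3 * p.1.val + p.2.val, by
    have h1 := ZMod.val_lt p.1
    have h2 := ZMod.val_lt p.2
    omega⟩
  invFun i := ((i.val / 3 : ℕ), (i.val % 3 : ℕ))
  left_inv := by decide
  right_inv := by decide

/-- the permutation of `g1` -/
def q1 : Equiv.Perm (Fin 9) :=
  ⟨![0, 5, 7, 8, 1, 3, 4, 6, 2], ![0, 4, 8, 5, 6, 1, 7, 2, 3], by decide, by decide⟩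
/-- the permutation of `g2` -/
def q2 : Equiv.Perm (Fin 9) :=
  ⟨![4, 5, 3, 6, 7, 8, 2, 0, 1], ![7, 8, 6, 2, 0, 1, 3, 4, 5], by decide, by decide⟩

/-- The action of `AG` on nine points. -/
def toP9 : AG →* Equiv.Perm (Fin 9) := (e9.permCongrHom.toMonoidHom).comp AG.toPerm

theorem toP9_g1 : toP9 g1 = q1 := by
  ext i
  revert i
  decide +kernel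

theorem toP9_g2 : toP9 g2 = q2 := by
  ext i
  revert i
  decide +kernel

theorem agl_hm (w : F2) (hw : w ∈ derivedSeries F2 5) : ev2 q1 q2 w = 1 := by
  rw [← toP9_g1, ← toP9_g2, ← ev2_comp]
  have h : ev2 g1 g2 w ∈ derivedSeries AG 5 :=
    map_derivedSeries_le_derivedSeries _ 5 (Subgroup.mem_map_of_mem _ hw)
  rw [AG.D5, Subgroup.mem_bot] at h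
  rw [h, map_one]

/-- first generator, universal holonomy -/
def tE1 : Wr (Fin 9) ZZ :=
  ⟨![(Multiplicative.ofAdd 1, 1), (Multiplicative.ofAdd 1, 1)⁻¹, 1, 1, 1, 1, 1, 1, 1], q1⟩

/-- first generator, universal holonomy -/
def tO1 : Wr (Fin 9) ZZ := ⟨![(Multiplicative.ofAdd 1, 1), 1, 1, 1, 1, 1, 1, 1, 1], q1⟩

/-- second generator, universal holonomy -/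
def tE2 : Wr (Fin 9) ZZ := ⟨![(1, Multiplicative.ofAdd 1), 1, 1, 1, 1, 1, 1, 1, 1], q2⟩

theorem zE1 : (uE1f tE1 tE2).f 0 = (Multiplicative.ofAdd 1, 1) := by decide +kernel
theorem zE2 : (uE2f tE1 tE2).f 0 = (1, Multiplicative.ofAdd 1) := by decide +kernel
theorem zO1 : (uO1f tO1 tE2).f 0 = (Multiplicative.ofAdd 1, 1) := by decide +kernel
theorem zO2 : (uO2f tO1 tE2).f 0 = (1, Multiplicative.ofAdd 1) := by decide +kernel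

theorem yE1 : HasWord tE1 tE2 5 0 (Multiplicative.ofAdd 1, 1) :=
  ⟨uE1, uE1_mem, by rw [uE1_ev]; exact zE1⟩
theorem yE2 : HasWord tE1 tE2 5 0 (1, Multiplicative.ofAdd 1) :=
  ⟨uE2, uE2_mem, by rw [uE2_ev]; exact zE2⟩
theorem yO1 : HasWord tO1 tE2 5 0 (Multiplicative.ofAdd 1, 1) :=
  ⟨uO1, uO1_mem, by rw [uO1_ev]; exact zO1⟩
theorem yO2 : HasWord tO1 tE2 5 0 (1, Multiplicative.ofAdd 1) :=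
  ⟨uO2, uO2_mem, by rw [uO2_ev]; exact zO2⟩

/-- The top group `AGL_2(3)`, labels with even exponents in `b1`. -/
def topE : TopData (Fin 9) 5 where
  T1 := fun b1 _ => ⟨![b1, b1⁻¹, 1, 1, 1, 1, 1, 1, 1], q1⟩
  T2 := fun _ b2 => ⟨![b2, 1, 1, 1, 1, 1, 1, 1, 1], q2⟩
  nat1 h b1 b2 := by
    apply Wr.ext
    · funext d
      fin_cases d <;> simp
    · rfl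
  nat2 h b1 b2 := by
    apply Wr.ext
    · funext d
      fin_cases d <;> simp
    · rfl
  a1 := q1
  a2 := q2
  s1 _ _ := rfl
  s2 _ _ := rfl
  hm := agl_hm
  d0 := 0
  k1 := x1
  k2 := x2 * x2 * x2
  hk1 b1 b2 := by
    simp only [ev2_zero]
    constructor
    · rfl
    · rfl
  hk2 b1 b2 := by
    simp only [map_mul, ev2_one]
    constructor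
    · rfl
    · simp only [Wr.mul_f]
      change (1 : _) * (1 : _) * b2 = b2
      simp
  hz1 := yE1
  hz2 := yE2

/-- The top group `AGL_2(3)`, one label `b1`. -/
def topO : TopData (Fin 9) 5 where
  T1 := fun b1 _ => ⟨![b1, 1, 1, 1, 1, 1, 1, 1, 1], q1⟩
  T2 := fun _ b2 => ⟨![b2, 1, 1, 1, 1, 1, 1, 1, 1], q2⟩
  nat1 h b1 b2 := by
    apply Wr.ext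
    · funext d
      fin_cases d <;> simp
    · rfl
  nat2 h b1 b2 := by
    apply Wr.ext
    · funext d
      fin_cases d <;> simp
    · rfl
  a1 := q1
  a2 := q2
  s1 _ _ := rfl
  s2 _ _ := rfl
  hm := agl_hm
  d0 := 0
  k1 := x1
  k2 := x2 * x2 * x2
  hk1 b1 b2 := by
    simp only [ev2_zero]
    constructor
    · rfl
    · rfl
  hk2 b1 b2 := by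
    simp only [map_mul, ev2_one]
    constructor
    · rfl
    · simp only [Wr.mul_f]
      change (1 : _) * (1 : _) * b2 = b2
      simp
  hz1 := yO1
  hz2 := yO2

end Pool.Agent.Work.MP_403fb3_al_helper9
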