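import Mathlib

/-!
# Wreath products with a permutation group on top
-/

namespace Pool.Agent.Work.MP_403fb3_al_helper9

open Subgroup

/-- The full wreath product of `B` with the symmetric group on `D`: pairs `(f, s)`. -/
@[ext] structure Wr (D B : Type) where
  /-- the labels -/
  f : D → B
  /-- the permutation -/
  s : Equiv.Perm D

namespace Wr

variable {D B C : Type} [Group B] [Group C]

instance : Mul (Wr D B) := ⟨fun x y => ⟨fun d => x.f (y.s d) * y.f d, x.s * y.s⟩⟩
instance : One (Wr D B) := ⟨⟨fun _ => 1, 1⟩⟩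
instance : Inv (Wr D B) := ⟨fun x => ⟨fun d => (x.f (x.s⁻¹ d))⁻¹, x.s⁻¹⟩⟩

@[simp] theorem mul_f (x y : Wr D B) (d : D) : (x * y).f d = x.f (y.s d) * y.f d := rfl
@[simp] theorem mul_s (x y : Wr D B) : (x * y).s = x.s * y.s := rfl
@[simp] theorem one_f (d : D) : (1 : Wr D B).f d = 1 := rfl
@[simp] theorem one_s : (1 : Wr D B).s = 1 := rfl
@[simp] theorem inv_f (x : Wr D B) (d : D) : (x⁻¹).f d = (x.f (x.s⁻¹ d))⁻¹ := rfl
@[simp] theorem inv_s (x : Wr D B) : (x⁻¹).s = x.s⁻¹ := rfl

instance : Group (Wr D B) where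
  mul_assoc x y z := by
    ext d
    · simp [mul_assoc]
    · simp
  one_mul x := by
    ext d
    · simp
    · simp
  mul_one x := by
    ext d
    · simp
    · simp
  inv_mul_cancel x := by
    ext d
    · simp
    · simp

/-- The permutation part. -/
def toPerm : Wr D B →* Equiv.Perm D where
  toFun := Wr.s
  map_one' := rfl
  map_mul' _ _ := rfl

/-- Functoriality in the bottom group. -/
def map (h : B →* C) : Wr D B →* Wr D C where
  toFun x := ⟨fun d => h (x.f d), x.s⟩
  map_one' := by ext d <;> simp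
  map_mul' x y := by ext d <;> simp

@[simp] theorem map_f (h : B →* C) (x : Wr D B) (d : D) : (map h x).f d = h (x.f d) := rfl
@[simp] theorem map_s (h : B →* C) (x : Wr D B) : (map h x).s = x.s := rfl

instance [DecidableEq D] [Fintype D] [DecidableEq B] : DecidableEq (Wr D B) := fun x y =>
  decidable_of_iff (x.f = y.f ∧ x.s = y.s) ⟨fun h => Wr.ext h.1 h.2, fun h => by rw [h]; exact ⟨rfl, rfl⟩⟩

end Wr

/-- The holonomy group `ℤ × ℤ`. -/
abbrev ZZ : Type := Multiplicative ℤ × Multiplicative ℤ

end Pool.Agent.Work.MP_403fb3_al_helper9
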